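import Mathlib

set_option autoImplicit false
open Polynomial

namespace Pool.Agent.Helper681.JoinBound

abbrev E (m : ℕ) : Type := EuclideanSpace ℝ (Fin m)

/-- value of the affine function attached to a polynomial -/
noncomputable def ev (p : ℝ[X]) (x : E 8) : ℝ := p.coeff 0 + ∑ i : Fin 8, p.coeff (i + 1) * x i

/-- the point attached to a functional -/
noncomputable def pt (L : ℝ[X] →ₗ[ℝ] ℝ) : E 8 := WithLp.toLp 2 fun i => L (X ^ ((i : ℕ) + 1)) / L 1

lemma ev_pt (L : ℝ[X] →ₗ[ℝ] ℝ) (hL : L 1 ≠ 0) (p : ℝ[X]) (hp : p.natDegree ≤ 8) :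
    ev p (pt L) = L p / L 1 := by
  have h1 : p = ∑ i ∈ Finset.range 9, C (p.coeff i) * X ^ i := by
    conv_lhs => rw [p.as_sum_range' 9 (by omega)]
    simp [C_mul_X_pow_eq_monomial]
  have h2 : L p = ∑ i ∈ Finset.range 9, p.coeff i * L (X ^ i) := by
    conv_lhs => rw [h1]
    rw [map_sum]
    refine Finset.sum_congr rfl fun i _ => ?_
    rw [← smul_eq_C_mul, map_smul, smul_eq_mul]
  rw [h2]
  simp only [ev, pt, Fin.sum_univ_eq_sum_range (fun i => p.coeff (i + 1) * (L (X ^ (i + 1)) / L 1)) 8]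
  rw [Finset.sum_range_succ' _ 8, add_div, Finset.sum_div]
  simp only [pow_zero]
  rw [mul_div_assoc, div_self hL, mul_one, add_comm]
  congr 1
  refine Finset.sum_congr rfl fun i _ => ?_
  ring

/-- the linear part of `ev p` -/
noncomputable def lin (p : ℝ[X]) : E 8 →L[ℝ] ℝ :=
  LinearMap.toContinuousLinearMap
    { toFun := fun x => ∑ i : Fin 8, p.coeff (i + 1) * x i
      map_add' := by intro x y; simp [mul_add, Finset.sum_add_distrib]
      map_smul' := by intro c x; simp [Finset.mul_sum]; refine Finset.sum_congr rfl fun i _ => ?_; ring }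

lemma ev_eq (p : ℝ[X]) (x : E 8) : ev p x = p.coeff 0 + lin p x := rfl

/-- every affine function is of this form -/
lemma exists_poly_of_lin (l : E 8 →L[ℝ] ℝ) (m : ℝ) :
    ∃ p : ℝ[X], p.natDegree ≤ 8 ∧ ∀ x, ev p x = m - l x := by
  refine ⟨C m - ∑ i : Fin 8, C (l (EuclideanSpace.single i 1)) * X ^ ((i : ℕ) + 1), ?_, ?_⟩
  · refine (natDegree_sub_le _ _).trans (max_le (by simp) ?_)
    refine natDegree_sum_le_of_forall_le _ _ fun i _ => ?_
    refine (natDegree_C_mul_X_pow_le _ _).trans ?_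
    omega
  · intro x
    have hx : l x = ∑ i : Fin 8, x i * l (EuclideanSpace.single i 1) := by
      conv_lhs => rw [← (EuclideanSpace.basisFun (Fin 8) ℝ).sum_repr x]
      rw [map_sum]
      refine Finset.sum_congr rfl fun i _ => ?_
      rw [map_smul, smul_eq_mul]
      simp
    rw [ev, hx]
    have hc0 : (C m - ∑ i : Fin 8, C (l (EuclideanSpace.single i 1)) * X ^ ((i : ℕ) + 1) : ℝ[X]).coeff 0 = m := by
      simp [coeff_X_pow]
    have hci : ∀ j : Fin 8, (C m - ∑ i : Fin 8, C (l (EuclideanSpace.single i 1)) * X ^ ((i : ℕ) + 1) : ℝ[X]).coeff ((j : ℕ) + 1)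
        = - l (EuclideanSpace.single j 1) := by
      intro j
      rw [coeff_sub, finsetSum_coeff, coeff_C_succ]
      simp only [coeff_C_mul, coeff_X_pow, zero_sub, neg_inj]
      rw [Finset.sum_eq_single j]
      · simp
      · intro b _ hb
        simp only [add_left_inj, mul_ite, mul_one, mul_zero, ite_eq_right_iff]
        intro h
        exact absurd (Fin.ext h.symm) hb
      · simp
    rw [hc0]
    simp only [hci]
    rw [sub_eq_add_neg, ← Finset.sum_neg_distrib]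
    congr 1
    refine Finset.sum_congr rfl fun i _ => ?_
    ring


lemma ev_comb (p : ℝ[X]) (x y : E 8) (a b : ℝ) (hab : a + b = 1) :
    ev p (a • x + b • y) = a * ev p x + b * ev p y := by
  rw [ev_eq, ev_eq, ev_eq, map_add, map_smul, map_smul, smul_eq_mul, smul_eq_mul]
  linear_combination (-p.coeff 0) * hab

section family

variable {ι : Type} (L : ι → (ℝ[X] →ₗ[ℝ] ℝ)) (hL : ∀ x, 0 < L x 1)

include hL

lemma ev_pt' (x : ι) (p : ℝ[X]) (hp : p.natDegree ≤ 8) : ev p (pt (L x)) = L x p / L x 1 :=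
  ev_pt _ (hL x).ne' p hp

lemma ev_pos_iff (x : ι) (p : ℝ[X]) (hp : p.natDegree ≤ 8) : 0 < ev p (pt (L x)) ↔ 0 < L x p := by
  rw [ev_pt' L hL x p hp]
  constructor
  · intro h
    have := mul_pos h (hL x)
    rwa [div_mul_cancel₀ _ (hL x).ne'] at this
  · intro h; exact div_pos h (hL x)

lemma ev_zero_iff (x : ι) (p : ℝ[X]) (hp : p.natDegree ≤ 8) : ev p (pt (L x)) = 0 ↔ L x p = 0 := by
  rw [ev_pt' L hL x p hp, div_eq_zero_iff]
  simp [(hL x).ne']

/-- a point with a strict certificate is not in the hull of the others -/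
lemma not_mem_hull (v : ι) (p : ℝ[X]) (hp : p.natDegree ≤ 8) (hv : L v p = 0)
    (hx : ∀ x, x ≠ v → 0 < L x p) (S : Set (E 8)) (hS : ∀ s ∈ S, ∃ x, x ≠ v ∧ s = pt (L x)) :
    pt (L v) ∉ convexHull ℝ S := by
  intro hmem
  have hconv : Convex ℝ {x : E 8 | 0 < ev p x} := by
    intro x hx y hy a b ha hb hab
    simp only [Set.mem_setOf_eq] at *
    rw [ev_comb p x y a b hab]
    rcases ha.eq_or_lt with h0 | h0
    · rw [← h0] at hab ⊢
      have hb1 : b = 1 := by linarith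
      rw [hb1]; linarith
    · have := mul_pos h0 hx
      have := mul_nonneg hb hy.le
      linarith
  have hsub : S ⊆ {x : E 8 | 0 < ev p x} := by
    intro s hs
    obtain ⟨x, hxv, rfl⟩ := hS s hs
    exact (ev_pos_iff L hL x p hp).2 (hx x hxv)
  have h1 := convexHull_min hsub hconv hmem
  have h2 := (ev_zero_iff L hL v p hp).2 hv
  simp only [Set.mem_setOf_eq] at h1
  linarith

/-- a certificate gives an exposed segment -/
lemma exposed_of_cert (u v : ι) (p : ℝ[X]) (hp : p.natDegree ≤ 8) (hu : L u p = 0) (hv : L v p = 0)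
    (hx : ∀ x, x ≠ u → x ≠ v → 0 < L x p) :
    IsExposed ℝ (convexHull ℝ (Set.range fun x => pt (L x))) (segment ℝ (pt (L u)) (pt (L v))) := by
  intro _
  refine ⟨-lin p, ?_⟩
  set A := convexHull ℝ (Set.range fun x => pt (L x)) with hA
  have hconv : Convex ℝ {x : E 8 | 0 ≤ ev p x ∧ (ev p x = 0 → x ∈ segment ℝ (pt (L u)) (pt (L v)))} := by
    rintro x ⟨hx0, hx1⟩ y ⟨hy0, hy1⟩ a b ha hb hab
    rw [Set.mem_setOf_eq, ev_comb p x y a b hab]
    have h1 := mul_nonneg ha hx0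
    have h2 := mul_nonneg hb hy0
    refine ⟨by linarith, fun h => ?_⟩
    have h3 : a * ev p x = 0 := by linarith
    have h4 : b * ev p y = 0 := by linarith
    rcases ha.eq_or_lt with ha0 | ha0
    · rw [← ha0] at hab ⊢
      have hb1 : b = 1 := by linarith
      rw [hb1] at h4 ⊢
      rw [zero_smul, zero_add, one_smul]
      exact hy1 (by linarith)
    · rcases hb.eq_or_lt with hb0 | hb0
      · rw [← hb0] at hab ⊢
        have ha1 : a = 1 := by linarith
        rw [ha1] at h3 ⊢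
        rw [zero_smul, add_zero, one_smul]
        exact hx1 (by linarith)
      · have h5 : ev p x = 0 := by
          rcases mul_eq_zero.1 h3 with h | h
          · linarith
          · exact h
        have h6 : ev p y = 0 := by
          rcases mul_eq_zero.1 h4 with h | h
          · linarith
          · exact h
        exact convex_segment _ _ (hx1 h5) (hy1 h6) ha hb hab
  have hsub : A ⊆ {x : E 8 | 0 ≤ ev p x ∧ (ev p x = 0 → x ∈ segment ℝ (pt (L u)) (pt (L v)))} := by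
    refine convexHull_min ?_ hconv
    rintro _ ⟨x, rfl⟩
    by_cases hxu : x = u
    · subst hxu
      exact ⟨((ev_zero_iff L hL x p hp).2 hu).ge, fun _ => left_mem_segment _ _ _⟩
    by_cases hxv : x = v
    · subst hxv
      exact ⟨((ev_zero_iff L hL x p hp).2 hv).ge, fun _ => right_mem_segment _ _ _⟩
    have h1 := (ev_pos_iff L hL x p hp).2 (hx x hxu hxv)
    exact ⟨h1.le, fun h => absurd h h1.ne'⟩
  have huA : pt (L u) ∈ A := subset_convexHull _ _ ⟨u, rfl⟩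
  have hvA : pt (L v) ∈ A := subset_convexHull _ _ ⟨v, rfl⟩
  have hu0 := (ev_zero_iff L hL u p hp).2 hu
  have hv0 := (ev_zero_iff L hL v p hp).2 hv
  ext x
  constructor
  · intro hx
    have hxA : x ∈ A := (convex_convexHull ℝ _).segment_subset huA hvA hx
    refine ⟨hxA, fun y hy => ?_⟩
    have hx0 : ev p x = 0 := by
      obtain ⟨a, b, ha, hb, hab, rfl⟩ := hx
      rw [ev_comb p _ _ a b hab, hu0, hv0]; ring
    have hy0 := (hsub hy).1
    rw [ev_eq] at hx0 hy0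
    simp only [ContinuousLinearMap.neg_apply]
    linarith
  · rintro ⟨hxA, hmax⟩
    have h1 := hmax _ huA
    have h2 := (hsub hxA).1
    apply (hsub hxA).2
    rw [ev_eq] at hu0 h2 ⊢
    simp only [ContinuousLinearMap.neg_apply] at h1
    linarith

/-- a relation kills an edge -/
lemma not_exposed (u v w : ι) (hw : pt (L w) ∉ segment ℝ (pt (L u)) (pt (L v)))
    (hrel : ∀ p : ℝ[X], (∀ x, 0 ≤ L x p) → L u p = 0 → L v p = 0 → L w p = 0) :
    ¬ IsExposed ℝ (convexHull ℝ (Set.range fun x => pt (L x))) (segment ℝ (pt (L u)) (pt (L v))) := by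
  intro hexp
  obtain ⟨l, hl⟩ := hexp ⟨_, left_mem_segment _ _ _⟩
  set A := convexHull ℝ (Set.range fun x => pt (L x)) with hA
  have hum : pt (L u) ∈ {x ∈ A | ∀ y ∈ A, l y ≤ l x} := by rw [← hl]; exact left_mem_segment _ _ _
  have hvm : pt (L v) ∈ {x ∈ A | ∀ y ∈ A, l y ≤ l x} := by rw [← hl]; exact right_mem_segment _ _ _
  obtain ⟨p, hp, hpe⟩ := exists_poly_of_lin l (l (pt (L u)))
  have hmem : ∀ x, pt (L x) ∈ A := fun x => subset_convexHull _ _ ⟨x, rfl⟩
  have h1 : ∀ x, 0 ≤ L x p := by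
    intro x
    have h2 := hpe (pt (L x))
    rw [ev_pt' L hL x p hp] at h2
    have h3 := hum.2 _ (hmem x)
    have h4 : 0 ≤ L x p / L x 1 := by rw [h2]; linarith
    have h5 := mul_nonneg h4 (hL x).le
    rwa [div_mul_cancel₀ _ (hL x).ne'] at h5
  have h2 : L u p = 0 := by
    rw [← ev_zero_iff L hL u p hp, hpe]; ring
  have h3 : L v p = 0 := by
    rw [← ev_zero_iff L hL v p hp, hpe]
    have h4 := hum.2 _ (hmem v)
    have h5 := hvm.2 _ (hmem u)
    linarith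
  have h4 := hrel p h1 h2 h3
  rw [← ev_zero_iff L hL w p hp, hpe] at h4
  apply hw
  rw [hl]
  refine ⟨hmem w, fun y hy => ?_⟩
  have := hum.2 y hy
  linarith

end family


noncomputable def cc (k : ℕ) : ℝ := 3 * k + 1 / 2
noncomputable def MM (k : ℕ) : ℝ := 3 * k + 5
noncomputable def BB (k : ℕ) : ℝ := (MM k) ^ 8

noncomputable def Q (s : ℕ) : ℝ[X] := (X - C (3 * (s : ℝ))) * (X - C (3 * (s : ℝ) + 1))
noncomputable def Es (E : Finset ℕ) : ℝ[X] := ∏ e ∈ E, (X - C (e : ℝ)) ^ 2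

lemma one_le_prod_real {α : Type} {s : Finset α} {f : α → ℝ} (h : ∀ i ∈ s, 1 ≤ f i) :
    1 ≤ ∏ i ∈ s, f i := by
  calc (1 : ℝ) = ∏ _i ∈ s, 1 := by simp
    _ ≤ ∏ i ∈ s, f i := Finset.prod_le_prod (fun _ _ => zero_le_one) h

lemma eval_Q (s : ℕ) (t : ℝ) : (Q s).eval t = (t - 3 * s) * (t - (3 * s + 1)) := by
  simp [Q]

lemma eval_Es (E : Finset ℕ) (t : ℝ) : (Es E).eval t = ∏ e ∈ E, (t - e) ^ 2 := by
  simp [Es, eval_prod]

lemma MM_ge (k : ℕ) : 4 ≤ MM k := by
  unfold MM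
  have : (0 : ℝ) ≤ k := Nat.cast_nonneg k
  linarith

lemma BB_ge (k : ℕ) : 1 ≤ BB k := one_le_pow₀ (by linarith [MM_ge k])

/-- integer points: the pair factor is nonnegative -/
lemma Q_nonneg (s t : ℕ) : 0 ≤ (Q s).eval (t : ℝ) := by
  rw [eval_Q]
  rcases lt_or_ge t (3 * s + 1) with h | h
  · have h1 : (t : ℝ) ≤ 3 * s := by
      have : t ≤ 3 * s := by omega
      exact_mod_cast this
    nlinarith
  · have h1 : (3 * s + 1 : ℝ) ≤ t := by exact_mod_cast h
    nlinarith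

lemma Q_ge_one (s t : ℕ) (h : t / 3 ≠ s) : 1 ≤ (Q s).eval (t : ℝ) := by
  rw [eval_Q]
  rcases lt_or_ge t (3 * s) with h1 | h1
  · have h2 : (t : ℝ) + 1 ≤ 3 * s := by exact_mod_cast h1
    nlinarith
  · have h2 : 3 * s + 3 ≤ t := by omega
    have h3 : (3 * s + 3 : ℝ) ≤ t := by exact_mod_cast h2
    nlinarith

lemma Q_cc (k s : ℕ) (h : s < k) : 1 ≤ (Q s).eval (cc k) ∧ (Q s).eval (cc k) ≤ (MM k) ^ 2 := by
  rw [eval_Q]
  unfold cc MM
  have h1 : (s : ℝ) + 1 ≤ k := by exact_mod_cast h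
  have h2 : (0 : ℝ) ≤ s := Nat.cast_nonneg s
  constructor
  · nlinarith
  · nlinarith

lemma sq_ge_one (t e : ℕ) (h : t ≠ e) : 1 ≤ ((t : ℝ) - e) ^ 2 := by
  rcases lt_or_gt_of_ne h with h1 | h1
  · have : (t : ℝ) + 1 ≤ e := by exact_mod_cast h1
    nlinarith
  · have : (e : ℝ) + 1 ≤ t := by exact_mod_cast h1
    nlinarith

lemma sq_cc (k e : ℕ) (h : e < 3 * (k + 2)) : 0 < (cc k - e) ^ 2 ∧ (cc k - e) ^ 2 ≤ (MM k) ^ 2 := by
  unfold cc MM
  have h1 : (e : ℝ) + 1 ≤ 3 * (k + 2) := by exact_mod_cast h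
  have h2 : (0 : ℝ) ≤ e := Nat.cast_nonneg e
  have hk : (0 : ℝ) ≤ k := Nat.cast_nonneg k
  constructor
  · have h3 : (3 * (k : ℝ) + 1 / 2 - e) ≠ 0 := by
      intro h4
      have h5 : (2 * e : ℝ) = 6 * k + 1 := by linarith
      have h6 : 2 * e = 6 * k + 1 := by exact_mod_cast h5
      omega
    positivity
  · have h3 : -(3 * (k : ℝ) + 5) ≤ 3 * (k : ℝ) + 1 / 2 - e := by nlinarith
    have h4 : 3 * (k : ℝ) + 1 / 2 - e ≤ 3 * (k : ℝ) + 5 := by nlinarith
    exact sq_le_sq' h3 h4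

/-- bound of a product by powers -/
lemma prod_Q_cc (k : ℕ) (S : Finset ℕ) (hS : ∀ s ∈ S, s < k) :
    1 ≤ ∏ s ∈ S, (Q s).eval (cc k) ∧ ∏ s ∈ S, (Q s).eval (cc k) ≤ (MM k) ^ (2 * S.card) := by
  constructor
  · exact one_le_prod_real fun s hs => (Q_cc k s (hS s hs)).1
  · rw [pow_mul, ← Finset.prod_const]
    exact Finset.prod_le_prod (fun s hs => by linarith [(Q_cc k s (hS s hs)).1])
      fun s hs => (Q_cc k s (hS s hs)).2

lemma Es_cc (k : ℕ) (E : Finset ℕ) (hE : ∀ e ∈ E, e < 3 * (k + 2)) :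
    0 < (Es E).eval (cc k) ∧ (Es E).eval (cc k) ≤ (MM k) ^ (2 * E.card) := by
  rw [eval_Es]
  constructor
  · exact Finset.prod_pos fun e he => (sq_cc k e (hE e he)).1
  · rw [pow_mul, ← Finset.prod_const]
    exact Finset.prod_le_prod (fun e he => (sq_cc k e (hE e he)).1.le)
      fun e he => (sq_cc k e (hE e he)).2

lemma Es_nonneg (E : Finset ℕ) (t : ℝ) : 0 ≤ (Es E).eval t := by
  rw [eval_Es]; exact Finset.prod_nonneg fun _ _ => sq_nonneg _

lemma Es_ge_one (E : Finset ℕ) (t : ℕ) (h : t ∉ E) : 1 ≤ (Es E).eval (t : ℝ) := by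
  rw [eval_Es]
  exact one_le_prod_real fun e he => sq_ge_one t e (fun h1 => h (h1 ▸ he))

lemma Es_zero (E : Finset ℕ) (e : ℕ) (h : e ∈ E) : (Es E).eval (e : ℝ) = 0 := by
  rw [eval_Es]
  exact Finset.prod_eq_zero h (by simp)

/-- the lifting functions -/
noncomputable def GG (S E : Finset ℕ) (s : ℕ) (z : ℝ) : ℝ[X] :=
  Es E * (X - C z) ^ 2 * ∏ r ∈ S.erase s, Q r

lemma eval_GG (S E : Finset ℕ) (s : ℕ) (z t : ℝ) :
    (GG S E s z).eval t = (Es E).eval t * (t - z) ^ 2 * ∏ r ∈ S.erase s, (Q r).eval t := by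
  simp [GG, eval_prod]

lemma natDegree_Q (s : ℕ) : (Q s).natDegree ≤ 2 := by
  unfold Q
  refine natDegree_mul_le.trans ?_
  have h1 := natDegree_X_sub_C_le (3 * (s : ℝ))
  have h2 := natDegree_X_sub_C_le (3 * (s : ℝ) + 1)
  omega

lemma natDegree_prodQ (S : Finset ℕ) : (∏ s ∈ S, Q s).natDegree ≤ 2 * S.card := by
  refine (natDegree_prod_le _ _).trans ?_
  rw [mul_comm, ← smul_eq_mul, ← Finset.sum_const]
  exact Finset.sum_le_sum fun s _ => natDegree_Q s

lemma natDegree_Es (E : Finset ℕ) : (Es E).natDegree ≤ 2 * E.card := by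
  unfold Es
  refine (natDegree_prod_le _ _).trans ?_
  rw [mul_comm, ← smul_eq_mul, ← Finset.sum_const]
  refine Finset.sum_le_sum fun s _ => ?_
  refine natDegree_pow_le.trans ?_
  have h1 := natDegree_X_sub_C_le (s : ℝ)
  omega

lemma natDegree_GG (S E : Finset ℕ) (s : ℕ) (z : ℝ) (hs : s ∈ S) (h : S.card + E.card ≤ 4) :
    (GG S E s z).natDegree ≤ 8 := by
  unfold GG
  refine natDegree_mul_le.trans ?_
  have h1 := natDegree_prodQ (S.erase s)
  rw [Finset.card_erase_of_mem hs] at h1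
  have h2 : (Es E * (X - C z) ^ 2).natDegree ≤ 2 * E.card + 2 := by
    refine natDegree_mul_le.trans ?_
    have h3 := natDegree_Es E
    have h4 : ((X - C z) ^ 2 : ℝ[X]).natDegree ≤ 2 := by
      refine natDegree_pow_le.trans ?_
      have h1 := natDegree_X_sub_C_le z
      omega
    omega
  have h5 : 1 ≤ S.card := Finset.card_pos.2 ⟨s, hs⟩
  omega

theorem exists_cert (k : ℕ) (S E : Finset ℕ) (hS : ∀ s ∈ S, s < k)
    (hE : ∀ e ∈ E, e < 3 * (k + 2) ∧ e / 3 ∉ S) (hcard : S.card + E.card ≤ 4) (ξ : ℕ → ℝ)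
    (hξ0 : ∀ t, 0 ≤ ξ t) (hξ : ∀ t, ξ t ≤ 1 / (16 * BB k)) :
    ∃ p : ℝ[X], p.natDegree ≤ 8 ∧ p.eval (cc k) = 1 ∧
      (∀ s ∈ S, p.eval ((3 * s : ℕ) : ℝ) = ξ (3 * s) ∧ p.eval ((3 * s + 1 : ℕ) : ℝ) = ξ (3 * s + 1)) ∧
      (∀ e ∈ E, p.eval (e : ℝ) = 0) ∧
      ∀ t : ℕ, t / 3 ∉ S → t ∉ E → 1 / (2 * BB k) ≤ p.eval (t : ℝ) := by
  classical
  have hB := BB_ge k
  have hM := MM_ge k
  -- lifting functions at their points
  have hg : ∀ s ∈ S, ∀ t : ℕ, t / 3 = s → ∀ z : ℕ, z ≠ t →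
      1 ≤ (GG S E s z).eval (t : ℝ) := by
    intro s hs t ht z hz
    rw [eval_GG]
    have h1 := Es_ge_one E t (fun h => (hE t h).2 (ht ▸ hs))
    have h2 := sq_ge_one t z hz.symm
    have h3 : 1 ≤ ∏ r ∈ S.erase s, (Q r).eval (t : ℝ) :=
      one_le_prod_real fun r hr => Q_ge_one r t (fun h => (Finset.mem_erase.1 hr).1 (by omega))
    have h4 := one_le_mul_of_one_le_of_one_le h1 h2
    exact one_le_mul_of_one_le_of_one_le h4 h3
  have hgc : ∀ s ∈ S, ∀ z : ℕ, z < 3 * (k + 2) → 0 ≤ (GG S E s z).eval (cc k) ∧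
      (GG S E s z).eval (cc k) ≤ BB k := by
    intro s hs z hz
    rw [eval_GG]
    obtain ⟨h1, h1'⟩ := Es_cc k E (fun e he => (hE e he).1)
    obtain ⟨h2, h2'⟩ := sq_cc k z hz
    obtain ⟨h3, h3'⟩ := prod_Q_cc k (S.erase s) (fun r hr => hS r (Finset.mem_erase.1 hr).2)
    constructor
    · positivity
    · have h4 : (Es E).eval (cc k) * (cc k - z) ^ 2 ≤ MM k ^ (2 * E.card) * MM k ^ 2 :=
        mul_le_mul h1' h2' h2.le (by positivity)
      have h5 : (Es E).eval (cc k) * (cc k - z) ^ 2 * ∏ r ∈ S.erase s, (Q r).eval (cc k) ≤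
          MM k ^ (2 * E.card) * MM k ^ 2 * MM k ^ (2 * (S.erase s).card) :=
        mul_le_mul h4 h3' (by linarith) (by positivity)
      refine h5.trans ?_
      rw [← pow_add, ← pow_add, BB]
      refine pow_le_pow_right₀ (by linarith) ?_
      rw [Finset.card_erase_of_mem hs]
      have : 1 ≤ S.card := Finset.card_pos.2 ⟨s, hs⟩
      omega
  have hgn : ∀ s, ∀ z : ℝ, ∀ t : ℕ, 0 ≤ (GG S E s z).eval (t : ℝ) := by
    intro s z t
    rw [eval_GG]
    exact mul_nonneg (mul_nonneg (Es_nonneg _ _) (sq_nonneg _))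
      (Finset.prod_nonneg fun r _ => Q_nonneg r t)
  -- the pieces
  set g0 : ℕ → ℝ[X] := fun s => GG S E s ((3 * s + 1 : ℕ) : ℝ) with hg0
  set g1 : ℕ → ℝ[X] := fun s => GG S E s ((3 * s : ℕ) : ℝ) with hg1
  set c0 : ℕ → ℝ := fun s => ξ (3 * s) / (g0 s).eval ((3 * s : ℕ) : ℝ) with hc0
  set c1 : ℕ → ℝ := fun s => ξ (3 * s + 1) / (g1 s).eval ((3 * s + 1 : ℕ) : ℝ) with hc1
  have hp0 : ∀ s ∈ S, 1 ≤ (g0 s).eval ((3 * s : ℕ) : ℝ) :=
    fun s hs => hg s hs (3 * s) (by omega) _ (by omega)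
  have hp1 : ∀ s ∈ S, 1 ≤ (g1 s).eval ((3 * s + 1 : ℕ) : ℝ) :=
    fun s hs => hg s hs (3 * s + 1) (by omega) _ (by omega)
  have hc0n : ∀ s ∈ S, 0 ≤ c0 s ∧ c0 s ≤ 1 / (16 * BB k) := by
    intro s hs
    have h1 := hp0 s hs
    refine ⟨div_nonneg (hξ0 _) (by linarith), ?_⟩
    refine le_trans ?_ (hξ (3 * s))
    exact div_le_self (hξ0 _) h1
  have hc1n : ∀ s ∈ S, 0 ≤ c1 s ∧ c1 s ≤ 1 / (16 * BB k) := by
    intro s hs
    have h1 := hp1 s hs
    refine ⟨div_nonneg (hξ0 _) (by linarith), ?_⟩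
    refine le_trans ?_ (hξ (3 * s + 1))
    exact div_le_self (hξ0 _) h1
  set rest : ℝ[X] := ∑ s ∈ S, (C (c0 s) * g0 s + C (c1 s) * g1 s) with hrest
  set base : ℝ[X] := Es E * ∏ s ∈ S, Q s with hbase
  have hrest_eval : ∀ t : ℝ, rest.eval t = ∑ s ∈ S, (c0 s * (g0 s).eval t + c1 s * (g1 s).eval t) := by
    intro t
    rw [hrest, eval_finsetSum]
    refine Finset.sum_congr rfl fun s _ => ?_
    simp
  have hbase_eval : ∀ t : ℝ, base.eval t = (Es E).eval t * ∏ s ∈ S, (Q s).eval t := by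
    intro t; rw [hbase, eval_mul, eval_prod]
  have hbc : 0 < base.eval (cc k) ∧ base.eval (cc k) ≤ BB k := by
    rw [hbase_eval]
    obtain ⟨h1, h1'⟩ := Es_cc k E (fun e he => (hE e he).1)
    obtain ⟨h3, h3'⟩ := prod_Q_cc k S hS
    constructor
    · positivity
    · have h5 := mul_le_mul h1' h3' (by linarith) (by positivity)
      refine h5.trans ?_
      rw [← pow_add, BB]
      exact pow_le_pow_right₀ (by linarith) (by omega)
  have hrc : 0 ≤ rest.eval (cc k) ∧ rest.eval (cc k) ≤ 1 / 2 := by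
    rw [hrest_eval]
    have hterm : ∀ s ∈ S, 0 ≤ c0 s * (g0 s).eval (cc k) + c1 s * (g1 s).eval (cc k) ∧
        c0 s * (g0 s).eval (cc k) + c1 s * (g1 s).eval (cc k) ≤ 1 / 8 := by
      intro s hs
      have hsk := hS s hs
      obtain ⟨a1, a2⟩ := hgc s hs (3 * s + 1) (by omega)
      obtain ⟨b1, b2⟩ := hgc s hs (3 * s) (by omega)
      obtain ⟨d1, d2⟩ := hc0n s hs
      obtain ⟨e1, e2⟩ := hc1n s hs
      constructor
      · exact add_nonneg (mul_nonneg d1 a1) (mul_nonneg e1 b1)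
      · have h1 : c0 s * (g0 s).eval (cc k) ≤ 1 / (16 * BB k) * BB k := mul_le_mul d2 a2 a1 (by positivity)
        have h2 : c1 s * (g1 s).eval (cc k) ≤ 1 / (16 * BB k) * BB k := mul_le_mul e2 b2 b1 (by positivity)
        have h3 : 1 / (16 * BB k) * BB k = 1 / 16 := by field_simp
        linarith
    constructor
    · exact Finset.sum_nonneg fun s hs => (hterm s hs).1
    · refine (Finset.sum_le_sum fun s hs => (hterm s hs).2).trans ?_
      rw [Finset.sum_const, nsmul_eq_mul]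
      have : (S.card : ℝ) ≤ 4 := by exact_mod_cast (by omega : S.card ≤ 4)
      linarith
  set a : ℝ := (1 - rest.eval (cc k)) / base.eval (cc k) with ha
  have ha1 : 1 / (2 * BB k) ≤ a := by
    rw [ha, div_le_div_iff₀ (by positivity) hbc.1]
    nlinarith [hbc.2, hrc.2]
  have ha0 : 0 < a := lt_of_lt_of_le (by positivity) ha1
  refine ⟨C a * base + rest, ?_, ?_, ?_, ?_, ?_⟩
  · refine (natDegree_add_le _ _).trans (max_le ?_ ?_)
    · refine (natDegree_C_mul_le _ _).trans ?_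
      refine natDegree_mul_le.trans ?_
      have h1 := natDegree_Es E
      have h2 := natDegree_prodQ S
      omega
    · refine natDegree_sum_le_of_forall_le _ _ fun s hs => ?_
      refine (natDegree_add_le _ _).trans (max_le ?_ ?_)
      · exact (natDegree_C_mul_le _ _).trans (natDegree_GG S E s _ hs hcard)
      · exact (natDegree_C_mul_le _ _).trans (natDegree_GG S E s _ hs hcard)
  · rw [eval_add, eval_mul, eval_C, ha, div_mul_cancel₀ _ hbc.1.ne']
    ring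
  · intro s hs
    have hother0 : ∀ t : ℝ, (t = (3 * s : ℕ) ∨ t = (3 * s + 1 : ℕ)) → (Q s).eval t = 0 := by
      intro t ht
      rw [eval_Q]
      rcases ht with rfl | rfl
      · push_cast; ring
      · push_cast; ring
    have hzero : ∀ t : ℝ, (t = (3 * s : ℕ) ∨ t = (3 * s + 1 : ℕ)) → ∀ r ∈ S, r ≠ s → ∀ z,
        (GG S E r z).eval t = 0 := by
      intro t ht r hr hrs z
      rw [eval_GG, Finset.prod_eq_zero (Finset.mem_erase.2 ⟨hrs.symm, hs⟩) (hother0 t ht), mul_zero]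
    have hb0 : ∀ t : ℝ, (t = (3 * s : ℕ) ∨ t = (3 * s + 1 : ℕ)) → base.eval t = 0 := by
      intro t ht
      rw [hbase_eval, Finset.prod_eq_zero hs (hother0 t ht), mul_zero]
    have hsum : ∀ t : ℝ, (t = (3 * s : ℕ) ∨ t = (3 * s + 1 : ℕ)) →
        (C a * base + rest).eval t = c0 s * (g0 s).eval t + c1 s * (g1 s).eval t := by
      intro t ht
      rw [eval_add, eval_mul, hb0 t ht, mul_zero, zero_add, hrest_eval]
      refine Finset.sum_eq_single_of_mem s hs fun r hr hrs => ?_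
      rw [hg0, hg1]
      simp only
      rw [hzero t ht r hr hrs, hzero t ht r hr hrs]; ring
    constructor
    · rw [hsum _ (Or.inl rfl)]
      have h1 : (g1 s).eval ((3 * s : ℕ) : ℝ) = 0 := by
        rw [hg1]; simp only; rw [eval_GG]; simp
      rw [h1, mul_zero, add_zero, hc0]
      simp only
      rw [div_mul_cancel₀ _ (by linarith [hp0 s hs])]
    · rw [hsum _ (Or.inr rfl)]
      have h1 : (g0 s).eval ((3 * s + 1 : ℕ) : ℝ) = 0 := by
        rw [hg0]; simp only; rw [eval_GG]; simp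
      rw [h1, mul_zero, zero_add, hc1]
      simp only
      rw [div_mul_cancel₀ _ (by linarith [hp1 s hs])]
  · intro e he
    rw [eval_add, eval_mul, hbase_eval, Es_zero E e he, hrest_eval]
    simp only [zero_mul, mul_zero, zero_add]
    refine Finset.sum_eq_zero fun s _ => ?_
    rw [hg0, hg1]
    simp only
    rw [eval_GG, eval_GG, Es_zero E e he]; ring
  · intro t htS htE
    rw [eval_add, eval_mul, eval_C]
    have h1 : 1 ≤ base.eval (t : ℝ) := by
      rw [hbase_eval]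
      refine one_le_mul_of_one_le_of_one_le (Es_ge_one E t htE) ?_
      exact one_le_prod_real fun r hr => Q_ge_one r t (fun h => htS (h ▸ hr))
    have h2 : 0 ≤ rest.eval (t : ℝ) := by
      rw [hrest_eval]
      refine Finset.sum_nonneg fun s hs => ?_
      exact add_nonneg (mul_nonneg (hc0n s hs).1 (hgn s _ t)) (mul_nonneg (hc1n s hs).1 (hgn s _ t))
    nlinarith



/-! ### weights -/

noncomputable def KK (k : ℕ) : ℝ := 32 * BB k * 4 ^ k
noncomputable def LL (k : ℕ) : ℝ := 64 * KK k * 4 ^ k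

/-- weights at a pair for the killer whose other end is `j` -/
noncomputable def W0 (k j : ℕ) : ℝ := KK k * 4 ^ j
noncomputable def W1 (k j : ℕ) : ℝ := KK k / 4 ^ j

lemma KK_pos (k : ℕ) : 0 < KK k := by unfold KK; have := BB_ge k; positivity
lemma LL_pos (k : ℕ) : 0 < LL k := by unfold LL; have := KK_pos k; positivity
lemma W0_pos (k j : ℕ) : 0 < W0 k j := by unfold W0; have := KK_pos k; positivity
lemma W1_pos (k j : ℕ) : 0 < W1 k j := by unfold W1; have := KK_pos k; positivity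

lemma W0_ge (k j : ℕ) : 32 * BB k ≤ W0 k j := by
  unfold W0 KK
  have := BB_ge k
  have h1 : (1 : ℝ) ≤ 4 ^ k := one_le_pow₀ (by norm_num)
  have h2 : (1 : ℝ) ≤ 4 ^ j := one_le_pow₀ (by norm_num)
  have h3 := one_le_mul_of_one_le_of_one_le h1 h2
  nlinarith

lemma W1_ge (k j : ℕ) (hj : j ≤ k) : 32 * BB k ≤ W1 k j := by
  unfold W1 KK
  have := BB_ge k
  rw [le_div_iff₀ (by positivity)]
  have h2 : (4 : ℝ) ^ j ≤ 4 ^ k := pow_le_pow_right₀ (by norm_num) hj
  nlinarith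

lemma W0_le (k j : ℕ) (hj : j ≤ k) : W0 k j ≤ LL k / 64 := by
  unfold W0 LL
  have := KK_pos k
  have h2 : (4 : ℝ) ^ j ≤ 4 ^ k := pow_le_pow_right₀ (by norm_num) hj
  nlinarith

lemma W1_le (k j : ℕ) : W1 k j ≤ LL k / 64 := by
  unfold W1 LL
  have := KK_pos k
  have h1 : (1 : ℝ) ≤ 4 ^ k := one_le_pow₀ (by norm_num)
  have h2 : (1 : ℝ) ≤ 4 ^ j := one_le_pow₀ (by norm_num)
  have h3 : KK k / 4 ^ j ≤ KK k := div_le_self this.le h2
  nlinarith

lemma LL_ge (k : ℕ) : 2048 * BB k ≤ LL k := by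
  have h1 := W0_le k 0 (Nat.zero_le _)
  have h2 := W0_ge k 0
  linarith

/-- profile towards `j` with mass `μ` -/
noncomputable def x0 (k j : ℕ) (μ : ℝ) : ℝ := μ / 2 / W0 k j
noncomputable def x1 (k j : ℕ) (μ : ℝ) : ℝ := μ / 2 / W1 k j

lemma dot_self (k j : ℕ) (μ : ℝ) : W0 k j * x0 k j μ + W1 k j * x1 k j μ = μ := by
  unfold x0 x1
  rw [mul_div_cancel₀ _ (W0_pos k j).ne', mul_div_cancel₀ _ (W1_pos k j).ne']
  ring

lemma dot_other (k j m : ℕ) (hm : m ≠ j) (μ : ℝ) (hμ : 0 ≤ μ) :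
    17 / 8 * μ ≤ W0 k m * x0 k j μ + W1 k m * x1 k j μ := by
  have hK := KK_pos k
  unfold x0 x1 W0 W1
  have h4j : (0 : ℝ) < 4 ^ j := by positivity
  have h4m : (0 : ℝ) < 4 ^ m := by positivity
  have h1 : KK k * 4 ^ m * (μ / 2 / (KK k * 4 ^ j)) + KK k / 4 ^ m * (μ / 2 / (KK k / 4 ^ j)) =
      μ / 2 * (4 ^ m / 4 ^ j + 4 ^ j / 4 ^ m) := by
    field_simp
  rw [h1]
  have h2 : (17 : ℝ) / 4 ≤ 4 ^ m / 4 ^ j + 4 ^ j / 4 ^ m := by
    have h3 : (4 : ℝ) * 4 ^ m ≤ 4 ^ j ∨ (4 : ℝ) * 4 ^ j ≤ 4 ^ m := by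
      rcases lt_or_gt_of_ne hm with h | h
      · left
        rw [← pow_succ']
        exact pow_le_pow_right₀ (by norm_num) h
      · right
        rw [← pow_succ']
        exact pow_le_pow_right₀ (by norm_num) h
    rw [div_add_div _ _ h4j.ne' h4m.ne', le_div_iff₀ (by positivity)]
    rcases h3 with h3 | h3 <;> nlinarith
  nlinarith

lemma x0_nonneg (k j : ℕ) (μ : ℝ) (hμ : 0 ≤ μ) : 0 ≤ x0 k j μ := by
  unfold x0; have := W0_pos k j; positivity

lemma x1_nonneg (k j : ℕ) (μ : ℝ) (hμ : 0 ≤ μ) : 0 ≤ x1 k j μ := by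
  unfold x1; have := W1_pos k j; positivity

lemma x0_pos (k j : ℕ) (μ : ℝ) (hμ : 0 < μ) : 0 < x0 k j μ := by
  unfold x0; have := W0_pos k j; positivity

lemma x1_pos (k j : ℕ) (μ : ℝ) (hμ : 0 < μ) : 0 < x1 k j μ := by
  unfold x1; have := W1_pos k j; positivity

lemma x0_le (k j : ℕ) (μ : ℝ) (hμ : 0 ≤ μ) (hμ1 : μ ≤ 1) : x0 k j μ ≤ 1 / (16 * BB k) := by
  unfold x0
  have h1 := W0_ge k j
  have h2 := BB_ge k
  rw [div_div, div_le_div_iff₀ (by have := W0_pos k j; positivity) (by positivity)]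
  nlinarith

lemma x1_le (k j : ℕ) (hj : j ≤ k) (μ : ℝ) (hμ : 0 ≤ μ) (hμ1 : μ ≤ 1) : x1 k j μ ≤ 1 / (16 * BB k) := by
  unfold x1
  have h1 := W1_ge k j hj
  have h2 := BB_ge k
  rw [div_div, div_le_div_iff₀ (by have := W1_pos k j; positivity) (by positivity)]
  nlinarith

/-- the profiles are large compared with `1/Λ` -/
lemma LL_x0 (k j : ℕ) (hj : j ≤ k) (μ : ℝ) (hμ : 0 ≤ μ) : 32 * μ ≤ LL k * x0 k j μ := by
  unfold x0
  have h1 := W0_le k j hj
  have h2 := W0_pos k j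
  rw [← mul_div_assoc, le_div_iff₀ h2]
  nlinarith

lemma LL_x1 (k j : ℕ) (μ : ℝ) (hμ : 0 ≤ μ) : 32 * μ ≤ LL k * x1 k j μ := by
  unfold x1
  have h1 := W1_le k j
  have h2 := W1_pos k j
  rw [← mul_div_assoc, le_div_iff₀ h2]
  nlinarith

lemma h_le (k : ℕ) (c : ℝ) (hc : 0 ≤ c) (hc1 : c ≤ 1) : c / LL k ≤ 1 / (16 * BB k) := by
  have h1 := LL_ge k
  have h2 := BB_ge k
  have h3 := LL_pos k
  rw [div_le_div_iff₀ h3 (by positivity)]
  nlinarith

/-- the tiny profile -/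
lemma dot_tiny (k j : ℕ) (hj : j ≤ k) (c : ℝ) (hc : 0 ≤ c) (hc1 : c ≤ 1) :
    0 ≤ W0 k j * (c / LL k) + W1 k j * (c / LL k) ∧
    W0 k j * (c / LL k) + W1 k j * (c / LL k) ≤ 1 / 32 := by
  have h1 := W0_le k j hj
  have h2 := W1_le k j
  have h3 := LL_pos k
  have h4 := W0_pos k j
  have h5 := W1_pos k j
  constructor
  · positivity
  · rw [← add_mul, ← mul_div_assoc, div_le_iff₀ h3]
    nlinarith

/-! ### the functionals -/

noncomputable def LT (t : ℕ) : ℝ[X] →ₗ[ℝ] ℝ := leval (t : ℝ)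

noncomputable def La (k i : ℕ) : ℝ[X] →ₗ[ℝ] ℝ :=
  LL k • (leval ((3 * i : ℕ) : ℝ) + leval ((3 * i + 1 : ℕ) : ℝ)) - leval (cc k)

noncomputable def Lw (k i j : ℕ) : ℝ[X] →ₗ[ℝ] ℝ :=
  (W0 k j • leval ((3 * i : ℕ) : ℝ) + W1 k j • leval ((3 * i + 1 : ℕ) : ℝ)) +
  (W0 k i • leval ((3 * j : ℕ) : ℝ) + W1 k i • leval ((3 * j + 1 : ℕ) : ℝ)) - leval (cc k)

lemma LT_apply (t : ℕ) (p : ℝ[X]) : LT t p = p.eval (t : ℝ) := rfl

lemma La_apply (k i : ℕ) (p : ℝ[X]) : La k i p =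
    LL k * (p.eval ((3 * i : ℕ) : ℝ) + p.eval ((3 * i + 1 : ℕ) : ℝ)) - p.eval (cc k) := rfl

lemma Lw_apply (k i j : ℕ) (p : ℝ[X]) : Lw k i j p =
    (W0 k j * p.eval ((3 * i : ℕ) : ℝ) + W1 k j * p.eval ((3 * i + 1 : ℕ) : ℝ)) +
    (W0 k i * p.eval ((3 * j : ℕ) : ℝ) + W1 k i * p.eval ((3 * j + 1 : ℕ) : ℝ)) - p.eval (cc k) := rfl

lemma Lw_symm (k i j : ℕ) (p : ℝ[X]) : Lw k i j p = Lw k j i p := by
  rw [Lw_apply, Lw_apply]; ring

theorem exists_cert' (k : ℕ) (S E : Finset ℕ) (hS : ∀ s ∈ S, s < k)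
    (hE : ∀ e ∈ E, e < 3 * (k + 2) ∧ e / 3 ∉ S) (hcard : S.card + E.card ≤ 4)
    (hE2 : E.card ≤ 1) (ξ : ℕ → ℝ)
    (hξ0 : ∀ t, 0 ≤ ξ t) (hξ : ∀ t, ξ t ≤ 1 / (16 * BB k)) :
    ∃ p : ℝ[X], p.natDegree ≤ 8 ∧
      (∀ s ∈ S, LT (3 * s) p = ξ (3 * s) ∧ LT (3 * s + 1) p = ξ (3 * s + 1)) ∧
      (∀ e ∈ E, LT e p = 0) ∧
      (∀ t : ℕ, t / 3 ∉ S → t ∉ E → 0 < LT t p) ∧
      (∀ i ∈ S, La k i p = LL k * (ξ (3 * i) + ξ (3 * i + 1)) - 1) ∧
      (∀ i < k, i ∉ S → 0 < La k i p) ∧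
      (∀ i ∈ S, ∀ j ∈ S, Lw k i j p = (W0 k j * ξ (3 * i) + W1 k j * ξ (3 * i + 1)) +
        (W0 k i * ξ (3 * j) + W1 k i * ξ (3 * j + 1)) - 1) ∧
      (∀ i < k, ∀ j < k, (i ∉ S ∨ j ∉ S) → 0 < Lw k i j p) := by
  obtain ⟨p, hdeg, hc, hpS, hpE, hpt⟩ := exists_cert k S E hS hE hcard ξ hξ0 hξ
  have hB := BB_ge k
  have hnn : ∀ t : ℕ, t % 3 ≠ 2 → 0 ≤ p.eval (t : ℝ) := by
    intro t ht
    by_cases h1 : t / 3 ∈ S
    · obtain ⟨h2, h3⟩ := hpS _ h1
      have h4 : t = 3 * (t / 3) ∨ t = 3 * (t / 3) + 1 := by omega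
      rcases h4 with h4 | h4
      · rw [h4, h2]; exact hξ0 _
      · rw [h4, h3]; exact hξ0 _
    · by_cases h5 : t ∈ E
      · rw [hpE t h5]
      · have h6 := hpt t h1 h5
        have h7 : 0 < 1 / (2 * BB k) := by positivity
        linarith
  have hbig : ∀ i, i ∉ S → 1 / (2 * BB k) ≤ p.eval ((3 * i : ℕ) : ℝ) ∨
      1 / (2 * BB k) ≤ p.eval ((3 * i + 1 : ℕ) : ℝ) := by
    intro i hi
    by_cases h1 : 3 * i ∈ E
    · right
      apply hpt
      · have : (3 * i + 1) / 3 = i := by omega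
        rwa [this]
      · intro h2
        have := Finset.card_le_one.1 hE2 _ h1 _ h2
        omega
    · left
      apply hpt _ _ h1
      have : (3 * i) / 3 = i := by omega
      rwa [this]
  have hn0 : ∀ i, 0 ≤ p.eval ((3 * i : ℕ) : ℝ) := fun i => hnn _ (by omega)
  have hn1 : ∀ i, 0 ≤ p.eval ((3 * i + 1 : ℕ) : ℝ) := fun i => hnn _ (by omega)
  refine ⟨p, hdeg, hpS, hpE, ?_, ?_, ?_, ?_, ?_⟩
  · intro t h1 h2
    have h3 := hpt t h1 h2
    have h7 : 0 < 1 / (2 * BB k) := by positivity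
    rw [LT_apply]; linarith
  · intro i hi
    rw [La_apply, hc, (hpS i hi).1, (hpS i hi).2]
  · intro i _ hi
    rw [La_apply, hc]
    have h1 := LL_ge k
    have h2 := LL_pos k
    have h3 : 1 / (2 * BB k) ≤ p.eval ((3 * i : ℕ) : ℝ) + p.eval ((3 * i + 1 : ℕ) : ℝ) := by
      rcases hbig i hi with h | h
      · linarith [hn1 i]
      · linarith [hn0 i]
    have h4 : LL k * (1 / (2 * BB k)) ≤ LL k * (p.eval ((3 * i : ℕ) : ℝ) + p.eval ((3 * i + 1 : ℕ) : ℝ)) :=
      mul_le_mul_of_nonneg_left h3 h2.le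
    have h5 : 1 < LL k * (1 / (2 * BB k)) := by
      rw [mul_one_div, lt_div_iff₀ (by positivity)]
      linarith
    linarith
  · intro i hi j hj
    rw [Lw_apply, hc, (hpS i hi).1, (hpS i hi).2, (hpS j hj).1, (hpS j hj).2]
  · have key : ∀ i, ∀ j < k, i ∉ S → 1 < W0 k j * p.eval ((3 * i : ℕ) : ℝ) + W1 k j * p.eval ((3 * i + 1 : ℕ) : ℝ) := by
      intro i j hj hi
      have h1 := W0_ge k j
      have h2 := W1_ge k j hj.le
      have h3 := hn0 i
      have h4 := hn1 i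
      have h5 : (32 * BB k) * (1 / (2 * BB k)) = 16 := by field_simp; norm_num
      rcases hbig i hi with h | h
      · have h6 : (32 * BB k) * (1 / (2 * BB k)) ≤ W0 k j * p.eval ((3 * i : ℕ) : ℝ) :=
          mul_le_mul h1 h (by positivity) (W0_pos k j).le
        have h7 := mul_nonneg (W1_pos k j).le h4
        linarith
      · have h6 : (32 * BB k) * (1 / (2 * BB k)) ≤ W1 k j * p.eval ((3 * i + 1 : ℕ) : ℝ) :=
          mul_le_mul h2 h (by positivity) (W1_pos k j).le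
        have h7 := mul_nonneg (W0_pos k j).le h3
        linarith
    have hnn2 : ∀ i j, 0 ≤ W0 k j * p.eval ((3 * i : ℕ) : ℝ) + W1 k j * p.eval ((3 * i + 1 : ℕ) : ℝ) := by
      intro i j
      exact add_nonneg (mul_nonneg (W0_pos k j).le (hn0 i)) (mul_nonneg (W1_pos k j).le (hn1 i))
    intro i hi j hj h
    rw [Lw_apply, hc]
    rcases h with h | h
    · have h1 := key i j hj h
      have h2 := hnn2 j i
      linarith
    · have h1 := key j i hi h
      have h2 := hnn2 i j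
      linarith



/-! ### certificates -/

noncomputable def upd (i : ℕ) (a0 a1 : ℝ) (f : ℕ → ℝ) : ℕ → ℝ :=
  fun t => if t / 3 = i then (if t % 3 = 0 then a0 else a1) else f t

lemma upd_0 (i : ℕ) (a0 a1 : ℝ) (f : ℕ → ℝ) : upd i a0 a1 f (3 * i) = a0 := by
  unfold upd
  rw [if_pos (by omega), if_pos (by omega)]

lemma upd_1 (i : ℕ) (a0 a1 : ℝ) (f : ℕ → ℝ) : upd i a0 a1 f (3 * i + 1) = a1 := by
  unfold upd
  rw [if_pos (by omega), if_neg (by omega)]

lemma upd_ne0 (i j : ℕ) (h : j ≠ i) (a0 a1 : ℝ) (f : ℕ → ℝ) : upd i a0 a1 f (3 * j) = f (3 * j) := by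
  unfold upd
  rw [if_neg (by omega)]

lemma upd_ne1 (i j : ℕ) (h : j ≠ i) (a0 a1 : ℝ) (f : ℕ → ℝ) :
    upd i a0 a1 f (3 * j + 1) = f (3 * j + 1) := by
  unfold upd
  rw [if_neg (by omega)]

lemma upd_nonneg {i : ℕ} {a0 a1 : ℝ} {f : ℕ → ℝ} (h0 : 0 ≤ a0) (h1 : 0 ≤ a1) (hf : ∀ t, 0 ≤ f t) :
    ∀ t, 0 ≤ upd i a0 a1 f t := by
  intro t; unfold upd; split_ifs <;> simp [*]

lemma upd_le {i : ℕ} {a0 a1 b : ℝ} {f : ℕ → ℝ} (h0 : a0 ≤ b) (h1 : a1 ≤ b) (hf : ∀ t, f t ≤ b) :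
    ∀ t, upd i a0 a1 f t ≤ b := by
  intro t; unfold upd; split_ifs <;> simp [*]

lemma zero_le_bound (k : ℕ) : ∀ _ : ℕ, (0 : ℝ) ≤ 1 / (16 * BB k) := by
  intro _; have := BB_ge k; positivity

/-- two curve points -/
lemma cert_TT (k t1 t2 : ℕ) : ∃ p : ℝ[X], p.natDegree ≤ 8 ∧ LT t1 p = 0 ∧ LT t2 p = 0 ∧
    (∀ t : ℕ, t ≠ t1 → t ≠ t2 → 0 < LT t p) ∧ (∀ i, 0 < La k i p) ∧ (∀ i j, 0 < Lw k i j p) := by
  set p : ℝ[X] := (X - C (t1 : ℝ)) ^ 2 * (X - C (t2 : ℝ)) ^ 2 * (Q k + C (1 / 8)) with hp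
  have hev : ∀ t : ℝ, p.eval t = (t - t1) ^ 2 * (t - t2) ^ 2 * ((Q k).eval t + 1 / 8) := by
    intro t; rw [hp]; simp
  have hnn : ∀ t : ℕ, 0 ≤ p.eval (t : ℝ) := by
    intro t
    rw [hev]
    have := Q_nonneg k t
    positivity
  have hc : p.eval (cc k) < 0 := by
    rw [hev, eval_Q]
    have h1 : ∀ n : ℕ, 0 < (cc k - n) ^ 2 := by
      intro n
      have h3 : cc k - n ≠ 0 := by
        intro h4
        unfold cc at h4
        have h5 : (2 * n : ℝ) = 6 * k + 1 := by linarith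
        have h6 : 2 * n = 6 * k + 1 := by exact_mod_cast h5
        omega
      positivity
    have h2 := mul_pos (h1 t1) (h1 t2)
    have h3 : (cc k - 3 * k) * (cc k - (3 * k + 1)) + 1 / 8 = -1 / 8 := by unfold cc; ring
    rw [h3]
    linarith
  refine ⟨p, ?_, ?_, ?_, ?_, ?_, ?_⟩
  · rw [hp]
    refine natDegree_mul_le.trans ?_
    have h1 : ((X - C (t1 : ℝ)) ^ 2 * (X - C (t2 : ℝ)) ^ 2 : ℝ[X]).natDegree ≤ 4 := by
      refine natDegree_mul_le.trans ?_
      have h1 : ∀ z : ℝ, ((X - C z) ^ 2 : ℝ[X]).natDegree ≤ 2 := by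
        intro z
        refine natDegree_pow_le.trans ?_
        have h1 := natDegree_X_sub_C_le z
        omega
      have h2 := h1 t1
      have h3 := h1 t2
      omega
    have h2 : (Q k + C (1 / 8) : ℝ[X]).natDegree ≤ 2 := by
      refine (natDegree_add_le _ _).trans (max_le (natDegree_Q k) ?_)
      rw [natDegree_C]; omega
    omega
  · rw [LT_apply, hev]; simp
  · rw [LT_apply, hev]; simp
  · intro t h1 h2
    rw [LT_apply, hev]
    have h3 := sq_ge_one t t1 h1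
    have h4 := sq_ge_one t t2 h2
    have h5 := Q_nonneg k t
    positivity
  · intro i
    rw [La_apply]
    have h1 := hnn (3 * i)
    have h2 := hnn (3 * i + 1)
    have h3 := LL_pos k
    have h4 := mul_nonneg h3.le (add_nonneg h1 h2)
    linarith
  · intro i j
    rw [Lw_apply]
    have h1 := mul_nonneg (W0_pos k j).le (hnn (3 * i))
    have h2 := mul_nonneg (W1_pos k j).le (hnn (3 * i + 1))
    have h3 := mul_nonneg (W0_pos k i).le (hnn (3 * j))
    have h4 := mul_nonneg (W1_pos k i).le (hnn (3 * j + 1))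
    linarith

/-- two `a` points -/
lemma cert_aa (k i l : ℕ) (hi : i < k) (hl : l < k) (hil : i ≠ l) :
    ∃ p : ℝ[X], p.natDegree ≤ 8 ∧ La k i p = 0 ∧ La k l p = 0 ∧
    (∀ t : ℕ, t % 3 ≠ 2 → 0 < LT t p) ∧ (∀ m < k, m ≠ i → m ≠ l → 0 < La k m p) ∧
    (∀ a < k, ∀ b < k, (a ≠ i ∧ a ≠ l) ∨ (b ≠ i ∧ b ≠ l) → 0 < Lw k a b p) := by
  have hL := LL_pos k
  obtain ⟨p, hdeg, hS, -, hT, haS, ha, -, hw⟩ := exists_cert' k {i, l} ∅
    (by intro s hs; simp only [Finset.mem_insert, Finset.mem_singleton] at hs; omega)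
    (by simp) (by have := Finset.card_le_two (a := i) (b := l); simpa using by omega) (by simp)
    (fun _ => 1 / 2 / LL k) (fun _ => by positivity) (fun _ => h_le k _ (by norm_num) (by norm_num))
  have h1 : LL k * (1 / 2 / LL k + 1 / 2 / LL k) - 1 = 0 := by field_simp; ring
  refine ⟨p, hdeg, ?_, ?_, ?_, ?_, ?_⟩
  · rw [haS i (by simp)]; exact h1
  · rw [haS l (by simp)]; exact h1
  · intro t ht
    by_cases h : t / 3 ∈ ({i, l} : Finset ℕ)
    · obtain ⟨h2, h3⟩ := hS _ h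
      have h4 : t = 3 * (t / 3) ∨ t = 3 * (t / 3) + 1 := by omega
      rcases h4 with h4 | h4
      · rw [h4, h2]; positivity
      · rw [h4, h3]; positivity
    · exact hT t h (by simp)
  · intro m hm h2 h3
    exact ha m hm (by simp [h2, h3])
  · intro a ha' b hb h
    refine hw a ha' b hb ?_
    simp only [Finset.mem_insert, Finset.mem_singleton, not_or]
    exact h

/-- an `a` point and a curve point of its own pair -/
lemma cert_aT_own (k i t1 : ℕ) (hi : i < k) (ht1 : t1 = 3 * i ∨ t1 = 3 * i + 1) :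
    ∃ p : ℝ[X], p.natDegree ≤ 8 ∧ La k i p = 0 ∧ LT t1 p = 0 ∧
    (∀ t : ℕ, t % 3 ≠ 2 → t ≠ t1 → 0 < LT t p) ∧ (∀ m < k, m ≠ i → 0 < La k m p) ∧
    (∀ a < k, ∀ b < k, a ≠ i ∨ b ≠ i → 0 < Lw k a b p) := by
  have hL := LL_pos k
  obtain ⟨p, hdeg, hS, -, hT, haS, ha, -, hw⟩ := exists_cert' k {i} ∅
    (by intro s hs; simp only [Finset.mem_singleton] at hs; omega)
    (by simp) (by simp) (by simp)
    (fun t => if t = t1 then 0 else 1 / LL k)
    (fun t => by split_ifs <;> positivity)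
    (fun t => by split_ifs; exacts [zero_le_bound k 0, h_le k _ (by norm_num) (by norm_num)])
  refine ⟨p, hdeg, ?_, ?_, ?_, ?_, ?_⟩
  · rw [haS i (by simp)]
    rcases ht1 with h | h
    · rw [if_pos h.symm, if_neg (by omega)]; field_simp; ring
    · rw [if_neg (by omega), if_pos h.symm]; field_simp; ring
  · obtain ⟨h2, h3⟩ := hS i (by simp)
    rcases ht1 with h | h
    · rw [h, h2, if_pos h.symm]
    · rw [h, h3, if_pos h.symm]
  · intro t ht htt
    by_cases h : t / 3 ∈ ({i} : Finset ℕ)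
    · obtain ⟨h2, h3⟩ := hS _ h
      have h4 : t = 3 * (t / 3) ∨ t = 3 * (t / 3) + 1 := by omega
      rcases h4 with h4 | h4
      · rw [← h4, if_neg htt] at h2; rw [h2]; positivity
      · rw [← h4, if_neg htt] at h3; rw [h3]; positivity
    · exact hT t h (by simp)
  · intro m hm h2
    exact ha m hm (by simp [h2])
  · intro a ha' b hb h
    refine hw a ha' b hb ?_
    simpa only [Finset.mem_singleton] using h

/-- an `a` point and another curve point -/
lemma cert_aT (k i t1 : ℕ) (hi : i < k) (ht : t1 / 3 ≠ i) (ht1 : t1 < 3 * (k + 2)) :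
    ∃ p : ℝ[X], p.natDegree ≤ 8 ∧ La k i p = 0 ∧ LT t1 p = 0 ∧
    (∀ t : ℕ, t % 3 ≠ 2 → t ≠ t1 → 0 < LT t p) ∧ (∀ m < k, m ≠ i → 0 < La k m p) ∧
    (∀ a < k, ∀ b < k, a ≠ i ∨ b ≠ i → 0 < Lw k a b p) := by
  have hL := LL_pos k
  obtain ⟨p, hdeg, hS, hE, hT, haS, ha, -, hw⟩ := exists_cert' k {i} {t1}
    (by intro s hs; simp only [Finset.mem_singleton] at hs; omega)
    (by intro e he; simp only [Finset.mem_singleton] at he ⊢; subst he; exact ⟨ht1, ht⟩)
    (by simp) (by simp)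
    (fun _ => 1 / 2 / LL k) (fun _ => by positivity) (fun _ => h_le k _ (by norm_num) (by norm_num))
  refine ⟨p, hdeg, ?_, hE t1 (by simp), ?_, ?_, ?_⟩
  · rw [haS i (by simp)]; field_simp; ring
  · intro t ht htt
    by_cases h : t / 3 ∈ ({i} : Finset ℕ)
    · obtain ⟨h2, h3⟩ := hS _ h
      have h4 : t = 3 * (t / 3) ∨ t = 3 * (t / 3) + 1 := by omega
      rcases h4 with h4 | h4
      · rw [h4, h2]; positivity
      · rw [h4, h3]; positivity
    · exact hT t h (by simpa using htt)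
  · intro m hm h2
    exact ha m hm (by simp [h2])
  · intro a ha' b hb h
    refine hw a ha' b hb ?_
    simpa only [Finset.mem_singleton] using h

/-- an `a` point and a killer at its pair -/
lemma cert_aw_own (k i l : ℕ) (hi : i < k) (hl : l < k) (hil : i ≠ l) :
    ∃ p : ℝ[X], p.natDegree ≤ 8 ∧ La k i p = 0 ∧ Lw k i l p = 0 ∧
    (∀ t : ℕ, t % 3 ≠ 2 → 0 < LT t p) ∧ (∀ m < k, m ≠ i → 0 < La k m p) ∧
    (∀ a < k, ∀ b < k, (a ≠ i ∧ a ≠ l) ∨ (b ≠ i ∧ b ≠ l) → 0 < Lw k a b p) := by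
  have hL := LL_pos k
  obtain ⟨hd0, hd1⟩ := dot_tiny k l hl.le (1 / 2) (by norm_num) (by norm_num)
  set h := (1 / 2 : ℝ) / LL k with hh
  have hh0 : 0 < h := by positivity
  set μ := 1 - (W0 k l * h + W1 k l * h) with hμ
  have hμ0 : 31 / 32 ≤ μ := by linarith
  have hμ1 : μ ≤ 1 := by linarith
  obtain ⟨p, hdeg, hS, -, hT, haS, ha, hwS, hw⟩ := exists_cert' k {i, l} ∅
    (by intro s hs; simp only [Finset.mem_insert, Finset.mem_singleton] at hs; omega)
    (by simp) (by have := Finset.card_le_two (a := i) (b := l); simpa using by omega) (by simp)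
    (upd i h h (upd l (x0 k i μ) (x1 k i μ) fun _ => 0))
    (upd_nonneg hh0.le hh0.le (upd_nonneg (x0_nonneg k i μ (by linarith)) (x1_nonneg k i μ (by linarith)) fun _ => le_rfl))
    (upd_le (h_le k _ (by norm_num) (by norm_num)) (h_le k _ (by norm_num) (by norm_num))
      (upd_le (x0_le k i μ (by linarith) hμ1) (x1_le k i hi.le μ (by linarith) hμ1) (zero_le_bound k)))
  have hli := hil.symm
  refine ⟨p, hdeg, ?_, ?_, ?_, ?_, ?_⟩
  · rw [haS i (by simp), upd_0, upd_1, hh]; field_simp; ring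
  · rw [hwS i (by simp) l (by simp), upd_0, upd_1, upd_ne0 i l hli, upd_ne1 i l hli, upd_0, upd_1, dot_self]
    linarith
  · intro t ht
    by_cases h' : t / 3 ∈ ({i, l} : Finset ℕ)
    · obtain ⟨h2, h3⟩ := hS _ h'
      have h4 : t = 3 * (t / 3) ∨ t = 3 * (t / 3) + 1 := by omega
      simp only [Finset.mem_insert, Finset.mem_singleton] at h'
      rcases h' with h' | h'
      · rw [h'] at h2 h3 h4
        rw [upd_0] at h2; rw [upd_1] at h3
        rcases h4 with h4 | h4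
        · rw [h4, h2]; exact hh0
        · rw [h4, h3]; exact hh0
      · rw [h'] at h2 h3 h4
        rw [upd_ne0 i l hli, upd_0] at h2; rw [upd_ne1 i l hli, upd_1] at h3
        rcases h4 with h4 | h4
        · rw [h4, h2]; exact x0_pos k i μ (by linarith)
        · rw [h4, h3]; exact x1_pos k i μ (by linarith)
    · exact hT t h' (by simp)
  · intro m hm h2
    by_cases h3 : m = l
    · subst h3
      rw [haS m (by simp), upd_ne0 i m hli, upd_ne1 i m hli, upd_0, upd_1]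
      have h4 := LL_x0 k i hi.le μ (by linarith)
      have h5 := mul_nonneg hL.le (x1_nonneg k i μ (by linarith))
      nlinarith
    · exact ha m hm (by simp [h2, h3])
  · intro a ha' b hb h
    refine hw a ha' b hb ?_
    simp only [Finset.mem_insert, Finset.mem_singleton, not_or]
    exact h

/-- an `a` point and a killer elsewhere -/
lemma cert_aw (k i j l : ℕ) (hi : i < k) (hj : j < k) (hl : l < k) (hij : i ≠ j) (hil : i ≠ l) (hjl : j ≠ l) :
    ∃ p : ℝ[X], p.natDegree ≤ 8 ∧ La k i p = 0 ∧ Lw k j l p = 0 ∧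
    (∀ t : ℕ, t % 3 ≠ 2 → 0 < LT t p) ∧ (∀ m < k, m ≠ i → 0 < La k m p) ∧
    (∀ a < k, ∀ b < k, a ≠ b → ¬ (a = j ∧ b = l) → ¬ (a = l ∧ b = j) → 0 < Lw k a b p) := by
  have hL := LL_pos k
  set h := (1 / 2 : ℝ) / LL k with hh
  have hh0 : 0 < h := by positivity
  have hji := hij.symm
  have hli := hil.symm
  have hlj := hjl.symm
  obtain ⟨p, hdeg, hS, -, hT, haS, ha, hwS, hw⟩ := exists_cert' k {i, j, l} ∅
    (by intro s hs; simp only [Finset.mem_insert, Finset.mem_singleton] at hs; omega)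
    (by simp) (by have := Finset.card_le_three (a := i) (b := j) (c := l); simpa using by omega) (by simp)
    (upd i h h (upd j (x0 k l (1/2)) (x1 k l (1/2)) (upd l (x0 k j (1/2)) (x1 k j (1/2)) fun _ => 0)))
    (upd_nonneg hh0.le hh0.le (upd_nonneg (x0_nonneg k l _ (by norm_num)) (x1_nonneg k l _ (by norm_num))
      (upd_nonneg (x0_nonneg k j _ (by norm_num)) (x1_nonneg k j _ (by norm_num)) fun _ => le_rfl)))
    (upd_le (h_le k _ (by norm_num) (by norm_num)) (h_le k _ (by norm_num) (by norm_num))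
      (upd_le (x0_le k l _ (by norm_num) (by norm_num)) (x1_le k l hl.le _ (by norm_num) (by norm_num))
      (upd_le (x0_le k j _ (by norm_num) (by norm_num)) (x1_le k j hj.le _ (by norm_num) (by norm_num))
       (zero_le_bound k))))
  have ei0 := upd_0 i h h (upd j (x0 k l (1/2)) (x1 k l (1/2)) (upd l (x0 k j (1/2)) (x1 k j (1/2)) fun _ => 0))
  have ei1 := upd_1 i h h (upd j (x0 k l (1/2)) (x1 k l (1/2)) (upd l (x0 k j (1/2)) (x1 k j (1/2)) fun _ => 0))
  set ξ := upd i h h (upd j (x0 k l (1/2)) (x1 k l (1/2)) (upd l (x0 k j (1/2)) (x1 k j (1/2)) fun _ => 0)) with hξ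
  have ej0 : ξ (3 * j) = x0 k l (1/2) := by rw [hξ, upd_ne0 i j hji, upd_0]
  have ej1 : ξ (3 * j + 1) = x1 k l (1/2) := by rw [hξ, upd_ne1 i j hji, upd_1]
  have el0 : ξ (3 * l) = x0 k j (1/2) := by rw [hξ, upd_ne0 i l hli, upd_ne0 j l hlj, upd_0]
  have el1 : ξ (3 * l + 1) = x1 k j (1/2) := by rw [hξ, upd_ne1 i l hli, upd_ne1 j l hlj, upd_1]
  have hwjl : Lw k j l p = 0 := by
    rw [hwS j (by simp) l (by simp), ej0, ej1, el0, el1, dot_self, dot_self]; norm_num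
  have hwij : 0 < Lw k i j p := by
    rw [hwS i (by simp) j (by simp), ei0, ei1, ej0, ej1]
    have h1 := dot_other k l i hil (1/2) (by norm_num)
    have h2 := (dot_tiny k j hj.le (1/2) (by norm_num) (by norm_num)).1
    rw [← hh] at h2
    linarith
  have hwil : 0 < Lw k i l p := by
    rw [hwS i (by simp) l (by simp), ei0, ei1, el0, el1]
    have h1 := dot_other k j i hij (1/2) (by norm_num)
    have h2 := (dot_tiny k l hl.le (1/2) (by norm_num) (by norm_num)).1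
    rw [← hh] at h2
    linarith
  refine ⟨p, hdeg, ?_, hwjl, ?_, ?_, ?_⟩
  · rw [haS i (by simp), ei0, ei1, hh]; field_simp; ring
  · intro t ht
    by_cases h' : t / 3 ∈ ({i, j, l} : Finset ℕ)
    · obtain ⟨h2, h3⟩ := hS _ h'
      have h4 : t = 3 * (t / 3) ∨ t = 3 * (t / 3) + 1 := by omega
      simp only [Finset.mem_insert, Finset.mem_singleton] at h'
      rcases h' with h' | h' | h'
      · rw [h'] at h2 h3 h4
        rcases h4 with h4 | h4
        · rw [h4, h2, ei0]; exact hh0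
        · rw [h4, h3, ei1]; exact hh0
      · rw [h'] at h2 h3 h4
        rcases h4 with h4 | h4
        · rw [h4, h2, ej0]; exact x0_pos k l _ (by norm_num)
        · rw [h4, h3, ej1]; exact x1_pos k l _ (by norm_num)
      · rw [h'] at h2 h3 h4
        rcases h4 with h4 | h4
        · rw [h4, h2, el0]; exact x0_pos k j _ (by norm_num)
        · rw [h4, h3, el1]; exact x1_pos k j _ (by norm_num)
    · exact hT t h' (by simp)
  · intro m hm h2
    by_cases h3 : m = j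
    · subst h3
      rw [haS m (by simp), ej0, ej1]
      have h4 := LL_x0 k l hl.le (1/2) (by norm_num)
      have h5 := mul_nonneg hL.le (x1_nonneg k l (1/2) (by norm_num))
      nlinarith
    by_cases h4 : m = l
    · subst h4
      rw [haS m (by simp), el0, el1]
      have h4 := LL_x0 k j hj.le (1/2) (by norm_num)
      have h5 := mul_nonneg hL.le (x1_nonneg k j (1/2) (by norm_num))
      nlinarith
    · exact ha m hm (by simp [h2, h3, h4])
  · intro a ha' b hb hab h1 h2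
    by_cases haS' : a ∈ ({i, j, l} : Finset ℕ)
    · by_cases hbS : b ∈ ({i, j, l} : Finset ℕ)
      · simp only [Finset.mem_insert, Finset.mem_singleton] at haS' hbS
        rcases haS' with rfl | rfl | rfl <;> rcases hbS with rfl | rfl | rfl
        · exact absurd rfl hab
        · exact hwij
        · exact hwil
        · rw [Lw_symm]; exact hwij
        · exact absurd rfl hab
        · exact absurd ⟨rfl, rfl⟩ h1
        · rw [Lw_symm]; exact hwil
        · exact absurd ⟨rfl, rfl⟩ h2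
        · exact absurd rfl hab
      · exact hw a ha' b hb (Or.inr hbS)
    · exact hw a ha' b hb (Or.inl haS')



/-- a killer and a curve point of its own -/
lemma cert_Tw_own (k i j t1 : ℕ) (hi : i < k) (hj : j < k) (hij : i ≠ j)
    (ht1 : t1 = 3 * i ∨ t1 = 3 * i + 1) :
    ∃ p : ℝ[X], p.natDegree ≤ 8 ∧ Lw k i j p = 0 ∧ LT t1 p = 0 ∧
    (∀ t : ℕ, t % 3 ≠ 2 → t ≠ t1 → 0 < LT t p) ∧ (∀ m < k, 0 < La k m p) ∧
    (∀ a < k, ∀ b < k, (a ≠ i ∧ a ≠ j) ∨ (b ≠ i ∧ b ≠ j) → 0 < Lw k a b p) := by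
  have hL := LL_pos k
  have hji := hij.symm
  -- values at the pair `i`
  set u0 : ℝ := if t1 = 3 * i then 0 else x0 k j 1 with hu0
  set u1 : ℝ := if t1 = 3 * i then x1 k j 1 else 0 with hu1
  have hx0 := x0_pos k j 1 one_pos
  have hx1 := x1_pos k j 1 one_pos
  have hu0n : 0 ≤ u0 := by rw [hu0]; split_ifs; exacts [le_rfl, hx0.le]
  have hu1n : 0 ≤ u1 := by rw [hu1]; split_ifs; exacts [hx1.le, le_rfl]
  have hu0b : u0 ≤ 1 / (16 * BB k) := by
    rw [hu0]; split_ifs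
    exacts [zero_le_bound k 0, x0_le k j 1 (by norm_num) (by norm_num)]
  have hu1b : u1 ≤ 1 / (16 * BB k) := by
    rw [hu1]; split_ifs
    exacts [x1_le k j hj.le 1 (by norm_num) (by norm_num), zero_le_bound k 0]
  have hdot : W0 k j * u0 + W1 k j * u1 = 1 / 2 := by
    rw [hu0, hu1]
    split_ifs
    · unfold x1
      have := (W1_pos k j).ne'
      field_simp; ring
    · unfold x0
      have := (W0_pos k j).ne'
      field_simp; ring
  obtain ⟨p, hdeg, hS, -, hT, haS, ha, hwS, hw⟩ := exists_cert' k {i, j} ∅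
    (by intro s hs; simp only [Finset.mem_insert, Finset.mem_singleton] at hs; omega)
    (by simp) (by have := Finset.card_le_two (a := i) (b := j); simpa using by omega) (by simp)
    (upd i u0 u1 (upd j (x0 k i (1/2)) (x1 k i (1/2)) fun _ => 0))
    (upd_nonneg hu0n hu1n (upd_nonneg (x0_nonneg k i _ (by norm_num)) (x1_nonneg k i _ (by norm_num)) fun _ => le_rfl))
    (upd_le hu0b hu1b
      (upd_le (x0_le k i _ (by norm_num) (by norm_num)) (x1_le k i hi.le _ (by norm_num) (by norm_num)) (zero_le_bound k)))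
  refine ⟨p, hdeg, ?_, ?_, ?_, ?_, ?_⟩
  · rw [hwS i (by simp) j (by simp), upd_0, upd_1, upd_ne0 i j hji, upd_ne1 i j hji, upd_0, upd_1, dot_self, hdot]
    norm_num
  · obtain ⟨h2, h3⟩ := hS i (by simp)
    rw [upd_0] at h2; rw [upd_1] at h3
    rcases ht1 with h | h
    · rw [h, h2, hu0, if_pos h]
    · rw [h, h3, hu1, if_neg (by omega)]
  · intro t ht htt
    by_cases h' : t / 3 ∈ ({i, j} : Finset ℕ)
    · obtain ⟨h2, h3⟩ := hS _ h'
      have h4 : t = 3 * (t / 3) ∨ t = 3 * (t / 3) + 1 := by omega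
      simp only [Finset.mem_insert, Finset.mem_singleton] at h'
      rcases h' with h' | h'
      · rw [h'] at h2 h3 h4
        rw [upd_0] at h2; rw [upd_1] at h3
        rcases h4 with h4 | h4
        · rw [h4, h2, hu0, if_neg (by omega)]; exact hx0
        · rw [h4, h3, hu1, if_pos (by omega)]; exact hx1
      · rw [h'] at h2 h3 h4
        rw [upd_ne0 i j hji, upd_0] at h2; rw [upd_ne1 i j hji, upd_1] at h3
        rcases h4 with h4 | h4
        · rw [h4, h2]; exact x0_pos k i _ (by norm_num)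
        · rw [h4, h3]; exact x1_pos k i _ (by norm_num)
    · exact hT t h' (by simp)
  · intro m hm
    by_cases h3 : m = j
    · subst h3
      rw [haS m (by simp), upd_ne0 i m hji, upd_ne1 i m hji, upd_0, upd_1]
      have h4 := LL_x0 k i hi.le (1/2) (by norm_num)
      have h5 := mul_nonneg hL.le (x1_nonneg k i (1/2) (by norm_num))
      nlinarith
    by_cases h2 : m = i
    · subst h2
      rw [haS m (by simp), upd_0, upd_1, hu0, hu1]
      have h4 := LL_x0 k j hj.le 1 (by norm_num)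
      have h5 := LL_x1 k j 1 (by norm_num)
      split_ifs <;> nlinarith
    · exact ha m hm (by simp [h2, h3])
  · intro a ha' b hb h
    refine hw a ha' b hb ?_
    simp only [Finset.mem_insert, Finset.mem_singleton, not_or]
    exact h

/-- a killer and a curve point elsewhere -/
lemma cert_Tw (k i j t1 : ℕ) (hi : i < k) (hj : j < k) (hij : i ≠ j)
    (hti : t1 / 3 ≠ i) (htj : t1 / 3 ≠ j) (ht1 : t1 < 3 * (k + 2)) :
    ∃ p : ℝ[X], p.natDegree ≤ 8 ∧ Lw k i j p = 0 ∧ LT t1 p = 0 ∧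
    (∀ t : ℕ, t % 3 ≠ 2 → t ≠ t1 → 0 < LT t p) ∧ (∀ m < k, 0 < La k m p) ∧
    (∀ a < k, ∀ b < k, (a ≠ i ∧ a ≠ j) ∨ (b ≠ i ∧ b ≠ j) → 0 < Lw k a b p) := by
  have hL := LL_pos k
  have hji := hij.symm
  obtain ⟨p, hdeg, hS, hE, hT, haS, ha, hwS, hw⟩ := exists_cert' k {i, j} {t1}
    (by intro s hs; simp only [Finset.mem_insert, Finset.mem_singleton] at hs; omega)
    (by intro e he; simp only [Finset.mem_singleton] at he; subst he
        refine ⟨ht1, ?_⟩
        simp only [Finset.mem_insert, Finset.mem_singleton, not_or]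
        exact ⟨hti, htj⟩)
    (by have := Finset.card_le_two (a := i) (b := j); rw [Finset.card_singleton]; omega) (by simp)
    (upd i (x0 k j (1/2)) (x1 k j (1/2)) (upd j (x0 k i (1/2)) (x1 k i (1/2)) fun _ => 0))
    (upd_nonneg (x0_nonneg k j _ (by norm_num)) (x1_nonneg k j _ (by norm_num))
      (upd_nonneg (x0_nonneg k i _ (by norm_num)) (x1_nonneg k i _ (by norm_num)) fun _ => le_rfl))
    (upd_le (x0_le k j _ (by norm_num) (by norm_num)) (x1_le k j hj.le _ (by norm_num) (by norm_num))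
      (upd_le (x0_le k i _ (by norm_num) (by norm_num)) (x1_le k i hi.le _ (by norm_num) (by norm_num)) (zero_le_bound k)))
  refine ⟨p, hdeg, ?_, hE t1 (by simp), ?_, ?_, ?_⟩
  · rw [hwS i (by simp) j (by simp), upd_0, upd_1, upd_ne0 i j hji, upd_ne1 i j hji, upd_0, upd_1, dot_self, dot_self]
    norm_num
  · intro t ht htt
    by_cases h' : t / 3 ∈ ({i, j} : Finset ℕ)
    · obtain ⟨h2, h3⟩ := hS _ h'
      have h4 : t = 3 * (t / 3) ∨ t = 3 * (t / 3) + 1 := by omega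
      simp only [Finset.mem_insert, Finset.mem_singleton] at h'
      rcases h' with h' | h'
      · rw [h'] at h2 h3 h4
        rw [upd_0] at h2; rw [upd_1] at h3
        rcases h4 with h4 | h4
        · rw [h4, h2]; exact x0_pos k j _ (by norm_num)
        · rw [h4, h3]; exact x1_pos k j _ (by norm_num)
      · rw [h'] at h2 h3 h4
        rw [upd_ne0 i j hji, upd_0] at h2; rw [upd_ne1 i j hji, upd_1] at h3
        rcases h4 with h4 | h4
        · rw [h4, h2]; exact x0_pos k i _ (by norm_num)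
        · rw [h4, h3]; exact x1_pos k i _ (by norm_num)
    · exact hT t h' (by simpa using htt)
  · intro m hm
    by_cases h3 : m = j
    · subst h3
      rw [haS m (by simp), upd_ne0 i m hji, upd_ne1 i m hji, upd_0, upd_1]
      have h4 := LL_x0 k i hi.le (1/2) (by norm_num)
      have h5 := mul_nonneg hL.le (x1_nonneg k i (1/2) (by norm_num))
      nlinarith
    by_cases h2 : m = i
    · subst h2
      rw [haS m (by simp), upd_0, upd_1]
      have h4 := LL_x0 k j hj.le (1/2) (by norm_num)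
      have h5 := mul_nonneg hL.le (x1_nonneg k j (1/2) (by norm_num))
      nlinarith
    · exact ha m hm (by simp [h2, h3])
  · intro a ha' b hb h
    refine hw a ha' b hb ?_
    simp only [Finset.mem_insert, Finset.mem_singleton, not_or]
    exact h

/-- two killers sharing an end -/
lemma cert_ww_share (k i j l : ℕ) (hi : i < k) (hj : j < k) (hl : l < k) (hij : i ≠ j) (hil : i ≠ l) (hjl : j ≠ l) :
    ∃ p : ℝ[X], p.natDegree ≤ 8 ∧ Lw k i j p = 0 ∧ Lw k i l p = 0 ∧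
    (∀ t : ℕ, t % 3 ≠ 2 → 0 < LT t p) ∧ (∀ m < k, 0 < La k m p) ∧
    (∀ a < k, ∀ b < k, a ≠ b → ¬ (a = i ∧ b = j) → ¬ (a = j ∧ b = i) → ¬ (a = i ∧ b = l) →
      ¬ (a = l ∧ b = i) → 0 < Lw k a b p) := by
  have hL := LL_pos k
  have hji := hij.symm
  have hli := hil.symm
  have hlj := hjl.symm
  obtain ⟨hdj0, hdj1⟩ := dot_tiny k j hj.le 1 (by norm_num) (by norm_num)
  obtain ⟨hdl0, hdl1⟩ := dot_tiny k l hl.le 1 (by norm_num) (by norm_num)
  set h := (1 : ℝ) / LL k with hh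
  have hh0 : 0 < h := by positivity
  set μ := 1 - (W0 k j * h + W1 k j * h) with hμ
  set ν := 1 - (W0 k l * h + W1 k l * h) with hν
  have hμ0 : 31 / 32 ≤ μ := by linarith
  have hμ1 : μ ≤ 1 := by linarith
  have hν0 : 31 / 32 ≤ ν := by linarith
  have hν1 : ν ≤ 1 := by linarith
  obtain ⟨p, hdeg, hS, -, hT, haS, ha, hwS, hw⟩ := exists_cert' k {i, j, l} ∅
    (by intro s hs; simp only [Finset.mem_insert, Finset.mem_singleton] at hs; omega)
    (by simp) (by have := Finset.card_le_three (a := i) (b := j) (c := l); simpa using by omega) (by simp)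
    (upd i h h (upd j (x0 k i μ) (x1 k i μ) (upd l (x0 k i ν) (x1 k i ν) fun _ => 0)))
    (upd_nonneg hh0.le hh0.le (upd_nonneg (x0_nonneg k i _ (by linarith)) (x1_nonneg k i _ (by linarith))
      (upd_nonneg (x0_nonneg k i _ (by linarith)) (x1_nonneg k i _ (by linarith)) fun _ => le_rfl)))
    (upd_le (h_le k _ (by norm_num) (by norm_num)) (h_le k _ (by norm_num) (by norm_num))
      (upd_le (x0_le k i _ (by linarith) hμ1) (x1_le k i hi.le _ (by linarith) hμ1)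
      (upd_le (x0_le k i _ (by linarith) hν1) (x1_le k i hi.le _ (by linarith) hν1)
       (zero_le_bound k))))
  have ei0 := upd_0 i h h (upd j (x0 k i μ) (x1 k i μ) (upd l (x0 k i ν) (x1 k i ν) fun _ => 0))
  have ei1 := upd_1 i h h (upd j (x0 k i μ) (x1 k i μ) (upd l (x0 k i ν) (x1 k i ν) fun _ => 0))
  set ξ := upd i h h (upd j (x0 k i μ) (x1 k i μ) (upd l (x0 k i ν) (x1 k i ν) fun _ => 0)) with hξ
  have ej0 : ξ (3 * j) = x0 k i μ := by rw [hξ, upd_ne0 i j hji, upd_0]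
  have ej1 : ξ (3 * j + 1) = x1 k i μ := by rw [hξ, upd_ne1 i j hji, upd_1]
  have el0 : ξ (3 * l) = x0 k i ν := by rw [hξ, upd_ne0 i l hli, upd_ne0 j l hlj, upd_0]
  have el1 : ξ (3 * l + 1) = x1 k i ν := by rw [hξ, upd_ne1 i l hli, upd_ne1 j l hlj, upd_1]
  have hwjl : 0 < Lw k j l p := by
    rw [hwS j (by simp) l (by simp), ej0, ej1, el0, el1]
    have h1 := dot_other k i l hli μ (by linarith)
    have h2 := dot_other k i j hji ν (by linarith)
    linarith
  refine ⟨p, hdeg, ?_, ?_, ?_, ?_, ?_⟩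
  · rw [hwS i (by simp) j (by simp), ei0, ei1, ej0, ej1, dot_self]; linarith
  · rw [hwS i (by simp) l (by simp), ei0, ei1, el0, el1, dot_self]; linarith
  · intro t ht
    by_cases h' : t / 3 ∈ ({i, j, l} : Finset ℕ)
    · obtain ⟨h2, h3⟩ := hS _ h'
      have h4 : t = 3 * (t / 3) ∨ t = 3 * (t / 3) + 1 := by omega
      simp only [Finset.mem_insert, Finset.mem_singleton] at h'
      rcases h' with h' | h' | h'
      · rw [h'] at h2 h3 h4
        rcases h4 with h4 | h4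
        · rw [h4, h2, ei0]; exact hh0
        · rw [h4, h3, ei1]; exact hh0
      · rw [h'] at h2 h3 h4
        rcases h4 with h4 | h4
        · rw [h4, h2, ej0]; exact x0_pos k i _ (by linarith)
        · rw [h4, h3, ej1]; exact x1_pos k i _ (by linarith)
      · rw [h'] at h2 h3 h4
        rcases h4 with h4 | h4
        · rw [h4, h2, el0]; exact x0_pos k i _ (by linarith)
        · rw [h4, h3, el1]; exact x1_pos k i _ (by linarith)
    · exact hT t h' (by simp)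
  · intro m hm
    by_cases h2 : m = i
    · subst h2
      rw [haS m (by simp), ei0, ei1]
      have : LL k * h = 1 := by rw [hh]; field_simp
      linarith
    by_cases h3 : m = j
    · subst h3
      rw [haS m (by simp), ej0, ej1]
      have h4 := LL_x0 k i hi.le μ (by linarith)
      have h5 := mul_nonneg hL.le (x1_nonneg k i μ (by linarith))
      nlinarith
    by_cases h4 : m = l
    · subst h4
      rw [haS m (by simp), el0, el1]
      have h4 := LL_x0 k i hi.le ν (by linarith)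
      have h5 := mul_nonneg hL.le (x1_nonneg k i ν (by linarith))
      nlinarith
    · exact ha m hm (by simp [h2, h3, h4])
  · intro a ha' b hb hab h1 h2 h3 h4
    by_cases haS' : a ∈ ({i, j, l} : Finset ℕ)
    · by_cases hbS : b ∈ ({i, j, l} : Finset ℕ)
      · simp only [Finset.mem_insert, Finset.mem_singleton] at haS' hbS
        rcases haS' with rfl | rfl | rfl <;> rcases hbS with rfl | rfl | rfl
        · exact absurd rfl hab
        · exact absurd ⟨rfl, rfl⟩ h1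
        · exact absurd ⟨rfl, rfl⟩ h3
        · exact absurd ⟨rfl, rfl⟩ h2
        · exact absurd rfl hab
        · exact hwjl
        · exact absurd ⟨rfl, rfl⟩ h4
        · rw [Lw_symm]; exact hwjl
        · exact absurd rfl hab
      · exact hw a ha' b hb (Or.inr hbS)
    · exact hw a ha' b hb (Or.inl haS')

/-- two disjoint killers -/
lemma cert_ww (k i j l n : ℕ) (hi : i < k) (hj : j < k) (hl : l < k) (hn : n < k) (hij : i ≠ j)
    (hil : i ≠ l) (hin : i ≠ n) (hjl : j ≠ l) (hjn : j ≠ n) (hln : l ≠ n) :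
    ∃ p : ℝ[X], p.natDegree ≤ 8 ∧ Lw k i j p = 0 ∧ Lw k l n p = 0 ∧
    (∀ t : ℕ, t % 3 ≠ 2 → 0 < LT t p) ∧ (∀ m < k, 0 < La k m p) ∧
    (∀ a < k, ∀ b < k, a ≠ b → ¬ (a = i ∧ b = j) → ¬ (a = j ∧ b = i) → ¬ (a = l ∧ b = n) →
      ¬ (a = n ∧ b = l) → 0 < Lw k a b p) := by
  have hL := LL_pos k
  have hji := hij.symm
  have hli := hil.symm
  have hlj := hjl.symm
  have hni := hin.symm
  have hnj := hjn.symm
  have hnl := hln.symm
  have hcard4 : ({i, j, l, n} : Finset ℕ).card ≤ 4 := Finset.card_le_four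
  set f1 : ℕ → ℝ := upd n (x0 k l (1/2)) (x1 k l (1/2)) (fun _ => 0) with hf1
  set f2 := upd l (x0 k n (1/2)) (x1 k n (1/2)) f1 with hf2
  set f3 := upd j (x0 k i (1/2)) (x1 k i (1/2)) f2 with hf3
  set ξ := upd i (x0 k j (1/2)) (x1 k j (1/2)) f3 with hξ
  have n1 : ∀ t, 0 ≤ f1 t := upd_nonneg (x0_nonneg k l _ (by norm_num)) (x1_nonneg k l _ (by norm_num)) fun _ => le_rfl
  have n2 : ∀ t, 0 ≤ f2 t := upd_nonneg (x0_nonneg k n _ (by norm_num)) (x1_nonneg k n _ (by norm_num)) n1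
  have n3 : ∀ t, 0 ≤ f3 t := upd_nonneg (x0_nonneg k i _ (by norm_num)) (x1_nonneg k i _ (by norm_num)) n2
  have n4 : ∀ t, 0 ≤ ξ t := upd_nonneg (x0_nonneg k j _ (by norm_num)) (x1_nonneg k j _ (by norm_num)) n3
  have b1 : ∀ t, f1 t ≤ 1 / (16 * BB k) :=
    upd_le (x0_le k l _ (by norm_num) (by norm_num)) (x1_le k l hl.le _ (by norm_num) (by norm_num)) (zero_le_bound k)
  have b2 : ∀ t, f2 t ≤ 1 / (16 * BB k) :=
    upd_le (x0_le k n _ (by norm_num) (by norm_num)) (x1_le k n hn.le _ (by norm_num) (by norm_num)) b1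
  have b3 : ∀ t, f3 t ≤ 1 / (16 * BB k) :=
    upd_le (x0_le k i _ (by norm_num) (by norm_num)) (x1_le k i hi.le _ (by norm_num) (by norm_num)) b2
  have b4 : ∀ t, ξ t ≤ 1 / (16 * BB k) :=
    upd_le (x0_le k j _ (by norm_num) (by norm_num)) (x1_le k j hj.le _ (by norm_num) (by norm_num)) b3
  have ei0 : ξ (3 * i) = x0 k j (1/2) := by rw [hξ, upd_0]
  have ei1 : ξ (3 * i + 1) = x1 k j (1/2) := by rw [hξ, upd_1]
  have ej0 : ξ (3 * j) = x0 k i (1/2) := by rw [hξ, upd_ne0 i j hji, hf3, upd_0]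
  have ej1 : ξ (3 * j + 1) = x1 k i (1/2) := by rw [hξ, upd_ne1 i j hji, hf3, upd_1]
  have el0 : ξ (3 * l) = x0 k n (1/2) := by rw [hξ, upd_ne0 i l hli, hf3, upd_ne0 j l hlj, hf2, upd_0]
  have el1 : ξ (3 * l + 1) = x1 k n (1/2) := by rw [hξ, upd_ne1 i l hli, hf3, upd_ne1 j l hlj, hf2, upd_1]
  have en0 : ξ (3 * n) = x0 k l (1/2) := by
    rw [hξ, upd_ne0 i n hni, hf3, upd_ne0 j n hnj, hf2, upd_ne0 l n hnl, hf1, upd_0]
  have en1 : ξ (3 * n + 1) = x1 k l (1/2) := by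
    rw [hξ, upd_ne1 i n hni, hf3, upd_ne1 j n hnj, hf2, upd_ne1 l n hnl, hf1, upd_1]
  obtain ⟨p, hdeg, hS, -, hT, haS, ha, hwS, hw⟩ := exists_cert' k {i, j, l, n} ∅
    (by intro s hs; simp only [Finset.mem_insert, Finset.mem_singleton] at hs; omega)
    (by simp) (by simpa using hcard4) (by simp) ξ n4 b4
  have hil' : 0 < Lw k i l p := by
    rw [hwS i (by simp) l (by simp), ei0, ei1, el0, el1]
    have h1 := dot_other k j l hlj (1/2) (by norm_num)
    have h2 := dot_other k n i hin (1/2) (by norm_num)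
    linarith
  have hin' : 0 < Lw k i n p := by
    rw [hwS i (by simp) n (by simp), ei0, ei1, en0, en1]
    have h1 := dot_other k j n hnj (1/2) (by norm_num)
    have h2 := dot_other k l i hil (1/2) (by norm_num)
    linarith
  have hjl' : 0 < Lw k j l p := by
    rw [hwS j (by simp) l (by simp), ej0, ej1, el0, el1]
    have h1 := dot_other k i l hli (1/2) (by norm_num)
    have h2 := dot_other k n j hjn (1/2) (by norm_num)
    linarith
  have hjn' : 0 < Lw k j n p := by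
    rw [hwS j (by simp) n (by simp), ej0, ej1, en0, en1]
    have h1 := dot_other k i n hni (1/2) (by norm_num)
    have h2 := dot_other k l j hjl (1/2) (by norm_num)
    linarith
  refine ⟨p, hdeg, ?_, ?_, ?_, ?_, ?_⟩
  · rw [hwS i (by simp) j (by simp), ei0, ei1, ej0, ej1, dot_self, dot_self]; norm_num
  · rw [hwS l (by simp) n (by simp), el0, el1, en0, en1, dot_self, dot_self]; norm_num
  · intro t ht
    by_cases h' : t / 3 ∈ ({i, j, l, n} : Finset ℕ)
    · obtain ⟨h2, h3⟩ := hS _ h'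
      have h4 : t = 3 * (t / 3) ∨ t = 3 * (t / 3) + 1 := by omega
      simp only [Finset.mem_insert, Finset.mem_singleton] at h'
      rcases h' with h' | h' | h' | h'
      · rw [h'] at h2 h3 h4
        rcases h4 with h4 | h4
        · rw [h4, h2, ei0]; exact x0_pos k j _ (by norm_num)
        · rw [h4, h3, ei1]; exact x1_pos k j _ (by norm_num)
      · rw [h'] at h2 h3 h4
        rcases h4 with h4 | h4
        · rw [h4, h2, ej0]; exact x0_pos k i _ (by norm_num)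
        · rw [h4, h3, ej1]; exact x1_pos k i _ (by norm_num)
      · rw [h'] at h2 h3 h4
        rcases h4 with h4 | h4
        · rw [h4, h2, el0]; exact x0_pos k n _ (by norm_num)
        · rw [h4, h3, el1]; exact x1_pos k n _ (by norm_num)
      · rw [h'] at h2 h3 h4
        rcases h4 with h4 | h4
        · rw [h4, h2, en0]; exact x0_pos k l _ (by norm_num)
        · rw [h4, h3, en1]; exact x1_pos k l _ (by norm_num)
    · exact hT t h' (by simp)
  · intro m hm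
    have key : ∀ s ≤ k, ξ (3 * m) = x0 k s (1/2) → ξ (3 * m + 1) = x1 k s (1/2) → m ∈ ({i, j, l, n} : Finset ℕ) →
        0 < La k m p := by
      intro s hs h1 h2 h3
      rw [haS m h3, h1, h2]
      have h4 := LL_x0 k s hs (1/2) (by norm_num)
      have h5 := mul_nonneg hL.le (x1_nonneg k s (1/2) (by norm_num))
      nlinarith
    by_cases h1 : m = i
    · subst h1; exact key j hj.le ei0 ei1 (by simp)
    by_cases h2 : m = j
    · subst h2; exact key i hi.le ej0 ej1 (by simp)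
    by_cases h3 : m = l
    · subst h3; exact key n hn.le el0 el1 (by simp)
    by_cases h4 : m = n
    · subst h4; exact key l hl.le en0 en1 (by simp)
    · exact ha m hm (by simp [h1, h2, h3, h4])
  · intro a ha' b hb hab h1 h2 h3 h4
    by_cases haS' : a ∈ ({i, j, l, n} : Finset ℕ)
    · by_cases hbS : b ∈ ({i, j, l, n} : Finset ℕ)
      · simp only [Finset.mem_insert, Finset.mem_singleton] at haS' hbS
        rcases haS' with rfl | rfl | rfl | rfl <;> rcases hbS with rfl | rfl | rfl | rfl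
        · exact absurd rfl hab
        · exact absurd ⟨rfl, rfl⟩ h1
        · exact hil'
        · exact hin'
        · exact absurd ⟨rfl, rfl⟩ h2
        · exact absurd rfl hab
        · exact hjl'
        · exact hjn'
        · rw [Lw_symm]; exact hil'
        · rw [Lw_symm]; exact hjl'
        · exact absurd rfl hab
        · exact absurd ⟨rfl, rfl⟩ h3
        · rw [Lw_symm]; exact hin'
        · rw [Lw_symm]; exact hjn'
        · exact absurd ⟨rfl, rfl⟩ h4
        · exact absurd rfl hab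
      · exact hw a ha' b hb (Or.inr hbS)
    · exact hw a ha' b hb (Or.inl haS')


/-! ### the configuration attached to a graph -/

section config

variable {k : ℕ}

abbrev TI (k : ℕ) : Type := Fin (k + 2) × Fin 2

def tv (x : TI k) : ℕ := 3 * x.1 + x.2

lemma tv_mod (x : TI k) : tv x % 3 ≠ 2 := by
  have := x.2.2; unfold tv; omega

lemma tv_div (x : TI k) : tv x / 3 = x.1 := by
  have := x.2.2; unfold tv; omega

lemma tv_lt (x : TI k) : tv x < 3 * (k + 2) := by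
  have := x.2.2; have := x.1.2; unfold tv; omega

lemma tv_inj {x y : TI k} (h : tv x = tv y) : x = y := by
  have h1 := x.2.2; have h2 := y.2.2
  unfold tv at h
  refine Prod.ext (Fin.ext ?_) (Fin.ext ?_) <;> omega

lemma tv_own (x : TI k) (i : ℕ) (h : (x.1 : ℕ) = i) : tv x = 3 * i ∨ tv x = 3 * i + 1 := by
  have h1 := x.2.2
  unfold tv; omega

variable (G : SimpleGraph (Fin k))

abbrev NE : Type := {e : Fin k × Fin k // e.1 < e.2 ∧ ¬ G.Adj e.1 e.2}

abbrev Idx : Type := Fin k ⊕ (TI k ⊕ NE G)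

noncomputable def FF : Idx G → (ℝ[X] →ₗ[ℝ] ℝ)
  | .inl i => La k i
  | .inr (.inl x) => LT (tv x)
  | .inr (.inr e) => Lw k e.1.1 e.1.2

/-- there is a certificate for the pair `u, v` -/
def Crt (u v : Idx G) : Prop :=
  ∃ p : ℝ[X], p.natDegree ≤ 8 ∧ FF G u p = 0 ∧ FF G v p = 0 ∧ ∀ x, x ≠ u → x ≠ v → 0 < FF G x p

variable {G}

lemma Crt.symm {u v : Idx G} (h : Crt G u v) : Crt G v u := by
  obtain ⟨p, h1, h2, h3, h4⟩ := h
  exact ⟨p, h1, h3, h2, fun x hx hy => h4 x hy hx⟩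

lemma FF_one_pos (x : Idx G) : 0 < FF G x 1 := by
  have hB := BB_ge k
  have hLL := LL_ge k
  rcases x with i | x | e
  · show 0 < La k i 1
    rw [La_apply]; simp only [eval_one]; linarith
  · show 0 < LT (tv x) 1
    rw [LT_apply]; simp
  · show 0 < Lw k e.1.1 e.1.2 1
    rw [Lw_apply]; simp only [eval_one]
    have h1 := W0_ge k e.1.1
    have h2 := W0_ge k e.1.2
    have h3 := W1_pos k e.1.1
    have h4 := W1_pos k e.1.2
    linarith

lemma NE.ne (e : NE G) : (e.1.1 : ℕ) ≠ e.1.2 := by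
  have := e.2.1
  exact (Fin.lt_def.1 this).ne

lemma crt_aa (i j : Fin k) (h : G.Adj i j) : Crt G (.inl i) (.inl j) := by
  obtain ⟨p, hdeg, h1, h2, h3, h4, h5⟩ := cert_aa k i j i.2 j.2 (fun e => h.ne (Fin.ext e))
  refine ⟨p, hdeg, h1, h2, ?_⟩
  rintro (m | x | e) hu hv
  · refine h4 m m.2 (fun e => hu ?_) (fun e => hv ?_)
    · rw [Fin.ext e]
    · rw [Fin.ext e]
  · exact h3 _ (tv_mod x)
  · refine h5 _ e.1.1.2 _ e.1.2.2 ?_
    by_contra hcon
    have hlt : (e.1.1 : ℕ) < e.1.2 := e.2.1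
    have hc : ((e.1.1 : ℕ) = i ∧ (e.1.2 : ℕ) = j) ∨ ((e.1.1 : ℕ) = j ∧ (e.1.2 : ℕ) = i) := by
      push Not at hcon
      obtain ⟨hc1, hc2⟩ := hcon
      by_cases ha : (e.1.1 : ℕ) = i
      · by_cases hb : (e.1.2 : ℕ) = i
        · omega
        · exact Or.inl ⟨ha, hc2 hb⟩
      · have ha' := hc1 ha
        by_cases hb : (e.1.2 : ℕ) = i
        · exact Or.inr ⟨ha', hb⟩
        · have := hc2 hb; omega
    rcases hc with ⟨ha, hb⟩ | ⟨ha, hb⟩
    · exact e.2.2 (by rw [Fin.ext ha, Fin.ext hb]; exact h)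
    · exact e.2.2 (by rw [Fin.ext ha, Fin.ext hb]; exact h.symm)

lemma crt_aT (i : Fin k) (x : TI k) : Crt G (.inl i) (.inr (.inl x)) := by
  have key : ∃ p : ℝ[X], p.natDegree ≤ 8 ∧ La k i p = 0 ∧ LT (tv x) p = 0 ∧
    (∀ t : ℕ, t % 3 ≠ 2 → t ≠ tv x → 0 < LT t p) ∧ (∀ m < k, m ≠ i → 0 < La k m p) ∧
    (∀ a < k, ∀ b < k, a ≠ i ∨ b ≠ i → 0 < Lw k a b p) := by
    by_cases h : (x.1 : ℕ) = i
    · exact cert_aT_own k i (tv x) i.2 (tv_own x i h)
    · exact cert_aT k i (tv x) i.2 (by rw [tv_div]; exact h) (tv_lt x)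
  obtain ⟨p, hdeg, h1, h2, h3, h4, h5⟩ := key
  refine ⟨p, hdeg, h1, h2, ?_⟩
  rintro (m | y | e) hu hv
  · refine h4 m m.2 (fun e => hu ?_)
    rw [Fin.ext e]
  · refine h3 _ (tv_mod y) (fun e => hv ?_)
    rw [tv_inj e]
  · refine h5 _ e.1.1.2 _ e.1.2.2 ?_
    have := e.ne
    omega

lemma NE_eq {e f : NE G} (h1 : (e.1.1 : ℕ) = f.1.1) (h2 : (e.1.2 : ℕ) = f.1.2) : e = f :=
  Subtype.ext (Prod.ext (Fin.ext h1) (Fin.ext h2))

/-- positivity at the other `w`-points -/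
lemma w_other {e f : NE G} (h : f ≠ e) :
    ((f.1.1 : ℕ) ≠ e.1.1 ∧ (f.1.1 : ℕ) ≠ e.1.2) ∨ ((f.1.2 : ℕ) ≠ e.1.1 ∧ (f.1.2 : ℕ) ≠ e.1.2) := by
  have h1 : (e.1.1 : ℕ) < e.1.2 := e.2.1
  have h2 : (f.1.1 : ℕ) < f.1.2 := f.2.1
  by_contra hcon
  have hc : (f.1.1 : ℕ) = e.1.1 ∧ (f.1.2 : ℕ) = e.1.2 := by omega
  exact h (NE_eq hc.1 hc.2)

lemma w_ne_pair {e f : NE G} (h : f ≠ e) : ¬ ((f.1.1 : ℕ) = e.1.1 ∧ (f.1.2 : ℕ) = e.1.2) ∧
    ¬ ((f.1.1 : ℕ) = e.1.2 ∧ (f.1.2 : ℕ) = e.1.1) := by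
  have h1 : (e.1.1 : ℕ) < e.1.2 := e.2.1
  have h2 : (f.1.1 : ℕ) < f.1.2 := f.2.1
  constructor
  · rintro ⟨ha, hb⟩
    exact h (NE_eq ha hb)
  · rintro ⟨ha, hb⟩
    omega

lemma crt_aw (i : Fin k) (e : NE G) : Crt G (.inl i) (.inr (.inr e)) := by
  have he := e.ne
  have key : ∃ p : ℝ[X], p.natDegree ≤ 8 ∧ La k i p = 0 ∧ Lw k e.1.1 e.1.2 p = 0 ∧
    (∀ t : ℕ, t % 3 ≠ 2 → 0 < LT t p) ∧ (∀ m < k, m ≠ i → 0 < La k m p) ∧
    (∀ f : NE G, f ≠ e → 0 < Lw k f.1.1 f.1.2 p) := by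
    by_cases h1 : (e.1.1 : ℕ) = i
    · obtain ⟨p, hdeg, h2, h3, h4, h5, h6⟩ := cert_aw_own k i e.1.2 i.2 e.1.2.2 (by omega)
      refine ⟨p, hdeg, h2, by rw [h1]; exact h3, h4, h5, fun f hf => ?_⟩
      have := w_other hf
      exact h6 _ f.1.1.2 _ f.1.2.2 (by omega)
    by_cases h2 : (e.1.2 : ℕ) = i
    · obtain ⟨p, hdeg, h2', h3, h4, h5, h6⟩ := cert_aw_own k i e.1.1 i.2 e.1.1.2 (by omega)
      refine ⟨p, hdeg, h2', by rw [Lw_symm, h2]; exact h3, h4, h5, fun f hf => ?_⟩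
      have := w_other hf
      exact h6 _ f.1.1.2 _ f.1.2.2 (by omega)
    obtain ⟨p, hdeg, h2', h3, h4, h5, h6⟩ := cert_aw k i e.1.1 e.1.2 i.2 e.1.1.2 e.1.2.2
      (Ne.symm h1) (Ne.symm h2) he
    refine ⟨p, hdeg, h2', h3, h4, h5, fun f hf => ?_⟩
    obtain ⟨ha, hb⟩ := w_ne_pair hf
    exact h6 _ f.1.1.2 _ f.1.2.2 f.ne ha hb
  obtain ⟨p, hdeg, h1, h2, h3, h4, h5⟩ := key
  refine ⟨p, hdeg, h1, h2, ?_⟩
  rintro (m | y | f) hu hv
  · refine h4 m m.2 (fun e => hu ?_)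
    rw [Fin.ext e]
  · exact h3 _ (tv_mod y)
  · refine h5 f (fun e => hv ?_)
    rw [e]

lemma crt_TT (x y : TI k) : Crt G (.inr (.inl x)) (.inr (.inl y)) := by
  obtain ⟨p, hdeg, h1, h2, h3, h4, h5⟩ := cert_TT k (tv x) (tv y)
  refine ⟨p, hdeg, h1, h2, ?_⟩
  rintro (m | z | f) hu hv
  · exact h4 m
  · refine h3 _ (fun e => hu ?_) (fun e => hv ?_)
    · rw [tv_inj e]
    · rw [tv_inj e]
  · exact h5 _ _

lemma crt_Tw (x : TI k) (e : NE G) : Crt G (.inr (.inl x)) (.inr (.inr e)) := by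
  have he := e.ne
  have key : ∃ p : ℝ[X], p.natDegree ≤ 8 ∧ Lw k e.1.1 e.1.2 p = 0 ∧ LT (tv x) p = 0 ∧
    (∀ t : ℕ, t % 3 ≠ 2 → t ≠ tv x → 0 < LT t p) ∧ (∀ m < k, 0 < La k m p) ∧
    (∀ f : NE G, f ≠ e → 0 < Lw k f.1.1 f.1.2 p) := by
    by_cases h1 : (x.1 : ℕ) = e.1.1
    · obtain ⟨p, hdeg, h2, h3, h4, h5, h6⟩ := cert_Tw_own k e.1.1 e.1.2 (tv x) e.1.1.2 e.1.2.2 he
        (tv_own x _ h1)
      refine ⟨p, hdeg, h2, h3, h4, h5, fun f hf => ?_⟩
      have := w_other hf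
      exact h6 _ f.1.1.2 _ f.1.2.2 (by omega)
    by_cases h2 : (x.1 : ℕ) = e.1.2
    · obtain ⟨p, hdeg, h2', h3, h4, h5, h6⟩ := cert_Tw_own k e.1.2 e.1.1 (tv x) e.1.2.2 e.1.1.2 he.symm
        (tv_own x _ h2)
      refine ⟨p, hdeg, by rw [Lw_symm]; exact h2', h3, h4, h5, fun f hf => ?_⟩
      have := w_other hf
      exact h6 _ f.1.1.2 _ f.1.2.2 (by omega)
    obtain ⟨p, hdeg, h2', h3, h4, h5, h6⟩ := cert_Tw k e.1.1 e.1.2 (tv x) e.1.1.2 e.1.2.2 he
      (by rw [tv_div]; exact h1) (by rw [tv_div]; exact h2) (tv_lt x)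
    refine ⟨p, hdeg, h2', h3, h4, h5, fun f hf => ?_⟩
    have := w_other hf
    exact h6 _ f.1.1.2 _ f.1.2.2 (by omega)
  obtain ⟨p, hdeg, h1, h2, h3, h4, h5⟩ := key
  refine ⟨p, hdeg, h2, h1, ?_⟩
  rintro (m | y | f) hu hv
  · exact h4 m m.2
  · refine h3 _ (tv_mod y) (fun e => hu ?_)
    rw [tv_inj e]
  · refine h5 f (fun e => hv ?_)
    rw [e]

lemma crt_ww (e f : NE G) (hef : e ≠ f) : Crt G (.inr (.inr e)) (.inr (.inr f)) := by
  have he := e.ne
  have hf := f.ne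
  have he' : (e.1.1 : ℕ) < e.1.2 := e.2.1
  have hf' : (f.1.1 : ℕ) < f.1.2 := f.2.1
  have hne := w_ne_pair hef
  have key : ∃ p : ℝ[X], p.natDegree ≤ 8 ∧ Lw k e.1.1 e.1.2 p = 0 ∧ Lw k f.1.1 f.1.2 p = 0 ∧
    (∀ t : ℕ, t % 3 ≠ 2 → 0 < LT t p) ∧ (∀ m < k, 0 < La k m p) ∧
    (∀ g : NE G, g ≠ e → g ≠ f → 0 < Lw k g.1.1 g.1.2 p) := by
    by_cases h1 : (e.1.1 : ℕ) = f.1.1
    · obtain ⟨p, hdeg, h2, h3, h4, h5, h6⟩ := cert_ww_share k e.1.1 e.1.2 f.1.2 e.1.1.2 e.1.2.2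
        f.1.2.2 he (by omega) (by omega)
      refine ⟨p, hdeg, h2, by rw [← h1]; exact h3, h4, h5, fun g hg1 hg2 => ?_⟩
      have ha := w_ne_pair hg1
      have hb := w_ne_pair hg2
      exact h6 _ g.1.1.2 _ g.1.2.2 g.ne (by omega) (by omega) (by omega) (by omega)
    by_cases h2 : (e.1.1 : ℕ) = f.1.2
    · obtain ⟨p, hdeg, h2', h3, h4, h5, h6⟩ := cert_ww_share k e.1.1 e.1.2 f.1.1 e.1.1.2 e.1.2.2
        f.1.1.2 he (by omega) (by omega)
      refine ⟨p, hdeg, h2', by rw [Lw_symm, ← h2]; exact h3, h4, h5, fun g hg1 hg2 => ?_⟩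
      have ha := w_ne_pair hg1
      have hb := w_ne_pair hg2
      exact h6 _ g.1.1.2 _ g.1.2.2 g.ne (by omega) (by omega) (by omega) (by omega)
    by_cases h3 : (e.1.2 : ℕ) = f.1.1
    · obtain ⟨p, hdeg, h2', h3', h4, h5, h6⟩ := cert_ww_share k e.1.2 e.1.1 f.1.2 e.1.2.2 e.1.1.2
        f.1.2.2 he.symm (by omega) (by omega)
      refine ⟨p, hdeg, by rw [Lw_symm]; exact h2', by rw [← h3]; exact h3', h4, h5, fun g hg1 hg2 => ?_⟩
      have ha := w_ne_pair hg1
      have hb := w_ne_pair hg2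
      exact h6 _ g.1.1.2 _ g.1.2.2 g.ne (by omega) (by omega) (by omega) (by omega)
    by_cases h4 : (e.1.2 : ℕ) = f.1.2
    · obtain ⟨p, hdeg, h2', h3', h4', h5, h6⟩ := cert_ww_share k e.1.2 e.1.1 f.1.1 e.1.2.2 e.1.1.2
        f.1.1.2 he.symm (by omega) (by omega)
      refine ⟨p, hdeg, by rw [Lw_symm]; exact h2', by rw [Lw_symm, ← h4]; exact h3', h4', h5,
        fun g hg1 hg2 => ?_⟩
      have ha := w_ne_pair hg1
      have hb := w_ne_pair hg2
      exact h6 _ g.1.1.2 _ g.1.2.2 g.ne (by omega) (by omega) (by omega) (by omega)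
    obtain ⟨p, hdeg, h2', h3', h4', h5, h6⟩ := cert_ww k e.1.1 e.1.2 f.1.1 f.1.2 e.1.1.2 e.1.2.2
      f.1.1.2 f.1.2.2 he h1 h2 h3 h4 hf
    refine ⟨p, hdeg, h2', h3', h4', h5, fun g hg1 hg2 => ?_⟩
    have ha := w_ne_pair hg1
    have hb := w_ne_pair hg2
    exact h6 _ g.1.1.2 _ g.1.2.2 g.ne (by omega) (by omega) (by omega) (by omega)
  obtain ⟨p, hdeg, h1, h2, h3, h4, h5⟩ := key
  refine ⟨p, hdeg, h1, h2, ?_⟩
  rintro (m | y | g) hu hv
  · exact h4 m m.2
  · exact h3 _ (tv_mod y)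
  · refine h5 g (fun e => hu ?_) (fun e => hv ?_)
    · rw [e]
    · rw [e]

/-- adjacency in the join, on the index type -/
def AdjI (G : SimpleGraph (Fin k)) : Idx G → Idx G → Prop
  | .inl i, .inl j => G.Adj i j
  | .inl _, .inr _ => True
  | .inr _, .inl _ => True
  | .inr x, .inr y => x ≠ y

lemma crt_all (u v : Idx G) (h : AdjI G u v) : Crt G u v := by
  rcases u with i | x | e <;> rcases v with j | y | f
  · exact crt_aa i j h
  · exact crt_aT i y
  · exact crt_aw i f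
  · exact (crt_aT j x).symm
  · exact crt_TT x y
  · exact crt_Tw x f
  · exact (crt_aw j e).symm
  · exact (crt_Tw y e).symm
  · exact crt_ww e f (fun he => h (by rw [he]))

/-- every point is a vertex -/
lemma crt_vertex (v : Idx G) : ∃ p : ℝ[X], p.natDegree ≤ 8 ∧ FF G v p = 0 ∧
    ∀ x, x ≠ v → 0 < FF G x p := by
  -- two further T-points
  obtain ⟨a, b, hab, hva, hvb⟩ : ∃ a b : TI k, a ≠ b ∧ v ≠ .inr (.inl a) ∧ v ≠ .inr (.inl b) := by
    let t0 : TI k := (⟨0, by omega⟩, 0)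
    let t1 : TI k := (⟨0, by omega⟩, 1)
    let t2 : TI k := (⟨1, by omega⟩, 0)
    have h01 : t0 ≠ t1 := by simp [t0, t1]
    have h02 : t0 ≠ t2 := by simp [t0, t2]
    have h12 : t1 ≠ t2 := by simp [t1, t2]
    by_cases h0 : v = .inr (.inl t0)
    · refine ⟨t1, t2, h12, ?_, ?_⟩
      · rw [h0]; intro h; exact h01 (Sum.inl_injective (Sum.inr_injective h))
      · rw [h0]; intro h; exact h02 (Sum.inl_injective (Sum.inr_injective h))
    by_cases h1 : v = .inr (.inl t1)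
    · refine ⟨t0, t2, h02, h0, ?_⟩
      rw [h1]; intro h; exact h12 (Sum.inl_injective (Sum.inr_injective h))
    exact ⟨t0, t1, h01, h0, h1⟩
  have hadj : ∀ y : TI k, v ≠ .inr (.inl y) → AdjI G v (.inr (.inl y)) := by
    intro y hy
    rcases v with i | x
    · trivial
    · exact fun h => hy (by rw [h])
  obtain ⟨p, hp, hp1, hp2, hp3⟩ := crt_all v (.inr (.inl a)) (hadj a hva)
  obtain ⟨q, hq, hq1, hq2, hq3⟩ := crt_all v (.inr (.inl b)) (hadj b hvb)
  refine ⟨p + q, (natDegree_add_le _ _).trans (max_le hp hq), ?_, ?_⟩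
  · rw [map_add, hp1, hq1, add_zero]
  · intro x hx
    rw [map_add]
    by_cases hxa : x = .inr (.inl a)
    · rw [hxa, hp2, zero_add]
      refine hq3 _ (Ne.symm hva) ?_
      intro h; exact hab (Sum.inl_injective (Sum.inr_injective h))
    · by_cases hxb : x = .inr (.inl b)
      · rw [hxb, hq2, add_zero]
        refine hp3 _ (Ne.symm hvb) ?_
        intro h; exact hab (Sum.inl_injective (Sum.inr_injective h)).symm
      · exact add_pos (hp3 x hx hxa) (hq3 x hx hxb)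

lemma pt_FF_inj : Function.Injective fun x => pt (FF G x) := by
  intro u v huv
  by_contra hne
  obtain ⟨p, hp, h1, h2⟩ := crt_vertex u
  have h3 := (ev_zero_iff (FF G) FF_one_pos u p hp).2 h1
  have h4 := (ev_pos_iff (FF G) FF_one_pos v p hp).2 (h2 v (Ne.symm hne))
  simp only at huv
  rw [huv] at h3
  linarith

lemma kill (i j : Fin k) (hij : i < j) (h : ¬ G.Adj i j) :
    ¬ IsExposed ℝ (convexHull ℝ (Set.range fun x => pt (FF G x)))
      (segment ℝ (pt (FF G (.inl i))) (pt (FF G (.inl j)))) := by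
  let e : NE G := ⟨(i, j), hij, h⟩
  refine not_exposed (FF G) FF_one_pos (.inl i) (.inl j) (.inr (.inr e)) ?_ ?_
  · obtain ⟨p, hp, h1, h2⟩ := crt_vertex (G := G) (.inr (.inr e))
    rw [← convexHull_pair]
    refine not_mem_hull (FF G) FF_one_pos (.inr (.inr e)) p hp h1 h2 _ ?_
    intro s hs
    rcases hs with hs | hs
    · exact ⟨.inl i, by simp, hs⟩
    · exact ⟨.inl j, by simp, hs⟩
  · intro p hp h1 h2
    have h3 : 0 ≤ Lw k i j p := hp (.inr (.inr e))
    have h4 : La k i p = 0 := h1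
    have h5 : La k j p = 0 := h2
    show Lw k i j p = 0
    have hT : ∀ (s : Fin k) (b : Fin 2), 0 ≤ p.eval ((3 * (s : ℕ) + (b : ℕ) : ℕ) : ℝ) := by
      intro s b
      exact hp (.inr (.inl (⟨s, by omega⟩, b)))
    have hi0 := hT i 0
    have hi1 := hT i 1
    have hj0 := hT j 0
    have hj1 := hT j 1
    simp only [Fin.val_zero, Fin.val_one, add_zero] at hi0 hi1 hj0 hj1
    have hLL := LL_pos k
    have a1 := W0_le k i i.2.le
    have a2 := W0_le k j j.2.le
    have a3 := W1_le k i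
    have a4 := W1_le k j
    rw [La_apply] at h4 h5
    rw [Lw_apply] at h3 ⊢
    set P0 := p.eval ((3 * (i : ℕ) : ℕ) : ℝ)
    set P1 := p.eval ((3 * (i : ℕ) + 1 : ℕ) : ℝ)
    set R0 := p.eval ((3 * (j : ℕ) : ℕ) : ℝ)
    set R1 := p.eval ((3 * (j : ℕ) + 1 : ℕ) : ℝ)
    have b1 : 0 ≤ (LL k - 2 * W0 k j) * P0 := mul_nonneg (by linarith) hi0
    have b2 : 0 ≤ (LL k - 2 * W1 k j) * P1 := mul_nonneg (by linarith) hi1
    have b3 : 0 ≤ (LL k - 2 * W0 k i) * R0 := mul_nonneg (by linarith) hj0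
    have b4 : 0 ≤ (LL k - 2 * W1 k i) * R1 := mul_nonneg (by linarith) hj1
    nlinarith

lemma adj_iff (u v : Idx G) : AdjI G u v ↔ (pt (FF G u) ≠ pt (FF G v) ∧
    IsExposed ℝ (convexHull ℝ (Set.range fun x => pt (FF G x)))
      (segment ℝ (pt (FF G u)) (pt (FF G v)))) := by
  constructor
  · intro h
    refine ⟨fun h1 => ?_, ?_⟩
    · have h2 := pt_FF_inj h1
      subst h2
      rcases u with i | x
      · exact G.loopless.irrefl i h
      · exact h rfl
    · obtain ⟨p, h1, h2, h3, h4⟩ := crt_all u v h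
      exact exposed_of_cert (FF G) FF_one_pos u v p h1 h2 h3 h4
  · rintro ⟨h1, h2⟩
    have h3 : u ≠ v := fun h => h1 (by rw [h])
    rcases u with i | x <;> rcases v with j | y
    · show G.Adj i j
      by_contra hcon
      rcases lt_trichotomy i j with hlt | heq | hgt
      · exact kill i j hlt hcon h2
      · exact h3 (by rw [heq])
      · exact kill j i hgt (fun h => hcon h.symm) (by rw [segment_symm]; exact h2)
    · trivial
    · trivial
    · exact fun h => h3 (by rw [h])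

variable (G)

noncomputable def VV : Finset (E 8) := by
  classical
  exact (Finset.univ : Finset (Idx G)).image fun x => pt (FF G x)

lemma coe_VV : (VV G : Set (E 8)) = Set.range fun x => pt (FF G x) := by
  simp [VV]

noncomputable def eqv : Idx G ≃ VV G :=
  Equiv.ofBijective (fun x => ⟨pt (FF G x), by
    have : pt (FF G x) ∈ (VV G : Set (E 8)) := by rw [coe_VV]; exact ⟨x, rfl⟩
    exact this⟩)
    ⟨fun x y h => pt_FF_inj (Subtype.ext_iff.1 h), fun y => by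
      have : (y : E 8) ∈ (VV G : Set (E 8)) := y.2
      rw [coe_VV] at this
      obtain ⟨x, hx⟩ := this
      exact ⟨x, Subtype.ext hx⟩⟩

lemma eqv_coe (x : Idx G) : (eqv G x : E 8) = pt (FF G x) := rfl

theorem main_fin : ∃ n ≥ 1, ∃ V : Finset (E 8), V.Nonempty ∧
    (∀ x ∈ V, x ∉ convexHull ℝ ((V : Set (E 8)) \ {x})) ∧
    ∃ f : (Fin k ⊕ Fin n) ≃ V,
      (∀ i j, (f (.inl i) ≠ f (.inl j) ∧ IsExposed ℝ (convexHull ℝ (V : Set (E 8)))
        (segment ℝ (f (.inl i) : E 8) (f (.inl j) : E 8))) ↔ G.Adj i j) ∧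
      (∀ i y, IsExposed ℝ (convexHull ℝ (V : Set (E 8)))
        (segment ℝ (f (.inl i) : E 8) (f (.inr y) : E 8))) ∧
      (∀ x y, x ≠ y → IsExposed ℝ (convexHull ℝ (V : Set (E 8)))
        (segment ℝ (f (.inr x) : E 8) (f (.inr y) : E 8))) := by
  classical
  let f : (Fin k ⊕ Fin (Fintype.card (TI k ⊕ NE G))) ≃ Idx G :=
    Equiv.sumCongr (Equiv.refl _) (Fintype.equivFin (TI k ⊕ NE G)).symm
  refine ⟨Fintype.card (TI k ⊕ NE G), ?_, VV G, ?_, ?_, f.trans (eqv G), ?_, ?_, ?_⟩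
  · refine Fintype.card_pos_iff.2 ⟨.inl (⟨0, by omega⟩, 0)⟩
  · exact ⟨_, (eqv G (.inr (.inl (⟨0, by omega⟩, 0)))).2⟩
  · intro x hx
    have hx' : x ∈ (VV G : Set (E 8)) := hx
    rw [coe_VV] at hx'
    obtain ⟨v, rfl⟩ := hx'
    obtain ⟨p, hp, h1, h2⟩ := crt_vertex v
    refine not_mem_hull (FF G) FF_one_pos v p hp h1 h2 _ ?_
    rintro s ⟨hs1, hs2⟩
    rw [coe_VV] at hs1
    obtain ⟨y, rfl⟩ := hs1
    refine ⟨y, fun h => hs2 ?_, rfl⟩
    rw [h]; rfl
  · intro i j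
    show (eqv G (.inl i) ≠ eqv G (.inl j) ∧ IsExposed ℝ (convexHull ℝ (VV G : Set (E 8)))
      (segment ℝ (eqv G (.inl i) : E 8) (eqv G (.inl j) : E 8))) ↔ _
    rw [coe_VV, ← Subtype.coe_injective.ne_iff, eqv_coe, eqv_coe, ← adj_iff]
    exact Iff.rfl
  · intro i y
    show IsExposed ℝ (convexHull ℝ (VV G : Set (E 8)))
      (segment ℝ (eqv G (.inl i) : E 8) (eqv G (f (.inr y)) : E 8))
    rw [coe_VV, eqv_coe, eqv_coe]
    exact ((adj_iff _ _).1 (show AdjI G (.inl i) (f (.inr y)) from trivial)).2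
  · intro x y hxy
    show IsExposed ℝ (convexHull ℝ (VV G : Set (E 8)))
      (segment ℝ (eqv G (f (.inr x)) : E 8) (eqv G (f (.inr y)) : E 8))
    rw [coe_VV, eqv_coe, eqv_coe]
    refine ((adj_iff _ _).1 (show AdjI G (f (.inr x)) (f (.inr y)) from ?_)).2
    exact (Equiv.injective _).ne hxy

end config

end Pool.Agent.Helper681.JoinBound
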