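import Pool.Agent.Helper681.Stein3

set_option autoImplicit false

open Filter Topology Set MeasureTheory ComplexConjugate

namespace Pool.Agent.Helper681.NS

open Pool.Agent.Helper681.Stein

/-- the integer lattice -/
def L : Set ℂ := {z | ∃ m k : ℤ, z = (m : ℂ) + (k : ℂ) * Complex.I}

/-- the lattice points `l` with `y + a l ∈ O` -/
def Lam (O : Set ℂ) (y a : ℂ) : Set ℂ := {l | l ∈ L ∧ y + a * l ∈ O}

theorem L_countable : L.Countable := by
  have : L = range (fun p : ℤ × ℤ => (p.1 : ℂ) + (p.2 : ℂ) * Complex.I) := by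
    ext z
    constructor
    · rintro ⟨m, k, h⟩
      exact ⟨(m, k), h.symm⟩
    · rintro ⟨⟨m, k⟩, h⟩
      exact ⟨m, k, h.symm⟩
  rw [this]
  exact countable_range _

theorem L_sub {l b : ℂ} (hl : l ∈ L) (hb : b ∈ L) : l - b ∈ L := by
  obtain ⟨m, k, rfl⟩ := hl
  obtain ⟨m', k', rfl⟩ := hb
  refine ⟨m - m', k - k', ?_⟩
  push_cast
  ring

theorem L_zero : (0 : ℂ) ∈ L := ⟨0, 0, by simp⟩

/-- regular open hull of a set with the property of Baire -/
theorem hull {A : Set ℂ} (hA : BaireMeasurableSet A) : ∃ O : Set ℂ, IsOpen O ∧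
    (∀ x ∉ O, ∀ ε > 0, ∃ y ∈ Metric.ball x ε, y ∉ closure O) ∧
    ∀ᶠ z in residual ℂ, (z ∈ A ↔ z ∈ O) := by
  obtain ⟨U, hU, hAU⟩ := hA.residualEq_isOpen
  set O : Set ℂ := interior (closure U) with hO
  have hOo : IsOpen O := isOpen_interior
  have hUO : U ⊆ O := interior_maximal subset_closure hU
  have hfr : ∀ᶠ z in residual ℂ, z ∉ frontier U := by
    refine residual_of_dense_open isClosed_frontier.isOpen_compl ?_
    change Dense (frontier U)ᶜ
    rw [← interior_eq_empty_iff_dense_compl, ← frontier_compl]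
    exact interior_frontier hU.isClosed_compl
  refine ⟨O, hOo, ?_, ?_⟩
  · intro x hx ε hε
    by_contra hcon
    push Not at hcon
    apply hx
    refine mem_interior.mpr ⟨Metric.ball x ε, ?_, Metric.isOpen_ball, Metric.mem_ball_self hε⟩
    intro y hy
    have h1 : closure O ⊆ closure U :=
      closure_minimal interior_subset isClosed_closure
    exact h1 (hcon y hy)
  · filter_upwards [hAU, hfr] with z hz1 hz2
    have hz1' : (z ∈ A) = (z ∈ U) := hz1
    rw [hz1']
    constructor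
    · intro hz
      exact hUO hz
    · intro hz
      by_contra hzU
      apply hz2
      rw [hU.frontier_eq]
      exact ⟨interior_subset hz, hzU⟩

/-- the data: `O` is a regular open set, the count is `n` for generic translations -/
structure Dat (O : Set ℂ) (n : ℕ) : Prop where
  open' : IsOpen O
  reg : ∀ x ∉ O, ∀ ε > 0, ∃ y ∈ Metric.ball x ε, y ∉ closure O
  gen : ∀ a : ℂ, ‖a‖ = 1 → ∀ᶠ y in residual ℂ, (Lam O y a).encard = n

theorem exists_dat {E : Set ℂ} {n : ℕ} (hE : BaireMeasurableSet E)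
    (h : ∀ a y : ℂ, ‖a‖ = 1 → (Lam E y a).encard = n) : ∃ O, Dat O n := by
  obtain ⟨O, hO, hreg, hres⟩ := hull hE
  refine ⟨O, hO, hreg, ?_⟩
  intro a ha
  have hev : ∀ᶠ y in residual ℂ, ∀ l ∈ L, (y + a * l ∈ E ↔ y + a * l ∈ O) := by
    rw [eventually_countable_ball L_countable]
    intro l _
    exact res_translate hres (a * l)
  filter_upwards [hev] with y hy
  rw [← h a y ha]
  congr 1
  ext l
  constructor
  · rintro ⟨h1, h2⟩
    exact ⟨h1, (hy l h1).2 h2⟩
  · rintro ⟨h1, h2⟩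
    exact ⟨h1, (hy l h1).1 h2⟩

theorem Dat.le {O : Set ℂ} {n : ℕ} (D : Dat O n) (a y : ℂ) (ha : ‖a‖ = 1) :
    (Lam O y a).encard ≤ n := by
  by_contra hcon
  rw [not_le] at hcon
  have h1 : ((n + 1 : ℕ) : ℕ∞) ≤ (Lam O y a).encard := by
    rw [Nat.cast_add, Nat.cast_one]
    exact Order.add_one_le_of_lt hcon
  obtain ⟨F, hF, hFc⟩ := exists_subset_encard_eq h1
  have hFfin : F.Finite := by
    apply finite_of_encard_eq_coe hFc
  have hV : IsOpen (⋂ l ∈ F, (fun z => z + a * l) ⁻¹' O) :=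
    hFfin.isOpen_biInter fun l _ => D.open'.preimage (continuous_add_const _)
  have hVne : (⋂ l ∈ F, (fun z => z + a * l) ⁻¹' O).Nonempty := by
    refine ⟨y, ?_⟩
    rw [mem_iInter₂]
    intro l hl
    exact (hF hl).2
  obtain ⟨z, hz, hzn⟩ := exists_of_res (D.gen a ha) hV hVne
  rw [mem_iInter₂] at hz
  have hsub : F ⊆ Lam O z a := fun l hl => ⟨(hF hl).1, hz l hl⟩
  have h2 := encard_le_encard hsub
  rw [hFc, hzn] at h2
  have : n + 1 ≤ n := by exact_mod_cast h2
  omega

theorem Dat.nonempty {O : Set ℂ} {n : ℕ} (D : Dat O n) (hn : 1 ≤ n) : O.Nonempty := by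
  rw [nonempty_iff_ne_empty]
  intro h
  obtain ⟨z, -, hz⟩ := exists_of_res (D.gen 1 norm_one) isOpen_univ univ_nonempty
  have : Lam O z 1 = ∅ := by
    rw [eq_empty_iff_forall_notMem]
    rintro l ⟨-, hl⟩
    rw [h] at hl
    exact hl
  rw [this, encard_empty] at hz
  have : n = 0 := by exact_mod_cast hz.symm
  omega

end Pool.Agent.Helper681.NS
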