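import Pool.Agent.Helper681.NS1

set_option autoImplicit false

open Filter Topology Set MeasureTheory ComplexConjugate

namespace Pool.Agent.Helper681.NS

open Pool.Agent.Helper681.Stein

theorem norm_e {o : ℕ → ℂ} {e : ℂ} (ho : Tendsto (fun k => ‖o k‖) atTop atTop)
    (he : Tendsto (fun k => o k / (‖o k‖ : ℂ)) atTop (𝓝 e)) : ‖e‖ = 1 := by
  have h3 : Tendsto (fun k => ‖o k / (‖o k‖ : ℂ)‖) atTop (𝓝 ‖e‖) := he.norm
  have h4 : Tendsto (fun k => ‖o k / (‖o k‖ : ℂ)‖) atTop (𝓝 1) := by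
    apply tendsto_const_nhds.congr'
    filter_upwards [ho.eventually_gt_atTop 0] with k hk
    rw [norm_div, Complex.norm_real, norm_norm, div_self hk.ne']
  exact tendsto_nhds_unique h3 h4

theorem dir {o p : ℕ → ℂ} {e p0 : ℂ} (ho : Tendsto (fun k => ‖o k‖) atTop atTop)
    (he : Tendsto (fun k => o k / (‖o k‖ : ℂ)) atTop (𝓝 e)) (hp : Tendsto p atTop (𝓝 p0)) :
    Tendsto (fun k => (o k + p k) / (‖o k + p k‖ : ℂ)) atTop (𝓝 e) := by
  have he1 := norm_e ho he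
  have hs : Tendsto (fun k => ((‖o k‖⁻¹ : ℝ) : ℂ)) atTop (𝓝 ((0 : ℝ) : ℂ)) :=
    (Complex.continuous_ofReal.tendsto 0).comp (tendsto_inv_atTop_zero.comp ho)
  have h1 : Tendsto (fun k => o k / (‖o k‖ : ℂ) + ((‖o k‖⁻¹ : ℝ) : ℂ) * p k) atTop
      (𝓝 (e + ((0 : ℝ) : ℂ) * p0)) := he.add (hs.mul hp)
  rw [Complex.ofReal_zero, zero_mul, add_zero] at h1
  have h2 : Tendsto (fun k => (o k / (‖o k‖ : ℂ) + ((‖o k‖⁻¹ : ℝ) : ℂ) * p k) /
      ((‖o k / (‖o k‖ : ℂ) + ((‖o k‖⁻¹ : ℝ) : ℂ) * p k‖ : ℝ) : ℂ)) atTop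
      (𝓝 (e / ((‖e‖ : ℝ) : ℂ))) := by
    apply h1.div ((Complex.continuous_ofReal.tendsto _).comp h1.norm)
    rw [he1]
    simp
  rw [he1, Complex.ofReal_one, div_one] at h2
  refine h2.congr' ?_
  filter_upwards [ho.eventually_gt_atTop 0] with k hk
  have hkC : ((‖o k‖ : ℝ) : ℂ) ≠ 0 := by exact_mod_cast hk.ne'
  have e1 : o k / (‖o k‖ : ℂ) + ((‖o k‖⁻¹ : ℝ) : ℂ) * p k = ((‖o k‖⁻¹ : ℝ) : ℂ) * (o k + p k) := by
    push_cast
    ring
  rw [e1, norm_mul, Complex.norm_real, norm_inv, norm_norm]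
  push_cast
  rw [mul_div_mul_left _ _ (inv_ne_zero hkC)]

theorem round_L (z : ℂ) : ∃ l ∈ L, ‖z - l‖ ≤ 1 := by
  refine ⟨(round z.re : ℂ) + (round z.im : ℂ) * Complex.I, ⟨round z.re, round z.im, rfl⟩, ?_⟩
  refine (Complex.norm_le_abs_re_add_abs_im _).trans ?_
  have h1 := abs_sub_round z.re
  have h2 := abs_sub_round z.im
  have e1 : (z - ((round z.re : ℂ) + (round z.im : ℂ) * Complex.I)).re = z.re - round z.re := by
    simp
  have e2 : (z - ((round z.re : ℂ) + (round z.im : ℂ) * Complex.I)).im = z.im - round z.im := by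
    simp
  rw [e1, e2]
  linarith

theorem dens (τ ε : ℝ) (hε : 0 < ε) : ∃ m k : ℤ,
    |((m : ℝ) * Real.sqrt 2 + k) / Real.sqrt 3 + τ| < ε := by
  have h3 : 0 < Real.sqrt 3 := Real.sqrt_pos.mpr (by norm_num)
  have hd : Dense (AddSubgroup.closure {Real.sqrt 2, 1} : Set ℝ) := by
    rw [dense_addSubgroupClosure_pair_iff, div_one]
    exact irrational_sqrt_two
  obtain ⟨t, ht1, ht2⟩ := Metric.dense_iff.mp hd (-(Real.sqrt 3 * τ)) (Real.sqrt 3 * ε) (by positivity)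
  rw [Metric.mem_ball, Real.dist_eq] at ht1
  obtain ⟨m, k, hmk⟩ := AddSubgroup.mem_closure_pair.mp ht2
  refine ⟨m, k, ?_⟩
  have e1 : (m : ℝ) * Real.sqrt 2 + k = t := by
    rw [← hmk]
    simp
  rw [e1]
  have e2 : t / Real.sqrt 3 + τ = (t - -(Real.sqrt 3 * τ)) / Real.sqrt 3 := by
    field_simp
    ring
  rw [e2, abs_div, abs_of_pos h3, div_lt_iff₀ h3]
  linarith

/-- the regular open hull is bounded -/
theorem Dat.bounded {O : Set ℂ} {n : ℕ} (D : Dat O n) : Bornology.IsBounded O := by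
  by_contra hub
  have hex : ∀ k : ℕ, ∃ o ∈ O, (k : ℝ) < ‖o‖ := by
    intro k
    by_contra hcon
    push Not at hcon
    apply hub
    refine (Metric.isBounded_closedBall (x := (0 : ℂ)) (r := k)).subset ?_
    intro o ho
    rw [mem_closedBall_zero_iff]
    exact hcon o ho
  choose o ho hok using hex
  have hn0 : Tendsto (fun k => ‖o k‖) atTop atTop :=
    tendsto_atTop_mono (fun k => (hok k).le) tendsto_natCast_atTop_atTop
  have hb : ∀ k, o k / (‖o k‖ : ℂ) ∈ Metric.closedBall (0 : ℂ) 1 := by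
    intro k
    rw [mem_closedBall_zero_iff, norm_div, Complex.norm_real, norm_norm]
    exact div_self_le_one _
  obtain ⟨e, -, φ, hφ, he⟩ := tendsto_subseq_of_bounded Metric.isBounded_closedBall hb
  have he1 : ‖e‖ = 1 := norm_e (hn0.comp hφ.tendsto_atTop) he
  have hee : e * conj e = 1 := by
    rw [Complex.mul_conj, Complex.normSq_eq_norm_sq, he1]
    norm_num
  have h3 : 0 < Real.sqrt 3 := Real.sqrt_pos.mpr (by norm_num)
  set e' : ℂ := ⟨Real.sqrt 2 / Real.sqrt 3, 1 / Real.sqrt 3⟩ with he'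
  have he'1 : ‖e'‖ = 1 := by
    have h1 : Complex.normSq e' = 1 := by
      rw [Complex.normSq_apply, he']
      simp only
      have s2 := Real.mul_self_sqrt (by norm_num : (0 : ℝ) ≤ 2)
      have s3 := Real.mul_self_sqrt (by norm_num : (0 : ℝ) ≤ 3)
      field_simp
      nlinarith
    rw [Complex.normSq_eq_norm_sq] at h1
    have := norm_nonneg e'
    nlinarith
  set a : ℂ := e * conj e' with ha
  have ha1 : ‖a‖ = 1 := by
    rw [ha, norm_mul, he1, RCLike.norm_conj, he'1, one_mul]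
  have haa : a * conj a = 1 := by
    rw [Complex.mul_conj, Complex.normSq_eq_norm_sq, ha1]
    norm_num
  -- lattice points
  have hl : ∀ k, ∃ l ∈ L, ‖conj a * o (φ k) - l‖ ≤ 1 := fun k => round_L _
  choose l hlL hl1 using hl
  set y : ℕ → ℂ := fun k => o (φ k) - a * l k with hy
  have hyb : ∀ k, y k ∈ Metric.closedBall (0 : ℂ) 1 := by
    intro k
    rw [mem_closedBall_zero_iff]
    have e1 : y k = a * (conj a * o (φ k) - l k) := by
      rw [hy]
      simp only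
      linear_combination (-(o (φ k))) * haa
    rw [e1, norm_mul, ha1, one_mul]
    exact hl1 k
  obtain ⟨x, -, ψ, hψ, hx⟩ := tendsto_subseq_of_bounded Metric.isBounded_closedBall hyb
  set o2 : ℕ → ℂ := fun k => o (φ (ψ k)) with ho2
  set l2 : ℕ → ℂ := fun k => l (ψ k) with hl2
  set y2 : ℕ → ℂ := fun k => y (ψ k) with hy2
  have hx2 : Tendsto y2 atTop (𝓝 x) := hx
  have ho2n : Tendsto (fun k => ‖o2 k‖) atTop atTop :=
    (hn0.comp hφ.tendsto_atTop).comp hψ.tendsto_atTop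
  have he2 : Tendsto (fun k => o2 k / (‖o2 k‖ : ℂ)) atTop (𝓝 e) := he.comp hψ.tendsto_atTop
  have hol : ∀ k, a * l2 k = o2 k - y2 k := by
    intro k
    rw [hy2, hy, ho2, hl2]
    ring
  -- base point
  obtain ⟨v0, -, hv0⟩ := exists_of_res (D.gen a ha1) isOpen_univ univ_nonempty
  have hF0 : (Lam O v0 a).Finite := finite_of_encard_eq_coe hv0
  have hWo : IsOpen (⋂ l ∈ Lam O v0 a, (fun p : ℂ × ℂ => p.1 + p.2 * l) ⁻¹' O) :=
    hF0.isOpen_biInter fun l _ => D.open'.preimage (by fun_prop)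
  have hWm : (v0, a) ∈ ⋂ l ∈ Lam O v0 a, (fun p : ℂ × ℂ => p.1 + p.2 * l) ⁻¹' O := by
    rw [mem_iInter₂]
    intro l hl
    exact hl.2
  obtain ⟨ε, hε, hball⟩ := Metric.isOpen_iff.mp hWo _ hWm
  obtain ⟨m, k0, hmk⟩ := dens (((x - v0) * conj e).re) ε hε
  set b : ℂ := (m : ℂ) + (k0 : ℂ) * Complex.I with hb'
  have hbL : b ∈ L := ⟨m, k0, rfl⟩
  have hbre : ((x + a * b - v0) * conj e).re =
      ((m : ℝ) * Real.sqrt 2 + k0) / Real.sqrt 3 + ((x - v0) * conj e).re := by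
    have e1 : (x + a * b - v0) * conj e = (x - v0) * conj e + b * conj e' := by
      rw [ha]
      linear_combination (conj e' * b) * hee
    rw [e1, Complex.add_re]
    have e2 : (b * conj e').re = ((m : ℝ) * Real.sqrt 2 + k0) / Real.sqrt 3 := by
      rw [hb', he']
      simp
      ring
    rw [e2]
    ring
  -- limits
  set p2 : ℕ → ℂ := fun k => -(y2 k) - a * b with hp2
  have hp2l : Tendsto p2 atTop (𝓝 (-x - a * b)) := hx2.neg.sub_const _
  have hlb : ∀ k, a * (l2 k - b) = o2 k + p2 k := by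
    intro k
    rw [mul_sub, hol k, hp2]
    ring
  have hlbn : ∀ k, ‖l2 k - b‖ = ‖o2 k + p2 k‖ := by
    intro k
    rw [← hlb k, norm_mul, ha1, one_mul]
  have M1 := lim_norm o2 (fun _ => -v0) e (-v0) ho2n he2 tendsto_const_nhds
  have M2 := lim_norm o2 p2 e (-x - a * b) ho2n he2 hp2l
  have M3 : Tendsto (fun k => ‖o2 k - v0‖ - ‖l2 k - b‖) atTop
      (𝓝 ((x + a * b - v0) * conj e).re) := by
    have := M1.sub M2
    have e1 : (-v0 * conj e).re - ((-x - a * b) * conj e).re = ((x + a * b - v0) * conj e).re := by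
      rw [← Complex.sub_re]
      congr 1
      ring
    rw [e1] at this
    refine this.congr fun k => ?_
    rw [hlbn k, ← sub_eq_add_neg]
    ring
  have E1 : ∀ᶠ k in atTop, |‖o2 k - v0‖ - ‖l2 k - b‖| < ε := by
    have h5 := M3.abs
    rw [hbre] at h5
    exact h5.eventually (gt_mem_nhds hmk)
  have hN1 : Tendsto (fun k => ‖o2 k - v0‖) atTop atTop := by
    refine tendsto_atTop_mono (f := fun k => ‖o2 k‖ - ‖v0‖) (fun k => norm_sub_norm_le _ _) ?_
    exact tendsto_atTop_add_const_right _ _ ho2n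
  have hN2 : Tendsto (fun k => ‖l2 k - b‖) atTop atTop := by
    refine tendsto_atTop_mono' _ (f₁ := fun k => ‖o2 k - v0‖ - ε) ?_
      (tendsto_atTop_add_const_right _ _ hN1)
    filter_upwards [E1] with k hk
    have := (abs_lt.mp hk).2
    linarith
  have A1 : Tendsto (fun k => (o2 k + -v0) / (‖o2 k + -v0‖ : ℂ)) atTop (𝓝 e) :=
    dir ho2n he2 (tendsto_const_nhds (x := -v0))
  have A2 := dir ho2n he2 hp2l
  have he0 : e ≠ 0 := by
    intro h
    rw [h, norm_zero] at he1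
    exact zero_ne_one he1
  have A3 : Tendsto (fun k => a * ((o2 k + -v0) / (‖o2 k + -v0‖ : ℂ)) /
      ((o2 k + p2 k) / (‖o2 k + p2 k‖ : ℂ))) atTop (𝓝 (a * e / e)) :=
    (A1.const_mul a).div A2 he0
  rw [mul_div_assoc, div_self he0, mul_one] at A3
  have E2 : ∀ᶠ k in atTop, dist (a * ((o2 k + -v0) / (‖o2 k + -v0‖ : ℂ)) /
      ((o2 k + p2 k) / (‖o2 k + p2 k‖ : ℂ))) a < ε := A3.eventually (Metric.ball_mem_nhds a hε)
  obtain ⟨R, hR⟩ : ∃ R : ℝ, ∀ l ∈ Lam O v0 a, ‖l‖ ≤ R := by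
    obtain ⟨R, hR⟩ := (hF0.isBounded).exists_norm_le
    exact ⟨R, hR⟩
  obtain ⟨k, hk1, hk2, hk3, hk4, hk5⟩ := (E1.and (E2.and ((hN1.eventually_gt_atTop 0).and
    ((hN2.eventually_gt_atTop 0).and (hN2.eventually_gt_atTop R))))).exists
  set N1 := ‖o2 k - v0‖ with hN1d
  set N2 := ‖l2 k - b‖ with hN2d
  have hN1C : (N1 : ℂ) ≠ 0 := by exact_mod_cast hk3.ne'
  have hN2C : (N2 : ℂ) ≠ 0 := by exact_mod_cast hk4.ne'
  have hlb0 : l2 k - b ≠ 0 := norm_pos_iff.mp hk4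
  set v' : ℂ := o2 k - ((N2 / N1 : ℝ) : ℂ) * (o2 k - v0) with hv'
  set a' : ℂ := ((N2 / N1 : ℝ) : ℂ) * (o2 k - v0) / (l2 k - b) with ha'
  have ha'1 : ‖a'‖ = 1 := by
    rw [ha', norm_div, norm_mul, Complex.norm_real, Real.norm_eq_abs, abs_div, abs_of_pos hk3,
      abs_of_pos hk4, ← hN1d, ← hN2d, div_mul_cancel₀ _ hk3.ne', div_self hk4.ne']
  have hv'd : dist v' v0 < ε := by
    have e1 : v' - v0 = (((N1 - N2) / N1 : ℝ) : ℂ) * (o2 k - v0) := by
      rw [hv']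
      push_cast
      field_simp
      ring
    rw [dist_eq_norm, e1, norm_mul, Complex.norm_real, Real.norm_eq_abs, abs_div, abs_of_pos hk3,
      ← hN1d, div_mul_cancel₀ _ hk3.ne']
    exact hk1
  have ha'd : dist a' a < ε := by
    have e1 : a' = a * ((o2 k + -v0) / (‖o2 k + -v0‖ : ℂ)) /
        ((o2 k + p2 k) / (‖o2 k + p2 k‖ : ℂ)) := by
      rw [← hlbn k, ← hN2d, ← sub_eq_add_neg, ← hN1d, ← hlb k, ha']
      have ha0 : a ≠ 0 := by
        intro h
        rw [h, norm_zero] at ha1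
        exact zero_ne_one ha1
      push_cast
      field_simp
    rw [e1]
    exact hk2
  have hmem : (v', a') ∈ Metric.ball (v0, a) ε := by
    rw [Metric.mem_ball, Prod.dist_eq]
    exact max_lt hv'd ha'd
  have hin := hball hmem
  rw [mem_iInter₂] at hin
  have hnew : l2 k - b ∈ Lam O v' a' := by
    refine ⟨L_sub (hlL _) hbL, ?_⟩
    have e1 : v' + a' * (l2 k - b) = o2 k := by
      rw [ha', div_mul_cancel₀ _ hlb0, hv']
      ring
    rw [e1]
    exact ho _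
  have hnot : l2 k - b ∉ Lam O v0 a := by
    intro h
    have := hR _ h
    linarith
  have hsub : insert (l2 k - b) (Lam O v0 a) ⊆ Lam O v' a' := by
    rintro z (rfl | hz)
    · exact hnew
    · exact ⟨hz.1, hin z hz⟩
  have h6 := encard_le_encard hsub
  rw [encard_insert_of_notMem hnot, hv0] at h6
  have h7 := h6.trans (D.le a' v' ha'1)
  have : n + 1 ≤ n := by exact_mod_cast h7
  omega

end Pool.Agent.Helper681.NS
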