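import Pool.Agent.Helper681.NS2

set_option autoImplicit false

open Filter Topology Set MeasureTheory ComplexConjugate

namespace Pool.Agent.Helper681.NS

open Pool.Agent.Helper681.Stein

theorem L_finite (R : ℝ) : {l : ℂ | l ∈ L ∧ ‖l‖ ≤ R}.Finite := by
  obtain ⟨N, hN⟩ := exists_nat_ge R
  have hf : ((Finset.Icc (-(N : ℤ)) N ×ˢ Finset.Icc (-(N : ℤ)) N : Finset (ℤ × ℤ)) : Set (ℤ × ℤ)).Finite :=
    Finset.finite_toSet _
  refine (hf.image (fun p : ℤ × ℤ => (p.1 : ℂ) + (p.2 : ℂ) * Complex.I)).subset ?_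
  rintro l ⟨⟨m, k, rfl⟩, hl⟩
  have h1 := Complex.abs_re_le_norm ((m : ℂ) + (k : ℂ) * Complex.I)
  have h2 := Complex.abs_im_le_norm ((m : ℂ) + (k : ℂ) * Complex.I)
  have e1 : ((m : ℂ) + (k : ℂ) * Complex.I).re = m := by simp
  have e2 : ((m : ℂ) + (k : ℂ) * Complex.I).im = k := by simp
  rw [e1] at h1
  rw [e2] at h2
  have h3 : |(m : ℝ)| ≤ N := by linarith
  have h4 : |(k : ℝ)| ≤ N := by linarith
  rw [abs_le] at h3 h4
  refine ⟨(m, k), ?_, rfl⟩
  rw [Finset.mem_coe, Finset.mem_product, Finset.mem_Icc, Finset.mem_Icc]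
  refine ⟨⟨?_, ?_⟩, ?_, ?_⟩
  · exact_mod_cast h3.1
  · exact_mod_cast h3.2
  · exact_mod_cast h4.1
  · exact_mod_cast h4.2

/-- every frontier point has another frontier point in each rotated lattice through it -/
theorem Dat.step {O : Set ℂ} {n : ℕ} (D : Dat O n) {x : ℂ} (hx : x ∈ frontier O) (a : ℂ)
    (ha : ‖a‖ = 1) : ∃ l ∈ L, l ≠ 0 ∧ x + a * l ∈ frontier O := by
  by_contra hcon
  push Not at hcon
  obtain ⟨R1, hR1⟩ := D.bounded.exists_norm_le
  have hfrO : frontier O = closure O \ O := D.open'.frontier_eq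
  have hxO : x ∉ O := by rw [hfrO] at hx; exact hx.2
  have hxc : x ∈ closure O := by rw [hfrO] at hx; exact hx.1
  have hev : ∀ᶠ y in 𝓝 x, ∀ l ∈ {l : ℂ | l ∈ L ∧ ‖l‖ ≤ R1 + ‖x‖ + 1},
      l ≠ 0 → (y + a * l ∈ O ↔ x + a * l ∈ O) := by
    rw [eventually_all_finite (L_finite _)]
    rintro l ⟨hl, -⟩
    by_cases hl0 : l = 0
    · exact Eventually.of_forall fun y h => absurd hl0 h
    · have h1 := hcon l hl hl0
      have hc : ContinuousAt (fun y : ℂ => y + a * l) x := by fun_prop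
      by_cases hin : x + a * l ∈ O
      · have := hc.eventually (D.open'.mem_nhds hin)
        filter_upwards [this] with y hy _
        exact ⟨fun _ => hin, fun _ => hy⟩
      · have hnc : x + a * l ∉ closure O := by
          intro h
          exact h1 (by rw [hfrO]; exact ⟨h, hin⟩)
        have := hc.eventually (isClosed_closure.isOpen_compl.mem_nhds hnc)
        filter_upwards [this] with y hy _
        exact ⟨fun h => absurd (subset_closure h) hy, fun h => absurd h hin⟩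
  have hev2 : ∀ᶠ y in 𝓝 x, ∀ l ∈ L, l ≠ 0 → (y + a * l ∈ O ↔ x + a * l ∈ O) := by
    filter_upwards [hev, Metric.ball_mem_nhds x one_pos] with y hy hyb l hl hl0
    by_cases hlR : ‖l‖ ≤ R1 + ‖x‖ + 1
    · exact hy l ⟨hl, hlR⟩ hl0
    · rw [not_le] at hlR
      have hal : ‖a * l‖ = ‖l‖ := by rw [norm_mul, ha, one_mul]
      have hyn : ‖y‖ ≤ ‖x‖ + 1 := by
        rw [Metric.mem_ball, dist_eq_norm] at hyb
        have := norm_le_norm_add_norm_sub' y x
        linarith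
      have key : ∀ z : ℂ, ‖z‖ ≤ ‖x‖ + 1 → z + a * l ∉ O := by
        intro z hz hzO
        have h1 := hR1 _ hzO
        have h2 : ‖a * l‖ ≤ ‖z + a * l‖ + ‖z‖ := by
          have := norm_sub_le (z + a * l) z
          rwa [add_sub_cancel_left] at this
        rw [hal] at h2
        linarith
      exact ⟨fun h => absurd h (key y hyn), fun h => absurd h (key x (by linarith))⟩
  obtain ⟨V, hV1, hVo, hxV⟩ := eventually_nhds_iff.mp hev2
  set S : Set ℂ := {l | l ∈ L ∧ l ≠ 0 ∧ x + a * l ∈ O} with hS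
  -- inside
  have hne1 : (V ∩ O).Nonempty := mem_closure_iff.mp hxc V hVo hxV
  obtain ⟨y1, ⟨hy1V, hy1O⟩, hy1n⟩ := exists_of_res (D.gen a ha) (hVo.inter D.open') hne1
  have e1 : Lam O y1 a = insert 0 S := by
    ext l
    constructor
    · rintro ⟨hl, hlO⟩
      by_cases hl0 : l = 0
      · left; exact hl0
      · right; exact ⟨hl, hl0, (hV1 y1 hy1V l hl hl0).1 hlO⟩
    · rintro (rfl | ⟨hl, hl0, hlO⟩)
      · exact ⟨L_zero, by rwa [mul_zero, add_zero]⟩
      · exact ⟨hl, (hV1 y1 hy1V l hl hl0).2 hlO⟩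
  have h0S : (0 : ℂ) ∉ S := fun h => h.2.1 rfl
  rw [e1, encard_insert_of_notMem h0S] at hy1n
  -- outside
  obtain ⟨ε, hε, hεV⟩ := Metric.isOpen_iff.mp hVo x hxV
  obtain ⟨z, hz, hzc⟩ := D.reg x hxO ε hε
  obtain ⟨y2, ⟨hy2V, hy2O⟩, hy2n⟩ := exists_of_res (D.gen a ha)
    (hVo.inter isClosed_closure.isOpen_compl) ⟨z, hεV hz, hzc⟩
  have e2 : Lam O y2 a = S := by
    ext l
    constructor
    · rintro ⟨hl, hlO⟩
      by_cases hl0 : l = 0
      · rw [hl0, mul_zero, add_zero] at hlO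
        exact absurd (subset_closure hlO) hy2O
      · exact ⟨hl, hl0, (hV1 y2 hy2V l hl hl0).1 hlO⟩
    · rintro ⟨hl, hl0, hlO⟩
      exact ⟨hl, (hV1 y2 hy2V l hl hl0).2 hlO⟩
  rw [e2] at hy2n
  rw [hy2n] at hy1n
  have : n + 1 = n := by exact_mod_cast hy1n
  omega

theorem surj_aux (A B : ℂ) (h : (conj A * B).im ≠ 0) (z : ℂ) :
    ∃ s t : ℝ, (s : ℂ) * (A * Complex.I) + (t : ℂ) * (B * Complex.I) = z := by
  have h' : A.re * B.im - A.im * B.re ≠ 0 := by
    intro h0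
    apply h
    simp only [Complex.mul_im, Complex.conj_re, Complex.conj_im]
    linarith
  set d := A.re * B.im - A.im * B.re with hd
  refine ⟨(z.im * B.im + z.re * B.re) / d, -(z.im * A.im + z.re * A.re) / d, ?_⟩
  apply Complex.ext
  · simp only [Complex.add_re, Complex.mul_re, Complex.mul_im, Complex.ofReal_re,
      Complex.ofReal_im, Complex.I_re, Complex.I_im]
    field_simp
    rw [hd]
    ring
  · simp only [Complex.add_im, Complex.mul_re, Complex.mul_im, Complex.ofReal_re,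
      Complex.ofReal_im, Complex.I_re, Complex.I_im]
    field_simp
    rw [hd]
    ring

theorem exp_deriv : HasDerivAt (fun s : ℝ => Complex.exp ((s : ℂ) * Complex.I)) Complex.I 0 := by
  have h1 : HasDerivAt (fun z : ℂ => Complex.exp (z * Complex.I)) (Complex.exp (((0 : ℝ) : ℂ) * Complex.I) * (1 * Complex.I)) ((0 : ℝ) : ℂ) :=
    ((hasDerivAt_id _).mul_const Complex.I).cexp
  have h2 := h1.comp_ofReal
  convert h2 using 1
  simp

/-- two circles add up to a set with interior -/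
theorem two_circles (x A B : ℂ) (h : (conj A * B).im ≠ 0) :
    map (fun p : ℝ × ℝ => x + A * Complex.exp ((p.1 : ℂ) * Complex.I) +
      B * Complex.exp ((p.2 : ℂ) * Complex.I)) (𝓝 (0, 0)) = 𝓝 (x + A + B) := by
  set f : ℝ × ℝ → ℂ := fun p => x + A * Complex.exp ((p.1 : ℂ) * Complex.I) +
      B * Complex.exp ((p.2 : ℂ) * Complex.I) with hf
  have hc : ContDiffAt ℝ 1 f (0, 0) := by
    have hr : ContDiff ℝ 1 (fun t : ℝ => (t : ℂ)) := Complex.ofRealCLM.contDiff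
    have h1 : ContDiff ℝ 1 (fun p : ℝ × ℝ => Complex.exp ((p.1 : ℂ) * Complex.I)) :=
      ((hr.comp contDiff_fst).mul contDiff_const).cexp
    have h2 : ContDiff ℝ 1 (fun p : ℝ × ℝ => Complex.exp ((p.2 : ℂ) * Complex.I)) :=
      ((hr.comp contDiff_snd).mul contDiff_const).cexp
    exact ((contDiff_const.add (contDiff_const.mul h1)).add (contDiff_const.mul h2)).contDiffAt
  have d1 : HasFDerivAt (fun p : ℝ × ℝ => Complex.exp ((p.1 : ℂ) * Complex.I))
      ((ContinuousLinearMap.smulRight (1 : ℝ →L[ℝ] ℝ) Complex.I).comp (ContinuousLinearMap.fst ℝ ℝ ℝ))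
      (0, 0) := by
    have := exp_deriv.hasFDerivAt
    exact HasFDerivAt.comp (f := fun p : ℝ × ℝ => p.1) ((0 : ℝ), (0 : ℝ)) this hasFDerivAt_fst
  have d2 : HasFDerivAt (fun p : ℝ × ℝ => Complex.exp ((p.2 : ℂ) * Complex.I))
      ((ContinuousLinearMap.smulRight (1 : ℝ →L[ℝ] ℝ) Complex.I).comp (ContinuousLinearMap.snd ℝ ℝ ℝ))
      (0, 0) := by
    have := exp_deriv.hasFDerivAt
    exact HasFDerivAt.comp (f := fun p : ℝ × ℝ => p.2) ((0 : ℝ), (0 : ℝ)) this hasFDerivAt_snd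
  have d3 := ((d1.const_mul A).const_add x).add (d2.const_mul B)
  have d4 := hc.hasStrictFDerivAt' d3 (by norm_num)
  have hsurj : (A • ((ContinuousLinearMap.smulRight (1 : ℝ →L[ℝ] ℝ) Complex.I).comp
      (ContinuousLinearMap.fst ℝ ℝ ℝ)) + B • ((ContinuousLinearMap.smulRight (1 : ℝ →L[ℝ] ℝ)
      Complex.I).comp (ContinuousLinearMap.snd ℝ ℝ ℝ)) : ℝ × ℝ →L[ℝ] ℂ).range = ⊤ := by
    rw [LinearMap.range_eq_top]
    intro z
    obtain ⟨s, t, hst⟩ := surj_aux A B h z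
    refine ⟨(s, t), ?_⟩
    rw [← hst]
    simp
    ring
  have d5 := d4.map_nhds_eq_of_surj hsurj
  have e0 : f (0, 0) = x + A + B := by
    rw [hf]
    simp
  rw [← e0]
  exact d5

theorem Dat.false {O : Set ℂ} {n : ℕ} (D : Dat O n) (hn : 1 ≤ n) : False := by
  have hOne := D.nonempty hn
  have hOuniv : O ≠ univ := by
    intro h
    obtain ⟨R1, hR1⟩ := D.bounded.exists_norm_le
    have h1 := hR1 ((|R1| + 1 : ℝ) : ℂ) (by rw [h]; exact mem_univ _)
    rw [Complex.norm_real, Real.norm_eq_abs] at h1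
    have h2 := le_abs_self R1
    have h3 := le_abs_self (|R1| + 1)
    linarith
  obtain ⟨x0, hx0⟩ : (frontier O).Nonempty := by
    rw [nonempty_iff_ne_empty]
    intro h
    rw [frontier_eq_empty_iff] at h
    rcases h with h | h
    · exact hOne.ne_empty h
    · exact hOuniv h
  have hclosed : ∀ p : {l : ℂ // l ∈ L} × {l : ℂ // l ∈ L}, IsClosed
      {ab : Metric.sphere (0 : ℂ) 1 × Metric.sphere (0 : ℂ) 1 |
        p.1.1 ≠ 0 ∧ p.2.1 ≠ 0 ∧ x0 + (ab.1 : ℂ) * p.1.1 + (ab.2 : ℂ) * p.2.1 ∈ frontier O} := by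
    intro p
    by_cases h1 : p.1.1 ≠ 0 ∧ p.2.1 ≠ 0
    · have e1 : {ab : Metric.sphere (0 : ℂ) 1 × Metric.sphere (0 : ℂ) 1 |
          p.1.1 ≠ 0 ∧ p.2.1 ≠ 0 ∧ x0 + (ab.1 : ℂ) * p.1.1 + (ab.2 : ℂ) * p.2.1 ∈ frontier O} =
          (fun ab : Metric.sphere (0 : ℂ) 1 × Metric.sphere (0 : ℂ) 1 =>
            x0 + (ab.1 : ℂ) * p.1.1 + (ab.2 : ℂ) * p.2.1) ⁻¹' frontier O := by
        ext ab
        constructor
        · rintro ⟨-, -, h⟩
          exact h
        · intro h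
          exact ⟨h1.1, h1.2, h⟩
      rw [e1]
      exact isClosed_frontier.preimage (by fun_prop)
    · have e1 : {ab : Metric.sphere (0 : ℂ) 1 × Metric.sphere (0 : ℂ) 1 |
          p.1.1 ≠ 0 ∧ p.2.1 ≠ 0 ∧ x0 + (ab.1 : ℂ) * p.1.1 + (ab.2 : ℂ) * p.2.1 ∈ frontier O} = ∅ := by
        rw [eq_empty_iff_forall_notMem]
        rintro ab ⟨ha, hb, -⟩
        exact h1 ⟨ha, hb⟩
      rw [e1]
      exact isClosed_empty
  haveI : Countable {l : ℂ // l ∈ L} := L_countable.to_subtype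
  haveI : Nonempty (Metric.sphere (0 : ℂ) 1 × Metric.sphere (0 : ℂ) 1) :=
    ⟨⟨⟨1, by simp⟩, ⟨1, by simp⟩⟩⟩
  have hunion : ⋃ p : {l : ℂ // l ∈ L} × {l : ℂ // l ∈ L},
      {ab : Metric.sphere (0 : ℂ) 1 × Metric.sphere (0 : ℂ) 1 |
        p.1.1 ≠ 0 ∧ p.2.1 ≠ 0 ∧ x0 + (ab.1 : ℂ) * p.1.1 + (ab.2 : ℂ) * p.2.1 ∈ frontier O} = univ := by
    rw [eq_univ_iff_forall]
    rintro ⟨⟨a, ha⟩, ⟨b, hb⟩⟩
    rw [mem_sphere_zero_iff_norm] at ha hb
    obtain ⟨l, hl, hl0, hlf⟩ := D.step hx0 a ha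
    obtain ⟨m, hm, hm0, hmf⟩ := D.step hlf b hb
    rw [mem_iUnion]
    exact ⟨(⟨l, hl⟩, ⟨m, hm⟩), hl0, hm0, hmf⟩
  obtain ⟨⟨⟨l, hl⟩, ⟨m, hm⟩⟩, ⟨⟨⟨a0, ha0⟩, ⟨b0, hb0⟩⟩, hint⟩⟩ :=
    nonempty_interior_of_iUnion_of_closed hclosed hunion
  obtain ⟨ε, hε, hball⟩ := Metric.isOpen_iff.mp isOpen_interior _ hint
  rw [mem_sphere_zero_iff_norm] at ha0 hb0
  have hin : ∀ a b : ℂ, ‖a‖ = 1 → ‖b‖ = 1 → ‖a - a0‖ < ε → ‖b - b0‖ < ε →
      l ≠ 0 ∧ m ≠ 0 ∧ x0 + a * l + b * m ∈ frontier O := by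
    intro a b ha hb hda hdb
    have h1 : ((⟨a, mem_sphere_zero_iff_norm.mpr ha⟩, ⟨b, mem_sphere_zero_iff_norm.mpr hb⟩) :
        Metric.sphere (0 : ℂ) 1 × Metric.sphere (0 : ℂ) 1) ∈
        Metric.ball ((⟨a0, mem_sphere_zero_iff_norm.mpr ha0⟩, ⟨b0, mem_sphere_zero_iff_norm.mpr hb0⟩) :
        Metric.sphere (0 : ℂ) 1 × Metric.sphere (0 : ℂ) 1) ε := by
      rw [Metric.mem_ball, Prod.dist_eq]
      apply max_lt
      · rw [Subtype.dist_eq, dist_eq_norm]
        exact hda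
      · rw [Subtype.dist_eq, dist_eq_norm]
        exact hdb
    have h2 := interior_subset (hball h1)
    exact h2
  obtain ⟨hl0, hm0, -⟩ := hin a0 b0 ha0 hb0 (by simpa using hε) (by simpa using hε)
  -- transversality
  have hcont : Tendsto (fun δ : ℝ => ‖b0 * Complex.exp ((δ : ℂ) * Complex.I) - b0‖) (𝓝 0) (𝓝 0) := by
    have : Continuous fun δ : ℝ => ‖b0 * Complex.exp ((δ : ℂ) * Complex.I) - b0‖ := by fun_prop
    have h1 := this.tendsto 0
    simpa using h1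
  obtain ⟨δ, hδ1, hδ2⟩ : ∃ δ : ℝ, ‖b0 * Complex.exp ((δ : ℂ) * Complex.I) - b0‖ < ε ∧
      (conj (a0 * l) * (b0 * Complex.exp ((δ : ℂ) * Complex.I) * m)).im ≠ 0 := by
    by_cases h0 : (conj (a0 * l) * (b0 * m)).im = 0
    · have hw0 : conj (a0 * l) * (b0 * m) ≠ 0 := by
        have ha00 : a0 ≠ 0 := by
          intro h; rw [h, norm_zero] at ha0; exact zero_ne_one ha0
        have hb00 : b0 ≠ 0 := by
          intro h; rw [h, norm_zero] at hb0; exact zero_ne_one hb0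
        refine mul_ne_zero ?_ (mul_ne_zero hb00 hm0)
        rw [Ne, map_eq_zero]
        exact mul_ne_zero ha00 hl0
      have hre : (conj (a0 * l) * (b0 * m)).re ≠ 0 := by
        intro h
        exact hw0 (Complex.ext h h0)
      have ev1 : ∀ᶠ δ : ℝ in 𝓝[>] 0, ‖b0 * Complex.exp ((δ : ℂ) * Complex.I) - b0‖ < ε :=
        (hcont.mono_left nhdsWithin_le_nhds).eventually (gt_mem_nhds hε)
      have ev2 : ∀ᶠ δ : ℝ in 𝓝[>] 0, δ ∈ Ioo (0 : ℝ) 1 := Ioo_mem_nhdsGT one_pos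
      obtain ⟨δ, hδ, hδ'⟩ := (ev1.and ev2).exists
      refine ⟨δ, hδ, ?_⟩
      have e1 : conj (a0 * l) * (b0 * Complex.exp ((δ : ℂ) * Complex.I) * m) =
          (conj (a0 * l) * (b0 * m)) * Complex.exp ((δ : ℂ) * Complex.I) := by ring
      rw [e1, Complex.mul_im, h0, Complex.exp_ofReal_mul_I_im, zero_mul, add_zero]
      apply mul_ne_zero hre
      exact (Real.sin_pos_of_pos_of_lt_pi hδ'.1 (by linarith [hδ'.2, Real.pi_gt_three])).ne'
    · exact ⟨0, by simpa using hε, by simpa using h0⟩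
  set b1 : ℂ := b0 * Complex.exp ((δ : ℂ) * Complex.I) with hb1
  have hb1n : ‖b1‖ = 1 := by
    rw [hb1, norm_mul, hb0, Complex.norm_exp_ofReal_mul_I, one_mul]
  have hmap := two_circles x0 (a0 * l) (b1 * m) hδ2
  have hnb : frontier O ∈ 𝓝 (x0 + a0 * l + b1 * m) := by
    rw [← hmap, mem_map]
    have c1 : Tendsto (fun p : ℝ × ℝ => ‖a0 * Complex.exp ((p.1 : ℂ) * Complex.I) - a0‖)
        (𝓝 (0, 0)) (𝓝 0) := by
      have : Continuous fun p : ℝ × ℝ => ‖a0 * Complex.exp ((p.1 : ℂ) * Complex.I) - a0‖ := by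
        fun_prop
      have h1 := this.tendsto (0, 0)
      simpa using h1
    have c2 : Tendsto (fun p : ℝ × ℝ => ‖b1 * Complex.exp ((p.2 : ℂ) * Complex.I) - b0‖)
        (𝓝 (0, 0)) (𝓝 ‖b1 - b0‖) := by
      have : Continuous fun p : ℝ × ℝ => ‖b1 * Complex.exp ((p.2 : ℂ) * Complex.I) - b0‖ := by
        fun_prop
      have h1 := this.tendsto (0, 0)
      simpa using h1
    filter_upwards [c1.eventually (gt_mem_nhds hε), c2.eventually (gt_mem_nhds hδ1)] with p hp1 hp2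
    have h1 := (hin (a0 * Complex.exp ((p.1 : ℂ) * Complex.I))
      (b1 * Complex.exp ((p.2 : ℂ) * Complex.I))
      (by rw [norm_mul, ha0, Complex.norm_exp_ofReal_mul_I, one_mul])
      (by rw [norm_mul, hb1n, Complex.norm_exp_ofReal_mul_I, one_mul]) hp1 hp2).2.2
    rw [mem_preimage]
    convert h1 using 1
    ring
  have hintf : interior (frontier O) = ∅ := by
    rw [← frontier_compl]
    exact interior_frontier D.open'.isClosed_compl
  have : x0 + a0 * l + b1 * m ∈ interior (frontier O) := mem_interior_iff_mem_nhds.mpr hnb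
  rw [hintf] at this
  exact this

end Pool.Agent.Helper681.NS
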