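import Mathlib
set_option autoImplicit false

namespace Pool.Agent.Helper681.Shor

open Polynomial

/-- the recursive bound -/
def b (D K : ℕ) : ℕ → ℕ
  | 0 => 0
  | n + 1 => D + (K + 1) * b D K n

lemma b_mono (D K n : ℕ) : b D K n ≤ b D K (n + 1) := by
  rw [b]
  nlinarith [Nat.zero_le (b D K n), Nat.zero_le (K * b D K n)]

lemma b_ge (D K n : ℕ) : D + K * b D K n ≤ b D K (n + 1) := by
  rw [b]
  nlinarith [Nat.zero_le (b D K n), Nat.zero_le (K * b D K n)]

/-- size of a partial sum -/
lemma abs_sum_le {f : ℤ[X]} {L H K B : ℕ} (hL : f.support.card = L)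
    (hH : ∀ i, |f.coeff i| ≤ (H : ℤ)) {x : ℤ} {g : ℕ} (hg : 1 ≤ g)
    (hx : |x| ≤ (g : ℤ) ^ K) (S : Finset ℕ) (hS : S ⊆ f.support) (hB : ∀ i ∈ S, i ≤ B) :
    |∑ i ∈ S, f.coeff i * x ^ i| ≤ (L * H : ℤ) * (g : ℤ) ^ (K * B) := by
  have h1 : |∑ i ∈ S, f.coeff i * x ^ i| ≤ ∑ i ∈ S, |f.coeff i * x ^ i| :=
    Finset.abs_sum_le_sum_abs _ _
  have hg' : (1 : ℤ) ≤ (g : ℤ) := by exact_mod_cast hg
  have h2 : ∀ i ∈ S, |f.coeff i * x ^ i| ≤ (H : ℤ) * (g : ℤ) ^ (K * B) := by
    intro i hi
    rw [abs_mul, abs_pow]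
    have h3 : |x| ^ i ≤ ((g : ℤ) ^ K) ^ i := pow_le_pow_left₀ (abs_nonneg x) hx i
    have h4 : ((g : ℤ) ^ K) ^ i ≤ (g : ℤ) ^ (K * B) := by
      rw [← pow_mul]
      exact pow_le_pow_right₀ hg' (Nat.mul_le_mul_left K (hB i hi))
    exact mul_le_mul (hH i) (h3.trans h4) (by positivity) (by positivity)
  have h5 := Finset.sum_le_card_nsmul S _ _ h2
  have h6 : (S.card : ℤ) ≤ (L : ℤ) := by
    rw [← hL]; exact_mod_cast Finset.card_le_card hS
  rw [nsmul_eq_mul] at h5
  calc |∑ i ∈ S, f.coeff i * x ^ i| ≤ _ := h1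
    _ ≤ (S.card : ℤ) * ((H : ℤ) * (g : ℤ) ^ (K * B)) := h5
    _ ≤ (L : ℤ) * ((H : ℤ) * (g : ℤ) ^ (K * B)) := by
        exact mul_le_mul_of_nonneg_right h6 (by positivity)
    _ = _ := by ring

/-- if `g ^ (e)` divides a nonzero partial sum then `e` is small -/
lemma exp_le {L H K B e : ℕ} {g : ℕ} (hg : 2 ≤ g) {T : ℤ} (hT : T ≠ 0)
    (hd : (g : ℤ) ^ e ∣ T) (hle : |T| ≤ (L * H : ℤ) * (g : ℤ) ^ (K * B)) :
    e ≤ L * H + K * B := by
  have h1 : (g : ℤ) ^ e ≤ |T| := by
    apply Int.le_of_dvd (abs_pos.2 hT)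
    exact (dvd_abs _ _).2 hd
  have h2 : (L * H : ℤ) ≤ (g : ℤ) ^ (L * H) := by
    have h3 : L * H < 2 ^ (L * H) := Nat.lt_two_pow_self
    have h4 : 2 ^ (L * H) ≤ g ^ (L * H) := Nat.pow_le_pow_left hg _
    exact_mod_cast (h3.le.trans h4)
  have hgpos : (0 : ℤ) < (g : ℤ) := by exact_mod_cast (by omega : 0 < g)
  have h5 : (g : ℤ) ^ e ≤ (g : ℤ) ^ (L * H + K * B) := by
    rw [pow_add]
    calc (g : ℤ) ^ e ≤ |T| := h1
      _ ≤ (L * H : ℤ) * (g : ℤ) ^ (K * B) := hle
      _ ≤ _ := mul_le_mul_of_nonneg_right h2 (by positivity)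
  have h6 : g ^ e ≤ g ^ (L * H + K * B) := by exact_mod_cast h5
  exact (Nat.pow_le_pow_iff_right (by omega)).1 h6

lemma main {f : ℤ[X]} {L H K : ℕ} (hL : f.support.card = L)
    (hH : ∀ i, |f.coeff i| ≤ (H : ℤ)) (h0 : f.coeff 0 ≠ 0) {m : ℕ} {x y : ℤ}
    (hy : 1 < |y|) (hxy : y ^ m = f.eval x) {g : ℕ} (hg : 1 ≤ g) (hgx : (g : ℤ) ∣ x)
    (hgy : (g : ℤ) ∣ y) (hx : |x| ≤ (g : ℤ) ^ K)
    (hns : ¬ ∃ S ⊆ f.support, S.Nonempty ∧ ∑ i ∈ S, f.coeff i * x ^ i = 0) :
    m ≤ b (L * H) K (L + 1) := by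
  have hy0 : y ≠ 0 := by rintro rfl; simp at hy
  have hfull : ∑ i ∈ f.support, f.coeff i * x ^ i = y ^ m := by
    rw [hxy, eval_eq_sum, sum_def]
  have hne : ∀ S ⊆ f.support, S.Nonempty → ∑ i ∈ S, f.coeff i * x ^ i ≠ 0 := by
    intro S h1 h2 h3; exact hns ⟨S, h1, h2, h3⟩
  rcases Nat.lt_or_ge g 2 with hg1 | hg2
  · -- g = 1
    have hg1' : g = 1 := by omega
    subst hg1'
    have h1 := abs_sum_le (B := 0) (K := 0) (g := 2) hL hH (x := 1) (by norm_num) (by norm_num)
    -- direct estimate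
    have hx1 : |x| ≤ 1 := by simpa using hx
    have h2 : |y ^ m| ≤ (L * H : ℤ) := by
      rw [← hfull]
      have h3 : |∑ i ∈ f.support, f.coeff i * x ^ i| ≤ ∑ i ∈ f.support, |f.coeff i * x ^ i| :=
        Finset.abs_sum_le_sum_abs _ _
      have h4 : ∀ i ∈ f.support, |f.coeff i * x ^ i| ≤ (H : ℤ) := by
        intro i _
        rw [abs_mul, abs_pow]
        have h5 : |x| ^ i ≤ 1 := pow_le_one₀ (abs_nonneg x) hx1
        calc |f.coeff i| * |x| ^ i ≤ |f.coeff i| * 1 :=
              mul_le_mul_of_nonneg_left h5 (abs_nonneg _)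
          _ ≤ H := by rw [mul_one]; exact hH i
      have h6 := Finset.sum_le_card_nsmul _ _ _ h4
      rw [nsmul_eq_mul, hL] at h6
      exact h3.trans h6
    have h7 : (2 : ℤ) ^ m ≤ |y ^ m| := by
      rw [abs_pow]; exact pow_le_pow_left₀ (by norm_num) (by omega) m
    have h8 : 2 ^ m ≤ L * H := by exact_mod_cast h7.trans h2
    have h9 : m < 2 ^ m := Nat.lt_two_pow_self
    have h10 := b_ge (L * H) K L
    have : L * H ≤ L * H + K * b (L * H) K L := Nat.le_add_right _ _
    omega
  · by_contra hm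
    push Not at hm
    have hmono : ∀ i j, i ≤ j → b (L * H) K i ≤ b (L * H) K j := fun i j hij =>
      monotone_nat_of_le_succ (b_mono (L * H) K) hij
    have hS0 : (0 : ℕ) ∈ f.support := mem_support_iff.2 h0
    have key : ∀ i : ℕ, i ≤ L → (∀ t ∈ f.support, t ≤ b (L * H) K i) ∨
        i + 1 ≤ (f.support.filter (fun t => t ≤ b (L * H) K i)).card := by
      intro i
      induction i with
      | zero =>
        intro _
        right
        rw [Nat.zero_add, Nat.one_le_iff_ne_zero, Finset.card_ne_zero]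
        exact ⟨0, Finset.mem_filter.2 ⟨hS0, Nat.zero_le _⟩⟩
      | succ i ih =>
        intro hi
        rcases ih (by omega) with h | h
        · left; intro t ht; exact (h t ht).trans (b_mono _ _ _)
        · by_cases hall : ∀ t ∈ f.support, t ≤ b (L * H) K i
          · left; intro t ht; exact (hall t ht).trans (b_mono _ _ _)
          right
          set S := f.support.filter (fun t => t ≤ b (L * H) K i) with hS
          have hSs : S ⊆ f.support := Finset.filter_subset _ _
          have hSne : S.Nonempty := ⟨0, Finset.mem_filter.2 ⟨hS0, Nat.zero_le _⟩⟩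
          have hT := hne S hSs hSne
          have hex : ∃ t ∈ f.support, b (L * H) K i < t ∧ t ≤ b (L * H) K (i + 1) := by
            by_contra hcon
            push Not at hcon
            have hdv : (g : ℤ) ^ (b (L * H) K (i + 1) + 1) ∣ ∑ t ∈ S, f.coeff t * x ^ t := by
              have e1 : ∑ t ∈ S, f.coeff t * x ^ t =
                  y ^ m - ∑ t ∈ f.support \ S, f.coeff t * x ^ t := by
                rw [← hfull, ← Finset.sum_sdiff hSs]; ring
              rw [e1]
              apply dvd_sub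
              · have h1 : b (L * H) K (i + 1) + 1 ≤ m :=
                  (hmono (i + 1) (L + 1) (by omega)).trans_lt hm
                exact (pow_dvd_pow _ h1).trans (pow_dvd_pow_of_dvd hgy m)
              · apply Finset.dvd_sum
                intro t ht
                rw [Finset.mem_sdiff] at ht
                have ht1 : b (L * H) K i < t := by
                  by_contra hc
                  exact ht.2 (Finset.mem_filter.2 ⟨ht.1, by omega⟩)
                have ht2 := hcon t ht.1 ht1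
                apply Dvd.dvd.mul_left
                exact (pow_dvd_pow _ (by omega : b (L * H) K (i + 1) + 1 ≤ t)).trans
                  (pow_dvd_pow_of_dvd hgx t)
            have hle := abs_sum_le (B := b (L * H) K i) hL hH hg hx S hSs
              (fun t ht => (Finset.mem_filter.1 ht).2)
            have h2 := exp_le hg2 hT hdv hle
            have h3 := b_ge (L * H) K i
            omega
          obtain ⟨t, ht, ht1, ht2⟩ := hex
          have hsub : insert t S ⊆ f.support.filter (fun t => t ≤ b (L * H) K (i + 1)) := by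
            intro u hu
            rcases Finset.mem_insert.1 hu with rfl | hu
            · exact Finset.mem_filter.2 ⟨ht, ht2⟩
            · rw [hS, Finset.mem_filter] at hu
              exact Finset.mem_filter.2 ⟨hu.1, hu.2.trans (b_mono _ _ _)⟩
          have hnot : t ∉ S := by
            intro hc
            rw [hS, Finset.mem_filter] at hc
            omega
          have := Finset.card_le_card hsub
          rw [Finset.card_insert_of_notMem hnot] at this
          omega
    have hall : ∀ t ∈ f.support, t ≤ b (L * H) K L := by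
      rcases key L le_rfl with h | h
      · exact h
      · exfalso
        have := Finset.card_le_card (Finset.filter_subset (fun t => t ≤ b (L * H) K L) f.support)
        omega
    have hle := abs_sum_le (B := b (L * H) K L) hL hH hg hx f.support subset_rfl hall
    have hT := hne f.support subset_rfl ⟨0, hS0⟩
    have hdv : (g : ℤ) ^ m ∣ ∑ i ∈ f.support, f.coeff i * x ^ i := by
      rw [hfull]; exact pow_dvd_pow_of_dvd hgy m
    have h2 := exp_le hg2 hT hdv hle
    have h3 := b_ge (L * H) K L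
    omega

end Pool.Agent.Helper681.Shor
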