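import Mathlib
set_option autoImplicit false
open Polynomial

namespace Pool.Agent.Helper681.Stab

/-- In an extension of finite fields of odd characteristic an element whose norm is a square
is a square. -/
lemma isSquare_of_norm {K L : Type*} [Field K] [Field L] [Finite L] [Algebra K L]
    (h2 : ringChar K ≠ 2) (x : L) (h : IsSquare (Algebra.norm K x)) : IsSquare x := by
  classical
  by_cases hx : x = 0
  · subst hx; exact IsSquare.zero
  have : Finite K := Finite.of_injective _ (algebraMap K L).injective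
  have := Fintype.ofFinite K
  have := Fintype.ofFinite L
  have h2L : ringChar L ≠ 2 := by
    have : ringChar L = ringChar K := by
      have := (RingHom.charP_iff (algebraMap K L) (algebraMap K L).injective (ringChar K)).1
        inferInstance
      exact (ringChar.eq_iff.2 this)
    rw [this]; exact h2
  have hn0 : Algebra.norm K x ≠ 0 := by
    rw [Ne, Algebra.norm_eq_zero_iff]; exact hx
  rw [FiniteField.isSquare_iff h2 hn0] at h
  rw [FiniteField.isSquare_iff h2L hx]
  have e := FiniteField.algebraMap_norm_eq_pow (K := K) (K' := L) (x := x)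
  have e2 : algebraMap K L (Algebra.norm K x ^ (Fintype.card K / 2)) = 1 := by rw [h, map_one]
  rw [map_pow, e, ← pow_mul] at e2
  have hKodd : Fintype.card K % 2 = 1 := FiniteField.odd_card_of_char_ne_two h2
  have hLodd : Fintype.card L % 2 = 1 := FiniteField.odd_card_of_char_ne_two h2L
  have hK1 : 1 < Fintype.card K := Fintype.one_lt_card
  have hdvd : (Nat.card K - 1) ∣ (Nat.card L - 1) := by
    rw [Module.natCard_eq_pow_finrank (K := K) (V := L)]
    simpa using Nat.sub_dvd_pow_sub_pow (Nat.card K) 1 (Module.finrank K L)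
  have key : (Nat.card L - 1) / (Nat.card K - 1) * (Fintype.card K / 2) = Fintype.card L / 2 := by
    obtain ⟨m, hm⟩ := hdvd
    rw [hm]
    rw [Nat.card_eq_fintype_card, Nat.card_eq_fintype_card] at hm
    rw [Nat.card_eq_fintype_card]
    rw [Nat.mul_div_cancel_left _ (by omega)]
    obtain ⟨k, hk⟩ : ∃ k, Fintype.card K = 2 * k + 1 := ⟨Fintype.card K / 2, by omega⟩
    obtain ⟨l, hl⟩ : ∃ l, Fintype.card L = 2 * l + 1 := ⟨Fintype.card L / 2, by omega⟩
    rw [hk, hl] at hm ⊢
    have e3 : (2 * k + 1) / 2 = k := by omega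
    have e4 : (2 * l + 1) / 2 = l := by omega
    rw [e3, e4]
    have e5 : 2 * l = 2 * k * m := by simpa using hm
    have : 2 * l = 2 * (m * k) := by rw [e5]; ring
    omega
  rw [key] at e2
  exact e2

/-- compositional iterates of `x ^ 2 + 1` -/
noncomputable def P (p : ℕ) (n : ℕ) : (ZMod p)[X] :=
  (fun g : (ZMod p)[X] => (X ^ 2 + 1 : (ZMod p)[X]).comp g)^[n] X

/-- the critical orbit -/
def a : ℕ → ℕ
  | 0 => 0
  | n + 1 => a n ^ 2 + 1

variable {p : ℕ}

lemma P_succ (n : ℕ) : P p (n + 1) = P p n ^ 2 + 1 := by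
  unfold P
  rw [Function.iterate_succ_apply']
  simp

lemma P_succ' (n : ℕ) : P p (n + 1) = (P p n).comp (X ^ 2 + 1) := by
  induction n with
  | zero => rw [P_succ]; simp [P]
  | succ n ih =>
    rw [P_succ (n + 1), P_succ n]
    rw [P_succ n] at ih
    simp only [add_comp, pow_comp, one_comp]
    rw [← ih]

lemma P_monic_deg [Fact p.Prime] (n : ℕ) : (P p n).Monic ∧ (P p n).natDegree = 2 ^ n := by
  induction n with
  | zero => simp [P]
  | succ n ih =>
    rw [P_succ]
    have hm : (P p n ^ 2).Monic := ih.1.pow 2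
    have hd : (P p n ^ 2).natDegree = 2 ^ (n + 1) := by
      rw [ih.1.natDegree_pow, ih.2]; ring
    have hlt : (1 : (ZMod p)[X]).degree < (P p n ^ 2).degree := by
      rw [degree_one, degree_eq_natDegree hm.ne_zero, hd]
      exact_mod_cast (by positivity : 0 < 2 ^ (n + 1))
    refine ⟨hm.add_of_left hlt, ?_⟩
    rw [natDegree_add_eq_left_of_degree_lt hlt, hd]

lemma P_eval_zero (n : ℕ) : (P p n).eval 0 = (a n : ZMod p) := by
  induction n with
  | zero => simp [P, a]
  | succ n ih => rw [P_succ, a]; simp [ih]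

lemma P_eval_one (n : ℕ) : (P p n).eval 1 = (a (n + 1) : ZMod p) := by
  rw [← P_eval_zero, P_succ']; simp

/-- if some critical value `a (n+1)`, `n ≥ 1`, is a square, then `x^2+1` is not stable -/
lemma not_irr [Fact p.Prime] (hp : p ≠ 2) (n : ℕ) (hn : 1 ≤ n) (hirr : Irreducible (P p n))
    (hsq : IsSquare ((a (n + 1) : ℕ) : ZMod p)) : ¬ Irreducible (P p (n + 1)) := by
  intro hirr'
  set h : (ZMod p)[X] := (P p n).comp (X + C 1) with hh
  have hirrh : Irreducible h := by
    have := (MulEquiv.irreducible_iff (algEquivAevalXAddC (1 : ZMod p)).toMulEquiv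
      (x := P p n)).2 hirr
    simpa [hh, comp, aeval_def, eval₂_eq_eval_map] using this
  have hmon : h.Monic := (P_monic_deg n).1.comp_X_add_C 1
  have hdeg : h.natDegree = 2 ^ n := by
    rw [hh, natDegree_comp, (P_monic_deg n).2, natDegree_X_add_C, mul_one]
  have : Fact (Irreducible h) := ⟨hirrh⟩
  have hne : h ≠ 0 := hirrh.ne_zero
  set pb := AdjoinRoot.powerBasis hne with hpb
  have : Module.Finite (ZMod p) (AdjoinRoot h) := pb.finite
  have : Finite (AdjoinRoot h) := Module.finite_of_finite (ZMod p)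
  have hgen : pb.gen = AdjoinRoot.root h := AdjoinRoot.powerBasis_gen hne
  have hdim : pb.dim = 2 ^ n := by rw [hpb, AdjoinRoot.powerBasis_dim, hdeg]
  have hfr : Module.finrank (ZMod p) (AdjoinRoot h) = 2 ^ n := by
    rw [pb.finrank, hdim]
  have hmp : minpoly (ZMod p) (AdjoinRoot.root h) = h := by
    rw [AdjoinRoot.minpoly_root hne, hmon.leadingCoeff]; simp
  have hnorm : Algebra.norm (ZMod p) (AdjoinRoot.root h) = ((a (n + 1) : ℕ) : ZMod p) := by
    rw [← hgen, Algebra.PowerBasis.norm_gen_eq_coeff_zero_minpoly, hgen, hmp, hdim]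
    have he : Even (2 ^ n) := by
      rw [Nat.even_pow]; exact ⟨even_two, by omega⟩
    rw [he.neg_one_pow, one_mul, coeff_zero_eq_eval_zero, hh, eval_comp]
    simp [P_eval_one]
  have hchar : ringChar (ZMod p) ≠ 2 := by rw [ZMod.ringChar_zmod_n]; exact hp
  rw [← hnorm] at hsq
  obtain ⟨δ, hδ⟩ := isSquare_of_norm hchar _ hsq
  have hroot : aeval δ (P p (n + 1)) = 0 := by
    rw [P_succ', aeval_comp]
    have e1 : aeval δ (X ^ 2 + 1 : (ZMod p)[X]) = AdjoinRoot.root h + 1 := by
      simp [hδ, pow_two]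
    rw [e1]
    have e2 : aeval (AdjoinRoot.root h) h = 0 := by
      rw [AdjoinRoot.aeval_eq, AdjoinRoot.mk_self]
    have e3 : aeval (AdjoinRoot.root h) ((P p n).comp (X + C 1)) = 0 := e2
    rw [aeval_comp] at e3
    simpa using e3
  have hmin : minpoly (ZMod p) δ = P p (n + 1) :=
    (minpoly.eq_of_irreducible_of_monic hirr' hroot (P_monic_deg (n + 1)).1).symm
  have hle : (minpoly (ZMod p) δ).natDegree ≤ Module.finrank (ZMod p) (AdjoinRoot h) :=
    minpoly.natDegree_le δ
  rw [hmin, (P_monic_deg (n + 1)).2, hfr, pow_succ] at hle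
  have : 0 < 2 ^ n := by positivity
  omega

end Pool.Agent.Helper681.Stab
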