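import Mathlib
import Pool.Agent.Helper681.Stab1
set_option autoImplicit false
open Polynomial

namespace Pool.Agent.Helper681.Stab

lemma nonsq_of_stable {p : ℕ} [Fact p.Prime] (hp : p ≠ 2)
    (hs : ∀ n : ℕ, 1 ≤ n → Irreducible (P p n)) :
    ∀ j : ℕ, 2 ≤ j → ¬ IsSquare ((a j : ℕ) : ZMod p) := by
  intro j hj hsq
  obtain ⟨n, rfl⟩ : ∃ n, j = n + 1 := ⟨j - 1, by omega⟩
  exact not_irr hp n (by omega) (hs n (by omega)) hsq (hs (n + 1) (by omega))

lemma neg_one_nonsq {p : ℕ} [Fact p.Prime]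
    (hs : ∀ n : ℕ, 1 ≤ n → Irreducible (P p n)) : ¬ IsSquare (-1 : ZMod p) := by
  rintro ⟨i, hi⟩
  have h1 := hs 1 le_rfl
  have hdeg := (P_monic_deg (p := p) 1).2
  have hroot : (P p 1).IsRoot i := by
    simp [P, IsRoot, pow_two, ← hi]
  have := natDegree_eq_of_degree_eq_some (degree_eq_one_of_irreducible_of_root h1 hroot)
  rw [hdeg] at this
  norm_num at this

/-- the orbit of `0` of a stable `x ^ 2 + 1` reaches `-1` before any repetition -/
lemma orbit {p : ℕ} [Fact p.Prime] (hp : p ≠ 2)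
    (hs : ∀ n : ℕ, 1 ≤ n → Irreducible (P p n)) :
    ∃ k : ℕ, 2 ≤ k ∧ ((a k : ℕ) : ZMod p) = -1 ∧
      ∀ i j : ℕ, i < j → j ≤ k → ((a i : ℕ) : ZMod p) ≠ ((a j : ℕ) : ZMod p) := by
  classical
  have hn := nonsq_of_stable hp hs
  have hm := neg_one_nonsq hs
  -- existence of a collision
  have hex : ∃ j : ℕ, ∃ i : ℕ, i < j ∧ ((a i : ℕ) : ZMod p) = ((a j : ℕ) : ZMod p) := by
    obtain ⟨x, y, hxy, h⟩ := Finite.exists_ne_map_eq_of_infinite
      (fun n : ℕ => ((a n : ℕ) : ZMod p))
    rcases lt_or_gt_of_ne hxy with h1 | h1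
    · exact ⟨y, x, h1, h⟩
    · exact ⟨x, y, h1, h.symm⟩
  set j := Nat.find hex with hj
  obtain ⟨i, hij, hc⟩ := Nat.find_spec hex
  have hmin : ∀ j' i' : ℕ, j' < j → i' < j' →
      ((a i' : ℕ) : ZMod p) ≠ ((a j' : ℕ) : ZMod p) := by
    intro j' i' h1 h2 h3
    exact Nat.find_min hex h1 ⟨i', h2, h3⟩
  rw [← hj] at hij hc
  have hj2 : 2 ≤ j := by
    rcases Nat.lt_or_ge j 2 with h | h
    · exfalso
      have : j = 1 := by omega
      rw [this] at hc hij
      have : i = 0 := by omega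
      rw [this] at hc
      simp [a] at hc
    · exact h
  have hi0 : i ≠ 0 := by
    intro h0
    rw [h0] at hc
    apply hn j hj2
    rw [← hc]
    simp [a]
  obtain ⟨i', rfl⟩ : ∃ i', i = i' + 1 := ⟨i - 1, by omega⟩
  obtain ⟨k, hk⟩ : ∃ k, j = k + 1 := ⟨j - 1, by omega⟩
  rw [hk] at hc hij
  have hne := hmin k i' (by omega) (by omega)
  have hsum : ((a i' : ℕ) : ZMod p) = -((a k : ℕ) : ZMod p) := by
    have h1 : ((a i' : ℕ) : ZMod p) ^ 2 + 1 = ((a k : ℕ) : ZMod p) ^ 2 + 1 := by
      simpa [a] using hc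
    have h2 : (((a i' : ℕ) : ZMod p) - ((a k : ℕ) : ZMod p)) *
        (((a i' : ℕ) : ZMod p) + ((a k : ℕ) : ZMod p)) = 0 := by linear_combination h1
    rcases mul_eq_zero.1 h2 with h3 | h3
    · exact absurd (sub_eq_zero.1 h3) hne
    · exact eq_neg_of_add_eq_zero_left h3
  have hk1 : 1 ≤ k := by omega
  have hi1 : i' = 1 := by
    rcases Nat.lt_or_ge i' 2 with h | h
    · interval_cases i'
      · exfalso
        apply hne
        have : ((a k : ℕ) : ZMod p) = 0 := by simpa [a] using hsum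
        rw [this]; simp [a]
      · rfl
    · exfalso
      have hki : 2 ≤ k := by omega
      have A := hn i' h
      have B := hn k hki
      have hB0 : ((a k : ℕ) : ZMod p) ≠ 0 := by
        intro h0; apply B; rw [h0]; exact IsSquare.zero
      -- product of two nonsquares is a square
      have hA0 : ((a i' : ℕ) : ZMod p) ≠ 0 := by
        intro h0; apply A; rw [h0]; exact IsSquare.zero
      have hch : ringChar (ZMod p) ≠ 2 := by rw [ZMod.ringChar_zmod_n]; exact hp
      have q1 := FiniteField.pow_dichotomy hch hA0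
      have q2 := FiniteField.pow_dichotomy hch hB0
      have hm0 : (-1 : ZMod p) ≠ 0 := by simp
      have q3 := FiniteField.pow_dichotomy hch hm0
      rw [FiniteField.isSquare_iff hch hA0] at A
      rw [FiniteField.isSquare_iff hch hB0] at B
      rw [FiniteField.isSquare_iff hch hm0] at hm
      have r1 := q1.resolve_left A
      have r2 := q2.resolve_left B
      have r3 := q3.resolve_left hm
      rw [hsum, neg_pow, r3, r2] at r1
      have : (1 : ZMod p) = -1 := by simpa using r1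
      have h11 : (-1 : ZMod p) = 1 := this.symm
      rw [neg_one_eq_one_iff] at h11
      exact hch h11
  subst hi1
  refine ⟨k, ?_, ?_, ?_⟩
  · omega
  · have : (1 : ZMod p) = -((a k : ℕ) : ZMod p) := by simpa [a] using hsum
    rw [this]; ring
  · intro i j' h1 h2
    exact hmin j' i (by omega) h1

lemma dvd_case {p M X : ℕ} [Fact p.Prime] (h : p ∣ M) (hX : M ∣ X * X + 1) :
    IsSquare (-1 : ZMod p) := by
  have : ((X * X + 1 : ℕ) : ZMod p) = 0 := (ZMod.natCast_eq_zero_iff _ _).2 (h.trans hX)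
  refine ⟨(X : ZMod p), ?_⟩
  push_cast at this
  linear_combination -this

end Pool.Agent.Helper681.Stab
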