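import Mathlib
import Pool.Agent.Helper681.Stab2
set_option autoImplicit false
open Polynomial

namespace Pool.Agent.Helper681.Stab

lemma k_ge {p k : ℕ} [Fact p.Prime] (hp2 : p ≠ 2) (hp3 : p ≠ 3)
    (hm : ¬ IsSquare (-1 : ZMod p)) (hk : 2 ≤ k) (hd : p ∣ a k + 1) : 10 ≤ k := by
  have hp : p.Prime := Fact.out
  have n2 : ¬ p ∣ 2 := fun h => hp2 ((Nat.prime_dvd_prime_iff_eq hp Nat.prime_two).1 h)
  have n3 : ¬ p ∣ 3 := fun h => hp3 ((Nat.prime_dvd_prime_iff_eq hp Nat.prime_three).1 h)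
  have key : ∀ M X : ℕ, M ∣ X * X + 1 → ∀ e d : ℕ, ¬ p ∣ 2 ^ e * 3 ^ d * M := by
    intro M X hX e d h
    rcases (Nat.Prime.dvd_mul hp).1 h with h | h
    · rcases (Nat.Prime.dvd_mul hp).1 h with h | h
      · exact n2 (hp.dvd_of_dvd_pow h)
      · exact n3 (hp.dvd_of_dvd_pow h)
    · exact hm (dvd_case h hX)
  by_contra hlt
  have hk9 : k ≤ 9 := by omega
  interval_cases k
  · exact key 1 0 (by norm_num) 0 1 (by simpa [a] using hd)
  · exact key 1 0 (by norm_num) 1 1 (by simpa [a] using hd)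
  · exact key 1 0 (by norm_num) 0 3 (by simpa [a] using hd)
  · exact key 113 15 (by norm_num) 1 1 (by simpa [a] using hd)
  · exact key 152777 51217 (by norm_num) 0 1 (by simpa [a] using hd)
  · exact key 3890118313 1416498493 (by norm_num) 1 3 (by simpa [a] using hd)
  · exact key 14709295915302058662601 6506868298494539780738 (by norm_num) 0 1
      (by simpa [a] using hd)
  · exact key 324545079485882741593283907582308155075465201
      104486313939315654794219665181312683610697230 (by norm_num) 1 1 (by simpa [a] using hd)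

lemma mod_eight {p : ℕ} [Fact p.Prime] (hp2 : p ≠ 2)
    (hm : ¬ IsSquare (-1 : ZMod p)) (h2 : ¬ IsSquare (2 : ZMod p)) : p % 8 = 3 := by
  have h4 : p % 4 = 3 := by
    by_contra h
    exact hm (ZMod.exists_sq_eq_neg_one_iff.2 h)
  have h8 : ¬ (p % 8 = 1 ∨ p % 8 = 7) := fun h => h2 ((ZMod.exists_sq_eq_two_iff hp2).2 h)
  omega

lemma mod_five {p : ℕ} [Fact p.Prime] (hp2 : p ≠ 2)
    (h5 : ¬ IsSquare (5 : ZMod p)) : p % 5 = 2 ∨ p % 5 = 3 := by
  have hp : p.Prime := Fact.out
  have : Fact (Nat.Prime 5) := ⟨by norm_num⟩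
  by_contra hcon
  apply h5
  have h55 : ((5 : ℕ) : ZMod p) = 5 := by norm_num
  rw [← h55, ← ZMod.exists_sq_eq_prime_iff_of_mod_four_eq_one (p := 5) (q := p)
    (by norm_num) hp2]
  have hlt : p % 5 < 5 := Nat.mod_lt _ (by norm_num)
  have hcast : ((p : ℕ) : ZMod 5) = ((p % 5 : ℕ) : ZMod 5) := by simp
  rw [hcast]
  have : p % 5 = 0 ∨ p % 5 = 1 ∨ p % 5 = 4 := by omega
  rcases this with h | h | h
  · rw [h]; exact ⟨0, by norm_num⟩
  · rw [h]; exact ⟨1, by norm_num⟩
  · rw [h]; exact ⟨2, by norm_num⟩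

/-- converse step: `P n` irreducible and `a (n+1)` a nonsquare give `P (n+1)` irreducible -/
lemma irr_step {p : ℕ} [Fact p.Prime] (n : ℕ) (hn : 1 ≤ n)
    (hirr : Irreducible (P p n)) (hsq : ¬ IsSquare ((a (n + 1) : ℕ) : ZMod p)) :
    Irreducible (P p (n + 1)) := by
  set h : (ZMod p)[X] := (P p n).comp (X + C 1) with hh
  have hirrh : Irreducible h := by
    have := (MulEquiv.irreducible_iff (algEquivAevalXAddC (1 : ZMod p)).toMulEquiv
      (x := P p n)).2 hirr
    simpa [hh, comp, aeval_def, eval₂_eq_eval_map] using this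
  have hmon : h.Monic := (P_monic_deg n).1.comp_X_add_C 1
  have hdeg : h.natDegree = 2 ^ n := by
    rw [hh, natDegree_comp, (P_monic_deg n).2, natDegree_X_add_C, mul_one]
  have hc0 : h.coeff 0 = ((a (n + 1) : ℕ) : ZMod p) := by
    rw [coeff_zero_eq_eval_zero, hh, eval_comp]
    simp [P_eval_one]
  have hP : P p (n + 1) = h.comp (X ^ 2) := by
    rw [P_succ', hh, comp_assoc]
    simp
  rw [hP]
  refine Polynomial.irreducible_comp hmon (monic_X_pow 2) hirrh ?_
  intro E _ _ x hx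
  rw [Polynomial.map_pow, map_X]
  refine X_pow_sub_C_irreducible_of_prime Nat.prime_two ?_
  intro b hb
  have hint : IsIntegral (ZMod p) x := by
    by_contra hcon
    have := minpoly.eq_zero hcon
    rw [hx] at this
    exact hirrh.ne_zero this
  apply hsq
  refine ⟨Algebra.norm (ZMod p) b, ?_⟩
  rw [← pow_two, ← map_pow, hb, ← IntermediateField.adjoin.powerBasis_gen hint,
    Algebra.PowerBasis.norm_gen_eq_coeff_zero_minpoly]
  rw [IntermediateField.adjoin.powerBasis_gen, IntermediateField.minpoly_gen, hx,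
    IntermediateField.adjoin.powerBasis_dim, hx, hdeg, hc0]
  have he : Even (2 ^ n) := by
    rw [Nat.even_pow]; exact ⟨even_two, by omega⟩
  rw [he.neg_one_pow, one_mul]

lemma irr_one {p : ℕ} [Fact p.Prime] (hm : ¬ IsSquare (-1 : ZMod p)) : Irreducible (P p 1) := by
  have e : P p 1 = X ^ 2 - C (-1) := by simp [P]
  rw [e]
  refine X_pow_sub_C_irreducible_of_prime Nat.prime_two ?_
  intro b hb
  exact hm ⟨b, by rw [← hb]; ring⟩

lemma stable_of {p k : ℕ} [Fact p.Prime] (hm : ¬ IsSquare (-1 : ZMod p)) (hk : 2 ≤ k)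
    (hd : p ∣ a k + 1)
    (hn : ∀ j : ℕ, 2 ≤ j → j ≤ k → ¬ IsSquare ((a j : ℕ) : ZMod p)) :
    ∀ n : ℕ, 1 ≤ n → Irreducible (P p n) := by
  have hak : ((a k : ℕ) : ZMod p) = -1 := by
    have := (ZMod.natCast_eq_zero_iff _ _).2 hd
    push_cast at this
    exact eq_neg_of_add_eq_zero_left this
  have hper : ∀ j : ℕ, 2 ≤ j → ∃ i : ℕ, 2 ≤ i ∧ i ≤ k ∧
      ((a j : ℕ) : ZMod p) = ((a i : ℕ) : ZMod p) := by
    intro j hj
    induction j, hj using Nat.le_induction with
    | base => exact ⟨2, le_rfl, hk, rfl⟩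
    | succ j hj ih =>
      obtain ⟨i, h1, h2, h3⟩ := ih
      rcases Nat.lt_or_ge i k with h | h
      · refine ⟨i + 1, by omega, by omega, ?_⟩
        simp [a, h3]
      · have : i = k := by omega
        subst this
        refine ⟨2, le_rfl, hk, ?_⟩
        norm_num [a, h3, hak]
  have hall : ∀ j : ℕ, 2 ≤ j → ¬ IsSquare ((a j : ℕ) : ZMod p) := by
    intro j hj
    obtain ⟨i, h1, h2, h3⟩ := hper j hj
    rw [h3]
    exact hn i h1 h2
  intro n hn1
  induction n, hn1 using Nat.le_induction with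
  | base => exact irr_one hm
  | succ n h ih => exact irr_step n h ih (hall (n + 1) (by omega))

end Pool.Agent.Helper681.Stab
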