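import Mathlib

set_option autoImplicit false

open Filter Topology Set MeasureTheory ComplexConjugate

namespace Pool.Agent.Helper681.Stein

/-- `A` meets the image of `B` under every rigid motion `w ↦ a w + b`, `|a| = 1`, in exactly one
point. -/
def SP (A B : Set ℂ) : Prop :=
  ∀ a b : ℂ, ‖a‖ = 1 → ∃! z : ℂ, z ∈ A ∧ ∃ w ∈ B, a * w + b = z

theorem SP.ex {A B : Set ℂ} (h : SP A B) (a y : ℂ) (ha : ‖a‖ = 1) :
    ∃ z ∈ A, ∃ w ∈ B, y = z - a * w := by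
  obtain ⟨z, ⟨hz, w, hw, hzw⟩, -⟩ := h a y ha
  exact ⟨z, hz, w, hw, by rw [← hzw]; ring⟩

theorem SP.dist {A B : Set ℂ} (h : SP A B) {z z' w w' : ℂ} (hz : z ∈ A) (hz' : z' ∈ A)
    (hw : w ∈ B) (hw' : w' ∈ B) (hd : ‖z - z'‖ = ‖w - w'‖) : z = z' ∧ w = w' := by
  by_cases hww : w = w'
  · rw [hww, sub_self, norm_zero, norm_eq_zero, sub_eq_zero] at hd
    exact ⟨hd, hww⟩
  · exfalso
    have hne : w - w' ≠ 0 := sub_ne_zero.mpr hww
    have hn : ‖w - w'‖ ≠ 0 := norm_ne_zero_iff.mpr hne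
    have ha : ‖(z - z') / (w - w')‖ = 1 := by rw [norm_div, hd, div_self hn]
    obtain ⟨z0, -, huniq⟩ := h ((z - z') / (w - w')) (z - (z - z') / (w - w') * w) ha
    have h1 := huniq z ⟨hz, w, hw, by ring⟩
    have h2 := huniq z' ⟨hz', w', hw', by
      have : (z - z') / (w - w') * (w - w') = z - z' := div_mul_cancel₀ _ hne
      linear_combination -this⟩
    have h3 : z = z' := h1.trans h2.symm
    rw [h3, sub_self, norm_zero] at hd
    exact hn hd.symm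

theorem SP.symm {A B : Set ℂ} (h : SP A B) : SP B A := by
  intro a b ha
  have ha0 : a ≠ 0 := by
    rintro rfl
    rw [norm_zero] at ha
    exact zero_ne_one ha
  have ha' : ‖a⁻¹‖ = 1 := by rw [norm_inv, ha, inv_one]
  obtain ⟨z, ⟨hz, w, hw, hzw⟩, -⟩ := h a⁻¹ (-(a⁻¹ * b)) ha'
  refine ⟨w, ⟨hw, z, hz, ?_⟩, ?_⟩
  · rw [← hzw]
    field_simp
    ring
  · rintro w' ⟨hw', z', hz', hzw'⟩
    have e1 : w = a * z + b := by rw [← hzw]; field_simp; ring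
    have : ‖z - z'‖ = ‖w - w'‖ := by
      rw [e1, ← hzw']
      have : a * z + b - (a * z' + b) = a * (z - z') := by ring
      rw [this, norm_mul, ha, one_mul]
    exact (h.dist hz hz' hw hw' this).2.symm

theorem SP.translate {A B : Set ℂ} (h : SP A B) (c : ℂ) : SP A ((fun w => w - c) '' B) := by
  intro a b ha
  obtain ⟨z, ⟨hz, w, hw, hzw⟩, huniq⟩ := h a (b - a * c) ha
  refine ⟨z, ⟨hz, w - c, ⟨w, hw, rfl⟩, by rw [← hzw]; ring⟩, ?_⟩
  rintro z' ⟨hz', _, ⟨w', hw', rfl⟩, hzw'⟩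
  exact huniq z' ⟨hz', w', hw', by rw [← hzw']; ring⟩

/-- asymptotics of the norm -/
theorem lim_norm (q p : ℕ → ℂ) (e p0 : ℂ) (hq : Tendsto (fun k => ‖q k‖) atTop atTop)
    (he : Tendsto (fun k => q k / (‖q k‖ : ℂ)) atTop (𝓝 e)) (hp : Tendsto p atTop (𝓝 p0)) :
    Tendsto (fun k => ‖q k + p k‖ - ‖q k‖) atTop (𝓝 (p0 * conj e).re) := by
  have hs : Tendsto (fun k => ‖q k‖⁻¹) atTop (𝓝 0) := tendsto_inv_atTop_zero.comp hq
  have he1 : ‖e‖ = 1 := by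
    have h1 : Tendsto (fun k => ‖q k / (‖q k‖ : ℂ)‖) atTop (𝓝 ‖e‖) := he.norm
    have h2 : Tendsto (fun k => ‖q k / (‖q k‖ : ℂ)‖) atTop (𝓝 1) := by
      apply tendsto_const_nhds.congr'
      filter_upwards [hq.eventually_gt_atTop 0] with k hk
      rw [norm_div, Complex.norm_real, norm_norm, div_self hk.ne']
    exact tendsto_nhds_unique h1 h2
  have key : ∀ᶠ k in atTop, (2 * (p k * conj (q k / (‖q k‖ : ℂ))).re + ‖q k‖⁻¹ * ‖p k‖ ^ 2) /
      (‖q k / (‖q k‖ : ℂ) + ((‖q k‖⁻¹ : ℝ) : ℂ) * p k‖ + 1) = ‖q k + p k‖ - ‖q k‖ := by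
    filter_upwards [hq.eventually_gt_atTop 0] with k hk
    have e1 : q k / (‖q k‖ : ℂ) + ((‖q k‖⁻¹ : ℝ) : ℂ) * p k = ((‖q k‖⁻¹ : ℝ) : ℂ) * (q k + p k) := by
      push_cast
      ring
    rw [e1, norm_mul, Complex.norm_real, norm_inv, norm_norm]
    have hsq : ‖q k + p k‖ ^ 2 = ‖q k‖ ^ 2 + ‖p k‖ ^ 2 + 2 * (q k * conj (p k)).re := by
      rw [Complex.sq_norm, Complex.sq_norm, Complex.sq_norm, Complex.normSq_add]
    have e2 : (p k * conj (q k / (‖q k‖ : ℂ))).re = ‖q k‖⁻¹ * (q k * conj (p k)).re := by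
      rw [map_div₀, Complex.conj_ofReal]
      have : p k * (conj (q k) / (‖q k‖ : ℂ)) = ((‖q k‖⁻¹ : ℝ) : ℂ) * (p k * conj (q k)) := by
        push_cast
        ring
      rw [this, Complex.re_ofReal_mul]
      congr 1
      simp only [Complex.mul_re, Complex.conj_re, Complex.conj_im]
      ring
    rw [e2]
    have hden : ‖q k‖⁻¹ * ‖q k + p k‖ + 1 ≠ 0 := by positivity
    rw [div_eq_iff hden]
    field_simp
    linarith
  have hlim : Tendsto (fun k => (2 * (p k * conj (q k / (‖q k‖ : ℂ))).re + ‖q k‖⁻¹ * ‖p k‖ ^ 2) /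
      (‖q k / (‖q k‖ : ℂ) + ((‖q k‖⁻¹ : ℝ) : ℂ) * p k‖ + 1)) atTop
      (𝓝 ((2 * (p0 * conj e).re + 0 * ‖p0‖ ^ 2) / (‖e + ((0 : ℝ) : ℂ) * p0‖ + 1))) := by
    apply Tendsto.div
    · apply Tendsto.add
      · apply Tendsto.const_mul
        have h1 : Tendsto (fun k => conj (q k / (‖q k‖ : ℂ))) atTop (𝓝 (conj e)) :=
          (Complex.continuous_conj.tendsto e).comp he
        exact (Complex.continuous_re.tendsto _).comp (hp.mul h1)
      · exact hs.mul (hp.norm.pow 2)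
    · apply Tendsto.add_const
      have h1 : Tendsto (fun k => ((‖q k‖⁻¹ : ℝ) : ℂ)) atTop (𝓝 ((0 : ℝ) : ℂ)) :=
        (Complex.continuous_ofReal.tendsto 0).comp hs
      exact (he.add (h1.mul hp)).norm
    · positivity
  have e3 : (2 * (p0 * conj e).re + 0 * ‖p0‖ ^ 2) / (‖e + ((0 : ℝ) : ℂ) * p0‖ + 1) =
      (p0 * conj e).re := by
    rw [Complex.ofReal_zero, zero_mul, zero_mul, add_zero, add_zero, he1]
    ring
  rw [e3] at hlim
  exact hlim.congr' key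

/-- the case of bounded translations -/
theorem par (q : ℂ) (ρ : ℝ) (hρ : 0 < ρ) (h : ρ ≤ |‖q‖ - ‖q + (ρ : ℂ)‖|) : q.im = 0 := by
  have hsq : ‖q + (ρ : ℂ)‖ ^ 2 = ‖q‖ ^ 2 + ρ ^ 2 + 2 * (ρ * q.re) := by
    rw [Complex.sq_norm, Complex.sq_norm, Complex.normSq_add, Complex.normSq_ofReal,
      Complex.conj_ofReal]
    simp only [Complex.mul_re, Complex.ofReal_re, Complex.ofReal_im]
    ring
  have hn : ‖q‖ ^ 2 = q.re ^ 2 + q.im ^ 2 := by
    rw [Complex.sq_norm, Complex.normSq_apply]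
    ring
  have h1 := norm_nonneg q
  have h2 := norm_nonneg (q + (ρ : ℂ))
  have key : q.im ^ 2 ≤ 0 := by
    rcases le_abs.mp h with h3 | h3
    · have h4 : ‖q + (ρ : ℂ)‖ ^ 2 ≤ (‖q‖ - ρ) ^ 2 := by
        apply pow_le_pow_left₀ h2
        linarith
      rw [hsq] at h4
      have h5 : ρ * q.re ≤ ρ * (-‖q‖) := by nlinarith
      have h6 : q.re ≤ -‖q‖ := le_of_mul_le_mul_left h5 hρ
      nlinarith
    · have h4 : (‖q‖ + ρ) ^ 2 ≤ ‖q + (ρ : ℂ)‖ ^ 2 := by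
        apply pow_le_pow_left₀ (by linarith)
        linarith
      rw [hsq] at h4
      have h5 : ρ * ‖q‖ ≤ ρ * q.re := by nlinarith
      have h6 : ‖q‖ ≤ q.re := le_of_mul_le_mul_left h5 hρ
      nlinarith
  nlinarith [sq_nonneg q.im]

/-- the case of unbounded translations -/
theorem unb (q δ : ℕ → ℂ) (ρ : ℝ) (β : ℂ) (hρ : 0 < ρ) (hβ : |β.re + ρ| < ρ)
    (hδ : Tendsto δ atTop (𝓝 0)) (hq : Tendsto (fun k => ‖q k‖) atTop atTop)
    (h1 : ∀ k, ρ ≤ |‖q k‖ - ‖q k + ((ρ : ℂ) + δ k)‖|)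
    (h2 : ∀ᶠ k in atTop, ρ ≤ |‖q k - β‖ - ‖q k + ((ρ : ℂ) + δ k)‖|) : False := by
  have hb : ∀ k, q k / (‖q k‖ : ℂ) ∈ Metric.closedBall (0 : ℂ) 1 := by
    intro k
    rw [mem_closedBall_zero_iff, norm_div, Complex.norm_real, norm_norm]
    exact div_self_le_one _
  obtain ⟨e, -, φ, hφ, he⟩ := tendsto_subseq_of_bounded Metric.isBounded_closedBall hb
  have hφt := hφ.tendsto_atTop
  have hqφ : Tendsto (fun k => ‖q (φ k)‖) atTop atTop := hq.comp hφt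
  have heφ : Tendsto (fun k => q (φ k) / (‖q (φ k)‖ : ℂ)) atTop (𝓝 e) := he
  have hδφ : Tendsto (fun k => (ρ : ℂ) + δ (φ k)) atTop (𝓝 ((ρ : ℂ) + 0)) :=
    (hδ.comp hφt).const_add _
  rw [add_zero] at hδφ
  have L1 := lim_norm (fun k => q (φ k)) (fun k => (ρ : ℂ) + δ (φ k)) e ρ hqφ heφ hδφ
  have L2 := lim_norm (fun k => q (φ k)) (fun _ => -β) e (-β) hqφ heφ tendsto_const_nhds
  have he1 : ‖e‖ = 1 := by
    have h3 : Tendsto (fun k => ‖q (φ k) / (‖q (φ k)‖ : ℂ)‖) atTop (𝓝 ‖e‖) := heφ.norm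
    have h4 : Tendsto (fun k => ‖q (φ k) / (‖q (φ k)‖ : ℂ)‖) atTop (𝓝 1) := by
      apply tendsto_const_nhds.congr'
      filter_upwards [hqφ.eventually_gt_atTop 0] with k hk
      rw [norm_div, Complex.norm_real, norm_norm, div_self hk.ne']
    exact tendsto_nhds_unique h3 h4
  have hn : e.re ^ 2 + e.im ^ 2 = 1 := by
    have : ‖e‖ ^ 2 = e.re ^ 2 + e.im ^ 2 := by
      rw [Complex.sq_norm, Complex.normSq_apply]
      ring
    rw [← this, he1]
    norm_num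
  have r1 : ((ρ : ℂ) * conj e).re = ρ * e.re := by
    simp
  have r2 : (-β * conj e).re = -(β.re * e.re + β.im * e.im) := by
    simp only [Complex.mul_re, Complex.neg_re, Complex.neg_im, Complex.conj_re, Complex.conj_im]
    ring
  rw [r1] at L1
  rw [r2] at L2
  have g1 : ρ ≤ |ρ * e.re| := by
    refine ge_of_tendsto L1.abs (Eventually.of_forall fun k => ?_)
    have := h1 (φ k)
    rw [abs_sub_comm] at this
    exact this
  have g2 : ρ ≤ |-(β.re * e.re + β.im * e.im) - ρ * e.re| := by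
    refine ge_of_tendsto (L2.sub L1).abs ((hφt.eventually h2).mono fun k hk => ?_)
    have e4 : ‖q (φ k) + -β‖ - ‖q (φ k)‖ - (‖q (φ k) + ((ρ : ℂ) + δ (φ k))‖ - ‖q (φ k)‖) =
        ‖q (φ k) - β‖ - ‖q (φ k) + ((ρ : ℂ) + δ (φ k))‖ := by
      rw [← sub_eq_add_neg]
      ring
    rw [e4]
    exact hk
  have g3 : 1 ≤ |e.re| := by
    rw [abs_mul, abs_of_pos hρ] at g1
    have : ρ * 1 ≤ ρ * |e.re| := by linarith
    exact le_of_mul_le_mul_left this hρ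
  have g4 : 1 ≤ e.re ^ 2 := by
    rw [← sq_abs]
    nlinarith [abs_nonneg e.re]
  have g5 : e.im = 0 := by nlinarith [sq_nonneg e.im]
  have g6 : |e.re| = 1 := by
    rw [g5] at hn
    have : |e.re| ^ 2 = 1 := by rw [sq_abs]; linarith
    nlinarith [abs_nonneg e.re]
  have g7 : -(β.re * e.re + β.im * e.im) - ρ * e.re = -(e.re * (β.re + ρ)) := by
    rw [g5]; ring
  rw [g7, abs_neg, abs_mul, g6, one_mul] at g2
  linarith

end Pool.Agent.Helper681.Stein
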