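import Pool.Agent.Helper681.Stein1

set_option autoImplicit false

open Filter Topology Set MeasureTheory ComplexConjugate

namespace Pool.Agent.Helper681.Stein

theorem star {A' B : Set ℂ} {c : ℂ} {ρ : ℝ} (hρ : 0 < ρ) (hball : Metric.ball c ρ ⊆ A')
    (H1 : ∀ o ∈ A', ∀ o' ∈ A', ∀ w ∈ B, ∀ w' ∈ B, ‖o - o'‖ = ‖w - w'‖ → w = w')
    {o w w' : ℂ} (ho : o ∈ A') (hw : w ∈ B) (hw' : w' ∈ B) (hne : w ≠ w') :
    ρ ≤ |‖w - w'‖ - ‖o - c‖| := by
  by_contra hcon
  rw [not_le] at hcon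
  have hs : 0 < ‖w - w'‖ := norm_pos_iff.mpr (sub_ne_zero.mpr hne)
  obtain ⟨d, hd1, hd2⟩ : ∃ d : ℂ, ‖d - c‖ < ρ ∧ ‖o - d‖ = ‖w - w'‖ := by
    by_cases hoc : o = c
    · subst hoc
      rw [sub_self, norm_zero, sub_zero, abs_of_pos hs] at hcon
      refine ⟨o + (‖w - w'‖ : ℂ), ?_, ?_⟩
      · rw [add_sub_cancel_left, Complex.norm_real, norm_norm]
        exact hcon
      · rw [sub_add_cancel_left, norm_neg, Complex.norm_real, norm_norm]
    · have hoc' : 0 < ‖o - c‖ := norm_pos_iff.mpr (sub_ne_zero.mpr hoc)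
      have hocC : ((‖o - c‖ : ℝ) : ℂ) ≠ 0 := by exact_mod_cast hoc'.ne'
      refine ⟨o - ((‖w - w'‖ / ‖o - c‖ : ℝ) : ℂ) * (o - c), ?_, ?_⟩
      · have e1 : o - ((‖w - w'‖ / ‖o - c‖ : ℝ) : ℂ) * (o - c) - c =
            (((‖o - c‖ - ‖w - w'‖) / ‖o - c‖ : ℝ) : ℂ) * (o - c) := by
          push_cast
          field_simp
          ring
        rw [e1, norm_mul, Complex.norm_real, Real.norm_eq_abs, abs_div, abs_of_pos hoc',
          div_mul_cancel₀ _ hoc'.ne', abs_sub_comm]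
        exact hcon
      · have e1 : o - (o - ((‖w - w'‖ / ‖o - c‖ : ℝ) : ℂ) * (o - c)) =
            ((‖w - w'‖ / ‖o - c‖ : ℝ) : ℂ) * (o - c) := by ring
        rw [e1, norm_mul, Complex.norm_real, Real.norm_eq_abs, abs_div, abs_of_pos hoc',
          abs_of_pos hs, div_mul_cancel₀ _ hoc'.ne']
  have hdA : d ∈ A' := hball (by rwa [mem_ball_iff_norm])
  exact hne (H1 o ho d hdA w hw w' hw' hd2)

theorem sep {A' B : Set ℂ} {c : ℂ} {ρ : ℝ} (hρ : 0 < ρ) (hball : Metric.ball c ρ ⊆ A')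
    (H1 : ∀ o ∈ A', ∀ o' ∈ A', ∀ w ∈ B, ∀ w' ∈ B, ‖o - o'‖ = ‖w - w'‖ → w = w')
    {w w' : ℂ} (hw : w ∈ B) (hw' : w' ∈ B) (hne : w ≠ w') : ρ ≤ ‖w - w'‖ := by
  have h := star hρ hball H1 (hball (Metric.mem_ball_self hρ)) hw hw' hne
  rwa [sub_self, norm_zero, sub_zero, abs_norm] at h

theorem countable_of_sep {B : Set ℂ} {ρ : ℝ} (hρ : 0 < ρ)
    (h : ∀ w ∈ B, ∀ w' ∈ B, w ≠ w' → ρ ≤ ‖w - w'‖) : B.Countable := by
  refine Set.PairwiseDisjoint.countable_of_isOpen (s := fun w => Metric.ball w (ρ / 2)) ?_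
    (fun w _ => Metric.isOpen_ball) (fun w _ => ⟨w, Metric.mem_ball_self (by linarith)⟩)
  intro w hw w' hw' hne
  apply Metric.ball_disjoint_ball
  have := h w hw w' hw' hne
  rw [dist_eq_norm]
  linarith

/-- choice of the direction -/
theorem choose_dir {B : Set ℂ} (hB : B.Countable) (b' : ℂ) (hb' : b' ≠ 0) (ρ : ℝ) (hρ : 0 < ρ) :
    ∃ u : ℂ, ‖u‖ = 1 ∧ |(conj u * b').re + ρ| < ρ ∧ ∀ w ∈ B, w ≠ 0 → (conj u * w).im ≠ 0 := by
  have hr : 0 < ‖b'‖ := norm_pos_iff.mpr hb'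
  set r := ‖b'‖ with hrdef
  set n : ℂ := b' / (r : ℂ) with hn
  have hrC : (r : ℂ) ≠ 0 := by exact_mod_cast hr.ne'
  have hn1 : ‖n‖ = 1 := by
    rw [hn, norm_div, Complex.norm_real, Real.norm_eq_abs, abs_of_pos hr, ← hrdef, div_self hr.ne']
  have hnn : n * conj n = 1 := by
    rw [Complex.mul_conj, Complex.normSq_eq_norm_sq, hn1]
    norm_num
  set g : ℂ → ℝ := fun w => (conj n * w).re / ‖w‖ with hg
  have hcount : (g '' B ∪ (fun w => -g w) '' B).Countable := (hB.image g).union (hB.image _)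
  have hm : 0 < min 1 (2 * ρ / r) := lt_min one_pos (by positivity)
  have hunc : ¬ (Ioo (0 : ℝ) (min 1 (2 * ρ / r))).Countable := by
    rw [Cardinal.Real.Ioo_countable_iff]
    exact not_le.mpr hm
  obtain ⟨t, ht1, ht2⟩ : ∃ t ∈ Ioo (0 : ℝ) (min 1 (2 * ρ / r)), t ∉ g '' B ∪ (fun w => -g w) '' B := by
    by_contra hcon
    push Not at hcon
    exact hunc (hcount.mono hcon)
  have ht0 : 0 < t := ht1.1
  have htl : t < 1 := lt_of_lt_of_le ht1.2 (min_le_left _ _)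
  have htr : t < 2 * ρ / r := lt_of_lt_of_le ht1.2 (min_le_right _ _)
  set s : ℂ := ⟨-t, Real.sqrt (1 - t ^ 2)⟩ with hs
  have hsn : ‖s‖ = 1 := by
    have h1 : Complex.normSq s = 1 := by
      rw [Complex.normSq_apply, hs]
      have := Real.mul_self_sqrt (by nlinarith : 0 ≤ 1 - t ^ 2)
      simp only
      nlinarith
    rw [Complex.normSq_eq_norm_sq] at h1
    have := norm_nonneg s
    nlinarith
  refine ⟨n * s, ?_, ?_, ?_⟩
  · rw [norm_mul, hn1, hsn, one_mul]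
  · have e1 : conj (n * s) * b' = (r : ℂ) * conj s := by
      have hb : b' = (r : ℂ) * n := by
        rw [hn, mul_div_cancel₀ _ hrC]
      rw [hb, map_mul]
      linear_combination ((r : ℂ) * conj s) * hnn
    rw [e1, Complex.re_ofReal_mul, Complex.conj_re]
    have : s.re = -t := rfl
    rw [this, abs_lt]
    rw [lt_div_iff₀ hr] at htr
    constructor <;> nlinarith
  · intro w hw hw0 him
    have hwn : 0 < ‖w‖ := norm_pos_iff.mpr hw0
    set κ : ℝ := (conj (n * s) * w).re with hκ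
    have e1 : conj (n * s) * w = (κ : ℂ) := by
      apply Complex.ext
      · rw [Complex.ofReal_re]
      · rw [Complex.ofReal_im]
        exact him
    have huu : (n * s) * conj (n * s) = 1 := by
      rw [Complex.mul_conj, Complex.normSq_eq_norm_sq, norm_mul, hn1, hsn]
      norm_num
    have e2 : w = (κ : ℂ) * (n * s) := by
      rw [← e1]
      linear_combination (-w) * huu
    have e3 : |κ| = ‖w‖ := by
      rw [e2, norm_mul, norm_mul, hn1, hsn, Complex.norm_real, Real.norm_eq_abs]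
      ring
    have e4 : conj n * w = (κ : ℂ) * s := by
      rw [e2]
      linear_combination ((κ : ℂ) * s) * hnn
    have e5 : g w = κ * (-t) / ‖w‖ := by
      rw [hg]
      simp only
      rw [e4, Complex.re_ofReal_mul]
    apply ht2
    rcases abs_choice κ with h | h
    · right
      refine ⟨w, hw, ?_⟩
      simp only
      rw [e5, ← e3, h]
      have : κ ≠ 0 := by
        intro h0
        rw [h0, abs_zero] at e3
        exact hwn.ne e3
      field_simp
    · left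
      refine ⟨w, hw, ?_⟩
      rw [e5, ← e3, h]
      have : κ ≠ 0 := by
        intro h0
        rw [h0, abs_zero] at e3
        exact hwn.ne e3
      field_simp

/-- the main lemma -/
theorem main {A' B : Set ℂ} (h0 : (0 : ℂ) ∈ B) {b' : ℂ} (hb' : b' ∈ B) (hb'0 : b' ≠ 0)
    {c x : ℂ} {ρ : ℝ} (hρ : 0 < ρ) (hball : Metric.ball c ρ ⊆ A') (hx : ‖x - c‖ = ρ)
    (H1 : ∀ o ∈ A', ∀ o' ∈ A', ∀ w ∈ B, ∀ w' ∈ B, ‖o - o'‖ = ‖w - w'‖ → w = w')
    (H2 : ∀ a : ℂ, ‖a‖ = 1 → ∀ ε > 0, ∃ y, ‖y - x‖ < ε ∧ y ∉ A' ∧ ∃ o ∈ A', ∃ w ∈ B,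
      y = o - a * w) : False := by
  have hsep : ∀ w ∈ B, ∀ w' ∈ B, w ≠ w' → ρ ≤ ‖w - w'‖ :=
    fun w hw w' hw' hne => sep hρ hball H1 hw hw' hne
  have hcount := countable_of_sep hρ hsep
  have hclosed : IsClosed B := by
    apply Metric.isClosed_of_pairwise_le_dist hρ
    intro w hw w' hw' hne
    rw [dist_eq_norm]
    exact hsep w hw w' hw' hne
  obtain ⟨u, hu1, hu2, hu3⟩ := choose_dir hcount b' hb'0 ρ hρ
  have huu : u * conj u = 1 := by
    rw [Complex.mul_conj, Complex.normSq_eq_norm_sq, hu1]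
    norm_num
  have hρC : (ρ : ℂ) ≠ 0 := by exact_mod_cast hρ.ne'
  set n : ℂ := (x - c) / (ρ : ℂ) with hn
  have hn1 : ‖n‖ = 1 := by
    rw [hn, norm_div, hx, Complex.norm_real, Real.norm_eq_abs, abs_of_pos hρ, div_self hρ.ne']
  have hnn : n * conj n = 1 := by
    rw [Complex.mul_conj, Complex.normSq_eq_norm_sq, hn1]
    norm_num
  have hnρ : x - c = n * ρ := by
    rw [hn, div_mul_cancel₀ _ hρC]
  have hcu : ‖conj u‖ = 1 := by rw [RCLike.norm_conj, hu1]
  have ha : ‖n * conj u‖ = 1 := by rw [norm_mul, hn1, hcu, one_mul]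
  have hex : ∀ k : ℕ, ∃ y o w : ℂ, ‖y - x‖ < 1 / ((k : ℝ) + 1) ∧ y ∉ A' ∧ o ∈ A' ∧ w ∈ B ∧
      y = o - (n * conj u) * w := by
    intro k
    obtain ⟨y, hy1, hy2, o, ho, w, hw, hyo⟩ := H2 _ ha (1 / ((k : ℝ) + 1)) (by positivity)
    exact ⟨y, o, w, hy1, hy2, ho, hw, hyo⟩
  choose y o w hy1 hy2 ho hw hyo using hex
  have hw0 : ∀ k, w k ≠ 0 := by
    intro k hk
    apply hy2 k
    rw [hyo k, hk, mul_zero, sub_zero]
    exact ho k
  set q : ℕ → ℂ := fun k => conj u * w k with hq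
  set δ : ℕ → ℂ := fun k => conj n * (y k - x) with hδ
  have hqn : ∀ k, ‖q k‖ = ‖w k‖ := by
    intro k
    rw [hq]
    simp only
    rw [norm_mul, hcu, one_mul]
  have hδ0 : Tendsto δ atTop (𝓝 0) := by
    rw [tendsto_zero_iff_norm_tendsto_zero]
    have h1 : Tendsto (fun k : ℕ => 1 / ((k : ℝ) + 1)) atTop (𝓝 0) :=
      tendsto_one_div_add_atTop_nhds_zero_nat
    refine squeeze_zero (fun k => norm_nonneg _) (fun k => ?_) h1
    rw [hδ]
    simp only
    rw [norm_mul, RCLike.norm_conj, hn1, one_mul]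
    exact (hy1 k).le
  have hoc : ∀ k, ‖o k - c‖ = ‖q k + ((ρ : ℂ) + δ k)‖ := by
    intro k
    have e1 : o k - c = n * (q k + ((ρ : ℂ) + δ k)) := by
      have e2 : o k = y k + (n * conj u) * w k := by rw [hyo k]; ring
      rw [e2, hq, hδ]
      simp only
      linear_combination hnρ - (y k - x) * hnn
    rw [e1, norm_mul, hn1, one_mul]
  have h1 : ∀ k, ρ ≤ |‖q k‖ - ‖q k + ((ρ : ℂ) + δ k)‖| := by
    intro k
    have := star hρ hball H1 (ho k) (hw k) h0 (hw0 k)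
    rw [sub_zero] at this
    rw [hqn k, ← hoc k]
    exact this
  by_cases hlim : Tendsto (fun k => ‖q k‖) atTop atTop
  · refine unb q δ ρ (conj u * b') hρ hu2 hδ0 hlim h1 ?_
    filter_upwards [hlim.eventually_gt_atTop ‖b'‖] with k hk
    have hne : w k ≠ b' := by
      intro h
      rw [hqn k, h] at hk
      exact lt_irrefl _ hk
    have := star hρ hball H1 (ho k) (hw k) hb' hne
    have e1 : q k - conj u * b' = conj u * (w k - b') := by
      rw [hq]
      ring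
    rw [e1, norm_mul, hcu, one_mul, ← hoc k]
    exact this
  · rw [tendsto_atTop] at hlim
    push Not at hlim
    obtain ⟨R, hR⟩ := hlim
    have hfr : ∃ᶠ k in atTop, w k ∈ Metric.closedBall (0 : ℂ) R := by
      refine hR.mono fun k hk => ?_
      rw [mem_closedBall_zero_iff, ← hqn k]
      exact hk.le
    obtain ⟨w0, -, φ, hφ, hwφ⟩ :=
      tendsto_subseq_of_frequently_bounded Metric.isBounded_closedBall hfr
    have hφt := hφ.tendsto_atTop
    have hw0B : w0 ∈ B := hclosed.mem_of_tendsto hwφ (Eventually.of_forall fun k => hw (φ k))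
    have hw0ρ : ρ ≤ ‖w0‖ := by
      refine ge_of_tendsto hwφ.norm (Eventually.of_forall fun k => ?_)
      have := hsep _ (hw (φ k)) _ h0 (hw0 (φ k))
      rw [sub_zero] at this
      exact this
    have hw00 : w0 ≠ 0 := by
      intro h
      rw [h, norm_zero] at hw0ρ
      linarith
    have hqφ : Tendsto (fun k => q (φ k)) atTop (𝓝 (conj u * w0)) := hwφ.const_mul _
    have hδφ : Tendsto (fun k => (ρ : ℂ) + δ (φ k)) atTop (𝓝 ((ρ : ℂ) + 0)) :=
      (hδ0.comp hφt).const_add _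
    rw [add_zero] at hδφ
    have hl : ρ ≤ |‖conj u * w0‖ - ‖conj u * w0 + (ρ : ℂ)‖| :=
      ge_of_tendsto (hqφ.norm.sub (hqφ.add hδφ).norm).abs
        (Eventually.of_forall fun k => h1 (φ k))
    exact hu3 w0 hw0B hw00 (par _ ρ hρ hl)

end Pool.Agent.Helper681.Stein
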