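import Pool.Agent.Helper681.Stein2

set_option autoImplicit false

open Filter Topology Set MeasureTheory ComplexConjugate Pointwise

namespace Pool.Agent.Helper681.Stein

theorem main' {A' B : Set ℂ} (h0 : (0 : ℂ) ∈ B) {b' : ℂ} (hb' : b' ∈ B) (hb'0 : b' ≠ 0)
    (hint : (interior A').Nonempty) (hne : (A'ᶜ).Nonempty)
    (H1 : ∀ o ∈ A', ∀ o' ∈ A', ∀ w ∈ B, ∀ w' ∈ B, ‖o - o'‖ = ‖w - w'‖ → w = w')
    (H2 : ∀ x ∈ closure A'ᶜ, ∀ a : ℂ, ‖a‖ = 1 → ∀ ε > 0, ∃ y, ‖y - x‖ < ε ∧ y ∉ A' ∧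
      ∃ o ∈ A', ∃ w ∈ B, y = o - a * w) : False := by
  obtain ⟨c, hc⟩ := hint
  obtain ⟨x, hx, hxd⟩ := isClosed_closure.exists_infDist_eq_dist (closure_nonempty_iff.mpr hne) c
  have hcn : c ∉ closure A'ᶜ := by
    rw [closure_compl]
    exact fun h => h hc
  have hρ : 0 < Metric.infDist c (closure A'ᶜ) :=
    (isClosed_closure.notMem_iff_infDist_pos (closure_nonempty_iff.mpr hne)).1 hcn
  refine main (A' := A') (c := c) (x := x) h0 hb' hb'0 hρ ?_ ?_ H1 (H2 x hx)
  · intro p hp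
    by_contra hpA
    have h1 : Metric.infDist c (closure A'ᶜ) ≤ dist c p :=
      Metric.infDist_le_dist_of_mem (subset_closure hpA)
    rw [Metric.mem_ball, dist_comm] at hp
    linarith
  · rw [hxd, dist_comm, dist_eq_norm]

theorem ne_univ {A B : Set ℂ} (hB : B.Nontrivial)
    (H1 : ∀ o ∈ A, ∀ o' ∈ A, ∀ w ∈ B, ∀ w' ∈ B, ‖o - o'‖ = ‖w - w'‖ → w = w') :
    (Aᶜ).Nonempty := by
  obtain ⟨w, hw, w', hw', hne⟩ := hB
  rw [nonempty_compl]
  intro hA
  exact hne (H1 w (hA ▸ mem_univ _) w' (hA ▸ mem_univ _) w hw w' hw' rfl)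

/-- In a Steinhaus pair whose second set has two points the first one has empty interior. -/
theorem interior_empty {A B : Set ℂ} (h : SP A B) (hB : B.Nontrivial) : interior A = ∅ := by
  by_contra hcon
  have hint : (interior A).Nonempty := nonempty_iff_ne_empty.mpr hcon
  obtain ⟨w0, hw0, w1, hw1, hne⟩ := hB
  have h' := h.translate w0
  have h0 : (0 : ℂ) ∈ (fun w => w - w0) '' B := ⟨w0, hw0, sub_self _⟩
  have h1 : w1 - w0 ∈ (fun w => w - w0) '' B := ⟨w1, hw1, rfl⟩
  have h10 : w1 - w0 ≠ 0 := sub_ne_zero.mpr hne.symm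
  have H1 : ∀ o ∈ A, ∀ o' ∈ A, ∀ w ∈ (fun w => w - w0) '' B, ∀ w' ∈ (fun w => w - w0) '' B,
      ‖o - o'‖ = ‖w - w'‖ → w = w' :=
    fun o ho o' ho' w hw w' hw' hd => (h'.dist ho ho' hw hw' hd).2
  refine main' h0 h1 h10 hint (ne_univ ⟨_, h0, _, h1, fun e => h10 e.symm⟩ H1) H1 ?_
  intro x hx a ha ε hε
  obtain ⟨y, hy, hxy⟩ := Metric.mem_closure_iff.mp hx ε hε
  obtain ⟨z, hz, w, hw, hyz⟩ := h'.ex a y ha
  refine ⟨y, ?_, hy, z, hz, w, hw, hyz⟩
  rw [← dist_eq_norm, dist_comm]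
  exact hxy

theorem res_translate {P : ℂ → Prop} (hP : ∀ᶠ z in residual ℂ, P z) (v : ℂ) :
    ∀ᶠ z in residual ℂ, P (z + v) :=
  (tendsto_residual_of_isOpenMap (continuous_add_const v) (isOpenMap_add_right v)).eventually hP

theorem exists_of_res {P : ℂ → Prop} (hP : ∀ᶠ z in residual ℂ, P z) {V : Set ℂ} (hV : IsOpen V)
    (hne : V.Nonempty) : ∃ z ∈ V, P z := by
  have hd : Dense {z | P z} := dense_of_mem_residual hP
  obtain ⟨z, hz1, hz2⟩ := hd.inter_open_nonempty V hV hne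
  exact ⟨z, hz1, hz2⟩

/-- In a Steinhaus pair whose second set has two points the first one is meager if it has the
property of Baire. -/
theorem meagre {A B : Set ℂ} (h : SP A B) (hB : B.Nontrivial) (hA : BaireMeasurableSet A) :
    IsMeagre A := by
  by_contra hcon
  obtain ⟨U, hU, hAU⟩ := hA.residualEq_isOpen
  set O : Set ℂ := interior (closure U) with hO
  have hOo : IsOpen O := isOpen_interior
  have hUO : U ⊆ O := interior_maximal subset_closure hU
  have hfr : ∀ᶠ z in residual ℂ, z ∉ frontier U := by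
    refine residual_of_dense_open isClosed_frontier.isOpen_compl ?_
    change Dense (frontier U)ᶜ
    rw [← interior_eq_empty_iff_dense_compl, ← frontier_compl]
    exact interior_frontier hU.isClosed_compl
  have hAO : ∀ᶠ z in residual ℂ, (z ∈ A ↔ z ∈ O) := by
    filter_upwards [hAU, hfr] with z hz1 hz2
    have hz1' : (z ∈ A) = (z ∈ U) := hz1
    rw [hz1']
    constructor
    · intro hz
      exact hUO hz
    · intro hz
      by_contra hzU
      apply hz2
      rw [hU.frontier_eq]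
      exact ⟨interior_subset hz, hzU⟩
  have hint : (interior O).Nonempty := by
    rw [hOo.interior_eq, nonempty_iff_ne_empty]
    intro hempty
    apply hcon
    change ∀ᶠ z in residual ℂ, z ∈ Aᶜ
    filter_upwards [hAO] with z hz
    rw [mem_compl_iff, hz, hempty]
    exact notMem_empty z
  obtain ⟨w0, hw0, w1, hw1, hne⟩ := hB
  have h' := h.translate w0
  have h0 : (0 : ℂ) ∈ (fun w => w - w0) '' B := ⟨w0, hw0, sub_self _⟩
  have h1 : w1 - w0 ∈ (fun w => w - w0) '' B := ⟨w1, hw1, rfl⟩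
  have h10 : w1 - w0 ≠ 0 := sub_ne_zero.mpr hne.symm
  have H1 : ∀ o ∈ O, ∀ o' ∈ O, ∀ w ∈ (fun w => w - w0) '' B, ∀ w' ∈ (fun w => w - w0) '' B,
      ‖o - o'‖ = ‖w - w'‖ → w = w' := by
    intro o ho o' ho' w hw w' hw' hd
    have hW : IsOpen (O ∩ (fun z => z + -(o - o')) ⁻¹' O) :=
      hOo.inter (hOo.preimage (continuous_add_const _))
    have hWne : (O ∩ (fun z => z + -(o - o')) ⁻¹' O).Nonempty := by
      refine ⟨o, ho, ?_⟩
      change o + -(o - o') ∈ O
      have : o + -(o - o') = o' := by ring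
      rwa [this]
    obtain ⟨z, ⟨hz1, hz2⟩, hz3, hz4⟩ := exists_of_res (hAO.and (res_translate hAO (-(o - o')))) hW hWne
    refine (h'.dist (hz3.2 hz1) (hz4.2 hz2) hw hw' ?_).2
    rw [← hd]
    congr 1
    ring
  refine main' h0 h1 h10 hint (ne_univ ⟨_, h0, _, h1, fun e => h10 e.symm⟩ H1) H1 ?_
  intro x hx a ha ε hε
  have hxO : x ∉ O := by
    rwa [hOo.isClosed_compl.closure_eq] at hx
  have hcount : ((fun w => w - w0) '' B).Countable := by
    obtain ⟨c, hc⟩ := hint
    rw [hOo.interior_eq] at hc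
    obtain ⟨ρ, hρ, hball⟩ := Metric.isOpen_iff.mp hOo c hc
    exact countable_of_sep hρ fun w hw w' hw' hne => sep hρ hball H1 hw hw' hne
  have hVo : IsOpen (Metric.ball x ε ∩ (closure U)ᶜ) :=
    Metric.isOpen_ball.inter isClosed_closure.isOpen_compl
  have hVne : (Metric.ball x ε ∩ (closure U)ᶜ).Nonempty := by
    by_contra hcon2
    rw [not_nonempty_iff_eq_empty, ← disjoint_iff_inter_eq_empty, disjoint_compl_right_iff_subset]
      at hcon2
    exact hxO (mem_interior.mpr ⟨_, hcon2, Metric.isOpen_ball, Metric.mem_ball_self hε⟩)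
  have hev : ∀ᶠ y in residual ℂ, ∀ w ∈ (fun w => w - w0) '' B, (y + a * w ∈ A ↔ y + a * w ∈ O) := by
    rw [eventually_countable_ball hcount]
    intro w _
    exact res_translate hAO (a * w)
  obtain ⟨y, ⟨hy1, hy2⟩, hy3⟩ := exists_of_res hev hVo hVne
  obtain ⟨z, hz, w, hw, hyz⟩ := h'.ex a y ha
  have e1 : y + a * w = z := by rw [hyz]; ring
  refine ⟨y, by rwa [← dist_eq_norm, ← Metric.mem_ball], fun hyO => hy2 (interior_subset hyO),
    z, ?_, w, hw, hyz⟩
  have := (hy3 w hw).1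
  rw [e1] at this
  exact this hz

theorem uncountable {A B : Set ℂ} (h : SP A B) (hB : B.Nontrivial) (hA : BaireMeasurableSet A) :
    ¬ B.Countable := by
  intro hc
  have hm : ∀ᶠ z in residual ℂ, z ∉ A := meagre h hB hA
  have hev : ∀ᶠ y in residual ℂ, ∀ w ∈ B, y + w ∉ A := by
    rw [eventually_countable_ball hc]
    intro w _
    exact res_translate hm w
  obtain ⟨y, -, hy⟩ := exists_of_res hev isOpen_univ univ_nonempty
  obtain ⟨z, hz, w, hw, hyz⟩ := h.ex 1 y norm_one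
  apply hy w hw
  rw [hyz, one_mul, sub_add_cancel]
  exact hz

theorem null {A B : Set ℂ} (h : SP A B) (hB : B.Nontrivial) (hA : MeasurableSet A) :
    volume A = 0 := by
  by_contra hcon
  have hpos : 0 < volume A := pos_iff_ne_zero.mpr hcon
  have hnhds := Measure.sub_mem_nhds_zero_of_addHaar_pos volume A hA hpos
  obtain ⟨ε, hε, hball⟩ := Metric.mem_nhds_iff.mp hnhds
  apply uncountable h hB hA.baireMeasurableSet
  apply countable_of_sep hε
  intro w hw w' hw' hne
  by_contra hlt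
  rw [not_le] at hlt
  have hmem : w - w' ∈ A - A := hball (by rwa [mem_ball_zero_iff])
  obtain ⟨z, hz, z', hz', hzz⟩ := hmem
  apply hne
  refine (h.dist hz hz' hw hw' ?_).2
  exact congrArg norm hzz

end Pool.Agent.Helper681.Stein
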