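import Pool.Agent.Helper681.Stein3

set_option autoImplicit false

open Filter Topology Set MeasureTheory ComplexConjugate

namespace Pool.Agent.Helper681.Stein

/-- compact sets `K ⊆ A`, `L ⊆ B` in a Steinhaus pair have a difference set with empty interior -/
theorem compact_diff {A B : Set ℂ} (h : SP A B) (hA : A.Nontrivial) (hB : B.Nontrivial)
    {K L : Set ℂ} (hK : IsCompact K) (hL : IsCompact L) (hKA : K ⊆ A) (hLB : L ⊆ B) :
    interior ((fun p : ℂ × ℂ => p.1 - p.2) '' (K ×ˢ L)) = ∅ := by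
  by_contra hcon
  obtain ⟨p0, hp0⟩ := nonempty_iff_ne_empty.mpr hcon
  obtain ⟨r, hr, hball⟩ := Metric.isOpen_iff.mp isOpen_interior p0 hp0
  have hball' : Metric.ball p0 r ⊆ (fun p : ℂ × ℂ => p.1 - p.2) '' (K ×ˢ L) :=
    hball.trans interior_subset
  haveI : CompactSpace (K ×ˢ L : Set (ℂ × ℂ)) := isCompact_iff_compactSpace.mp (hK.prod hL)
  set f : (K ×ˢ L : Set (ℂ × ℂ)) → ℂ := fun x => x.1.1 - x.1.2 with hf
  have hfc : Continuous f := by fun_prop
  have hfi : Function.Injective f := by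
    rintro ⟨⟨z, w⟩, hz, hw⟩ ⟨⟨z', w'⟩, hz', hw'⟩ heq
    have heq' : z - w = z' - w' := heq
    have hd : ‖z - z'‖ = ‖w - w'‖ := by
      congr 1
      linear_combination heq'
    obtain ⟨e1, e2⟩ := h.dist (hKA hz) (hKA hz') (hLB hw) (hLB hw') hd
    simp only [Subtype.mk.injEq, Prod.mk.injEq]
    exact ⟨e1, e2⟩
  have hemb := hfc.isClosedEmbedding hfi
  set e := hemb.isEmbedding.toHomeomorph with he
  have hrange : ∀ p : Metric.ball p0 r, (p : ℂ) ∈ range f := by
    rintro ⟨p, hp⟩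
    obtain ⟨x, hx, hxp⟩ := hball' hp
    exact ⟨⟨x, hx⟩, hxp⟩
  set ψ : Metric.ball p0 r → (K ×ˢ L : Set (ℂ × ℂ)) := fun p => e.symm ⟨p, hrange p⟩ with hψ
  have hψc : Continuous ψ := by
    apply e.symm.continuous.comp
    exact Continuous.subtype_mk continuous_subtype_val _
  have hψf : ∀ p, f (ψ p) = p := by
    intro p
    have h1 : e (ψ p) = ⟨p, hrange p⟩ := e.apply_symm_apply _
    have h2 : ((e (ψ p) : range f) : ℂ) = f (ψ p) := rfl
    rw [← h2, h1]
  set zf : Metric.ball p0 r → ℂ := fun p => (ψ p).1.1 with hzf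
  set wf : Metric.ball p0 r → ℂ := fun p => (ψ p).1.2 with hwf
  have hzfc : Continuous zf := (continuous_fst.comp continuous_subtype_val).comp hψc
  have hwfc : Continuous wf := (continuous_snd.comp continuous_subtype_val).comp hψc
  have hzA : ∀ p, zf p ∈ A := fun p => hKA (ψ p).2.1
  have hwB : ∀ p, wf p ∈ B := fun p => hLB (ψ p).2.2
  have hzw : ∀ p : Metric.ball p0 r, zf p - wf p = p := hψf
  haveI : PreconnectedSpace (Metric.ball p0 r) :=
    isPreconnected_iff_preconnectedSpace.mp (convex_ball p0 r).isPreconnected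
  by_cases hz : ∀ p p', zf p = zf p'
  · -- `B` contains a disc
    have hiB := interior_empty h.symm hA
    have hc0 : p0 ∈ Metric.ball p0 r := Metric.mem_ball_self hr
    have hsub : Metric.ball (zf ⟨p0, hc0⟩ - p0) r ⊆ B := by
      intro q hq
      have hp : zf ⟨p0, hc0⟩ - q ∈ Metric.ball p0 r := by
        rw [mem_ball_iff_norm] at hq ⊢
        have e1 : zf ⟨p0, hc0⟩ - q - p0 = -(q - (zf ⟨p0, hc0⟩ - p0)) := by ring
        rw [e1, norm_neg]
        exact hq
      have h1 := hzw ⟨_, hp⟩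
      rw [hz ⟨_, hp⟩ ⟨p0, hc0⟩] at h1
      have h2 : wf ⟨zf ⟨p0, hc0⟩ - q, hp⟩ = q := by
        have h3 : zf ⟨p0, hc0⟩ - wf ⟨zf ⟨p0, hc0⟩ - q, hp⟩ = zf ⟨p0, hc0⟩ - q := h1
        linear_combination -h3
      rw [← h2]
      exact hwB _
    have : zf ⟨p0, hc0⟩ - p0 ∈ interior B :=
      mem_interior.mpr ⟨_, hsub, Metric.isOpen_ball, Metric.mem_ball_self hr⟩
    rw [hiB] at this
    exact this
  · by_cases hw : ∀ p p', wf p = wf p'
    · have hiA := interior_empty h hB
      have hc0 : p0 ∈ Metric.ball p0 r := Metric.mem_ball_self hr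
      have hsub : Metric.ball (p0 + wf ⟨p0, hc0⟩) r ⊆ A := by
        intro q hq
        have hp : q - wf ⟨p0, hc0⟩ ∈ Metric.ball p0 r := by
          rw [mem_ball_iff_norm] at hq ⊢
          convert hq using 2
          ring
        have h1 := hzw ⟨_, hp⟩
        rw [hw ⟨_, hp⟩ ⟨p0, hc0⟩] at h1
        have h2 : zf ⟨q - wf ⟨p0, hc0⟩, hp⟩ = q := by
          have h3 : zf ⟨q - wf ⟨p0, hc0⟩, hp⟩ - wf ⟨p0, hc0⟩ = q - wf ⟨p0, hc0⟩ := h1
          linear_combination h3
        rw [← h2]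
        exact hzA _
      have : p0 + wf ⟨p0, hc0⟩ ∈ interior A :=
        mem_interior.mpr ⟨_, hsub, Metric.isOpen_ball, Metric.mem_ball_self hr⟩
      rw [hiA] at this
      exact this
    · push Not at hz hw
      obtain ⟨p1, p2, h12⟩ := hz
      obtain ⟨p3, p4, h34⟩ := hw
      have hd1 : 0 < ‖zf p2 - zf p1‖ := norm_pos_iff.mpr (sub_ne_zero.mpr h12.symm)
      have hd2 : 0 < ‖wf p4 - wf p3‖ := norm_pos_iff.mpr (sub_ne_zero.mpr h34.symm)
      set d := min ‖zf p2 - zf p1‖ ‖wf p4 - wf p3‖ with hd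
      have hdpos : 0 < d := lt_min hd1 hd2
      obtain ⟨p, hp⟩ : d ∈ range (fun p => ‖zf p - zf p1‖) :=
        mem_range_of_exists_le_of_exists_ge (hzfc.sub continuous_const).norm
          ⟨p1, by rw [sub_self, norm_zero]; exact hdpos.le⟩ ⟨p2, min_le_left _ _⟩
      obtain ⟨p', hp'⟩ : d ∈ range (fun p => ‖wf p - wf p3‖) :=
        mem_range_of_exists_le_of_exists_ge (hwfc.sub continuous_const).norm
          ⟨p3, by rw [sub_self, norm_zero]; exact hdpos.le⟩ ⟨p4, min_le_right _ _⟩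
      have h5 := (h.dist (hzA p) (hzA p1) (hwB p') (hwB p3) (hp.trans hp'.symm)).1
      simp only at hp
      rw [h5, sub_self, norm_zero] at hp
      exact hdpos.ne hp

/-- no Steinhaus pair of two `F_σ` sets with at least two points each -/
theorem not_Fs {A B : Set ℂ} (h : SP A B) (hA : A.Nontrivial) (hB : B.Nontrivial)
    (F G : ℕ → Set ℂ) (hF : ∀ n, IsClosed (F n)) (hG : ∀ n, IsClosed (G n))
    (hAF : A = ⋃ n, F n) (hBG : B = ⋃ n, G n) : False := by
  set S : (ℕ × ℕ) × ℕ → Set ℂ := fun i => (fun p : ℂ × ℂ => p.1 - p.2) ''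
    ((F i.1.1 ∩ Metric.closedBall 0 i.2) ×ˢ (G i.1.2 ∩ Metric.closedBall 0 i.2)) with hS
  have hK : ∀ (n m : ℕ), IsCompact (F n ∩ Metric.closedBall 0 m) := fun n m =>
    (isCompact_closedBall 0 _).inter_left (hF n)
  have hL : ∀ (n m : ℕ), IsCompact (G n ∩ Metric.closedBall 0 m) := fun n m =>
    (isCompact_closedBall 0 _).inter_left (hG n)
  have hSc : ∀ i, IsClosed (S i) := fun i =>
    (((hK i.1.1 i.2).prod (hL i.1.2 i.2)).image (by fun_prop)).isClosed
  have hSu : ⋃ i, S i = univ := by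
    rw [eq_univ_iff_forall]
    intro y
    obtain ⟨z, hz, w, hw, hyz⟩ := h.ex 1 y norm_one
    rw [hAF, mem_iUnion] at hz
    rw [hBG, mem_iUnion] at hw
    obtain ⟨n, hn⟩ := hz
    obtain ⟨m, hm⟩ := hw
    obtain ⟨k, hk⟩ := exists_nat_ge (max ‖z‖ ‖w‖)
    rw [mem_iUnion]
    refine ⟨((n, m), k), (z, w), ⟨⟨hn, ?_⟩, ⟨hm, ?_⟩⟩, ?_⟩
    · rw [mem_closedBall_zero_iff]
      exact (le_max_left _ _).trans hk
    · rw [mem_closedBall_zero_iff]
      exact (le_max_right _ _).trans hk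
    · simp only
      rw [hyz, one_mul]
  obtain ⟨i, hi⟩ := nonempty_interior_of_iUnion_of_closed hSc hSu
  have hKA : F i.1.1 ∩ Metric.closedBall 0 i.2 ⊆ A := by
    rw [hAF]
    exact inter_subset_left.trans (subset_iUnion F i.1.1)
  have hLB : G i.1.2 ∩ Metric.closedBall 0 i.2 ⊆ B := by
    rw [hBG]
    exact inter_subset_left.trans (subset_iUnion G i.1.2)
  have := compact_diff h hA hB (hK i.1.1 i.2) (hL i.1.2 i.2) hKA hLB
  rw [this] at hi
  exact not_nonempty_empty hi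

/-- nontrivial pairs: both sets have two points -/
theorem nontriv {A B : Set ℂ} (h : SP A B) (hAB : ¬ (A = univ ∧ ∃ p : ℂ, B = {p})) :
    B.Nontrivial := by
  rw [← not_subsingleton_iff]
  intro hs
  rcases hs.eq_empty_or_singleton with hB | ⟨p, hB⟩
  · obtain ⟨z, hz, w, hw, -⟩ := h.ex 1 0 norm_one
    rw [hB] at hw
    exact hw
  · apply hAB
    refine ⟨?_, p, hB⟩
    rw [eq_univ_iff_forall]
    intro y
    obtain ⟨z, hz, w, hw, hyz⟩ := h.ex 1 (y - p) norm_one
    rw [hB, mem_singleton_iff] at hw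
    have : y = z := by
      rw [hw] at hyz
      linear_combination hyz
    rwa [this]

end Pool.Agent.Helper681.Stein
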